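import Mathlib

/-!
# The parameters
-/

namespace Pool.Agent.N797.PW

/-- `⌊log₂ S⌋ + 1` -/
def pL (S : ℕ) : ℕ := Nat.log 2 S + 1

/-- the number of derivatives -/
def pM (S : ℕ) : ℕ := 2 ^ 16 * S ^ 2 * pL S ^ 2

/-- the order of the zeros -/
def pB (b S : ℕ) : ℕ := b + 2 * pM S

/-- half the order of the poles -/
def pH (b S : ℕ) : ℕ := 2 ^ 20 * S ^ 2 * pL S * pB b S

/-- the zero at infinity -/
def pw (b S : ℕ) : ℕ := 2 ^ 12 * S * pB b S

/-- the height -/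
def px (b S : ℕ) : ℕ := 2 ^ 13 * pB b S

/-- the degree of the multipliers -/
def pg (b S : ℕ) : ℕ := 16 * pB b S / pL S + 1

lemma one_le_pL (S : ℕ) : 1 ≤ pL S := by unfold pL; omega

lemma S_le (S : ℕ) : S ≤ 2 ^ pL S := by
  unfold pL
  exact (Nat.lt_pow_succ_log_self (by norm_num) S).le

lemma L_le (S : ℕ) : pL S ≤ 2 ^ pL S := Nat.lt_two_pow_self.le

lemma LL_le (b S : ℕ) (hS : 1 ≤ S) : 2 ^ 17 * pL S ≤ pB b S := by
  have h1 := one_le_pL S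
  unfold pB pM
  have h2 : 2 ^ 17 * pL S ≤ 2 * (2 ^ 16 * S ^ 2 * pL S ^ 2) := by
    have e1 : 1 ≤ S ^ 2 := Nat.one_le_pow _ _ hS
    have e2 : pL S * 1 ≤ pL S ^ 2 := by
      rw [pow_two]
      exact Nat.mul_le_mul_left _ h1
    calc 2 ^ 17 * pL S = 2 * (2 ^ 16 * 1 * (pL S * 1)) := by ring
      _ ≤ 2 * (2 ^ 16 * S ^ 2 * pL S ^ 2) := by gcongr
  omega

lemma one_le_pB (b S : ℕ) (hS : 1 ≤ S) : 1 ≤ pB b S := by
  have h1 := LL_le b S hS
  have h2 := one_le_pL S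
  omega

lemma pgL (b S : ℕ) : 16 * pB b S + 1 ≤ pL S * pg b S := by
  have h1 := one_le_pL S
  have h2 : 16 * pB b S < pL S * (16 * pB b S / pL S + 1) := Nat.lt_mul_div_succ _ (by omega)
  unfold pg
  omega

lemma pgL' (b S : ℕ) : pL S * pg b S ≤ 16 * pB b S + pL S := by
  unfold pg
  rw [mul_add, mul_one]
  exact Nat.add_le_add_right (Nat.mul_div_le _ _) _

/-- (P1) -/
lemma par1 (b S : ℕ) : 2 * pH b S ≤ 2 ^ (2 * pL S + 9) * pw b S := by
  have h1 : S * pL S ≤ 2 ^ pL S * 2 ^ pL S := Nat.mul_le_mul (S_le S) (L_le S)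
  unfold pH pw
  calc 2 * (2 ^ 20 * S ^ 2 * pL S * pB b S) = (2 ^ 21 * (S * pB b S)) * (S * pL S) := by ring
    _ ≤ (2 ^ 21 * (S * pB b S)) * (2 ^ pL S * 2 ^ pL S) := Nat.mul_le_mul_left _ h1
    _ = 2 ^ (2 * pL S + 9) * (2 ^ 12 * S * pB b S) := by
      rw [pow_add, two_mul, pow_add]
      ring

/-- (P3) -/
lemma par3 (b S : ℕ) (hS : 1 ≤ S) : 2 * pH b S + 2 * pB b S ≤ 2 ^ (4 * pL S + 18) * pg b S := by
  have h1 := one_le_pL S
  have hS2 : 1 ≤ S ^ 2 := Nat.one_le_pow _ _ hS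
  have h2 : S ^ 2 * (pL S * pL S) ≤ (2 ^ pL S) ^ 2 * (2 ^ pL S * 2 ^ pL S) :=
    Nat.mul_le_mul (Nat.pow_le_pow_left (S_le S) 2) (Nat.mul_le_mul (L_le S) (L_le S))
  have h3 : 2 * pH b S + 2 * pB b S ≤ 2 ^ 22 * S ^ 2 * pL S * pB b S := by
    have e1 : 1 * 1 * pB b S ≤ S ^ 2 * pL S * pB b S := by gcongr
    have e2 : 2 * pH b S = 2 ^ 21 * (S ^ 2 * pL S * pB b S) := by unfold pH; ring
    have e3 : 2 ^ 22 * S ^ 2 * pL S * pB b S = 2 ^ 22 * (S ^ 2 * pL S * pB b S) := by ring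
    rw [e2, e3]
    omega
  have h4 := pgL b S
  calc 2 * pH b S + 2 * pB b S ≤ 2 ^ 22 * S ^ 2 * pL S * pB b S := h3
    _ = 2 ^ 18 * S ^ 2 * pL S * (16 * pB b S) := by ring
    _ ≤ 2 ^ 18 * S ^ 2 * pL S * (pL S * pg b S) := Nat.mul_le_mul_left _ (by omega)
    _ = 2 ^ 18 * (S ^ 2 * (pL S * pL S)) * pg b S := by ring
    _ ≤ 2 ^ 18 * ((2 ^ pL S) ^ 2 * (2 ^ pL S * 2 ^ pL S)) * pg b S := by gcongr
    _ = 2 ^ (4 * pL S + 18) * pg b S := by
      rw [pow_add, show 4 * pL S = pL S + pL S + pL S + pL S by ring, pow_add, pow_add, pow_add]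
      ring

/-- (P4) -/
lemma par4 (b S : ℕ) (hS : 1 ≤ S) : pH b S + 1 ≤ pg b S * (pM S + 1) := by
  have h1 := one_le_pL S
  have hS2 : 1 ≤ S ^ 2 := Nat.one_le_pow _ _ hS
  have h4 := pgL b S
  have e1 : 1 ≤ 2 ^ 16 * S ^ 2 * pL S := by
    calc 1 ≤ 2 ^ 16 * 1 * 1 := by norm_num
      _ ≤ 2 ^ 16 * S ^ 2 * pL S := by gcongr
  calc pH b S + 1 ≤ pH b S + 2 ^ 16 * S ^ 2 * pL S := by omega
    _ = 2 ^ 16 * S ^ 2 * pL S * (16 * pB b S + 1) := by unfold pH; ring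
    _ ≤ 2 ^ 16 * S ^ 2 * pL S * (pL S * pg b S) := Nat.mul_le_mul_left _ h4
    _ = pg b S * pM S := by unfold pM; ring
    _ ≤ pg b S * (pM S + 1) := Nat.mul_le_mul_left _ (by omega)

/-- (P6) -/
lemma pg_le (b S : ℕ) (hS : 1 ≤ S) : pg b S ≤ 17 * pB b S := by
  have h1 := one_le_pL S
  have h2 := pgL' b S
  have h3 := LL_le b S hS
  have h4 : 1 * pg b S ≤ pL S * pg b S := Nat.mul_le_mul_right _ h1
  omega

/-- `4 J (2 γ + 2)` -/
lemma parJ (b S : ℕ) (hS : 1 ≤ S) :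
    4 * (4 * pL S + 18) * (2 * pg b S + 2) ≤ 2817 * pB b S := by
  have h1 := one_le_pL S
  have h2 := pgL' b S
  have h3 := LL_le b S hS
  calc 4 * (4 * pL S + 18) * (2 * pg b S + 2) ≤ 4 * (22 * pL S) * (2 * pg b S + 2) := by
        gcongr
        omega
    _ = 176 * (pL S * pg b S) + 176 * pL S := by ring
    _ ≤ 2817 * pB b S := by omega

/-- (P5) -/
lemma par5 (b S : ℕ) (hS : 1 ≤ S) :
    (S + 1) * (5 * pg b S + 4 * (4 * pL S + 18) * (2 * pg b S + 2) + px b S + 6) + 6 * pg b S ≤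
      6 * pw b S := by
  have h1 := parJ b S hS
  have h2 := pg_le b S hS
  have h3 := LL_le b S hS
  have h4 := one_le_pL S
  have e1 : 5 * pg b S + 4 * (4 * pL S + 18) * (2 * pg b S + 2) + px b S + 6 ≤ 11095 * pB b S := by
    unfold px
    omega
  have e2 : (S + 1) * (5 * pg b S + 4 * (4 * pL S + 18) * (2 * pg b S + 2) + px b S + 6) ≤
      (2 * S) * (11095 * pB b S) := Nat.mul_le_mul (by omega) e1
  have e3 : pB b S ≤ S * pB b S := Nat.le_mul_of_pos_left _ (by omega)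
  have e4 : (2 * S) * (11095 * pB b S) = 22190 * (S * pB b S) := by ring
  have e5 : 6 * pw b S = 24576 * (S * pB b S) := by unfold pw; ring
  rw [e5]
  omega

/-- (P2) -/
lemma par2 (b S : ℕ) (hS : 1 ≤ S) :
    (pw b S + 1) * (px b S + 5 * pw b S + 8 * (2 * pL S + 9) * (pw b S + 1) + 5) +
      16 * pB b S * (px b S + 4 * (16 + 1) * (2 * pH b S + pB b S) + 1) +
      4 * pB b S * (2 * pH b S + pB b S) < px b S * pH b S := by
  have hL := one_le_pL S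
  have hB := one_le_pB b S hS
  obtain ⟨L, hLe⟩ : ∃ L, L = pL S := ⟨_, rfl⟩
  obtain ⟨B, hBe⟩ : ∃ B, B = pB b S := ⟨_, rfl⟩
  obtain ⟨U, hU⟩ : ∃ U, U = S * B := ⟨_, rfl⟩
  have hwU : pw b S = 4096 * U := by unfold pw; rw [hU, hBe]; ring
  have hxB : px b S = 8192 * B := by unfold px; rw [hBe]; norm_num
  obtain ⟨T, hT⟩ : ∃ T, T = S ^ 2 * L * B := ⟨_, rfl⟩
  have hhT : pH b S = 1048576 * T := by unfold pH; rw [hT, hBe, hLe]; ring
  rw [hwU, hxB, hhT, ← hLe, ← hBe]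
  rw [← hLe] at hL
  rw [← hBe] at hB
  have hBU : B ≤ U := by rw [hU]; exact Nat.le_mul_of_pos_left _ (by omega)
  have hU1 : 1 ≤ U := by omega
  have hBT : B ≤ T := by
    rw [hT]
    have hS2 : 1 ≤ S ^ 2 := Nat.one_le_pow _ _ hS
    calc B = 1 * 1 * B := by ring
      _ ≤ S ^ 2 * L * B := by gcongr
  have a1 : 4096 * U + 1 ≤ 4097 * U := by omega
  have a2 : 8192 * B + 5 * (4096 * U) + 8 * (2 * L + 9) * (4096 * U + 1) + 5 ≤ 389213 * (L * U) := by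
    have e1 : 8 * (2 * L + 9) * (4096 * U + 1) ≤ 8 * (11 * L) * (4097 * U) := by
      gcongr
      omega
    have e2 : 8 * (11 * L) * (4097 * U) = 360536 * (L * U) := by ring
    have e3 : U ≤ L * U := Nat.le_mul_of_pos_left _ (by omega)
    omega
  have a3 : (4096 * U + 1) * (8192 * B + 5 * (4096 * U) + 8 * (2 * L + 9) * (4096 * U + 1) + 5) ≤
      (4097 * U) * (389213 * (L * U)) := Nat.mul_le_mul a1 a2
  have a4 : (4097 * U) * (389213 * (L * U)) = 1594605661 * (T * B) := by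
    rw [hT, hU]
    ring
  have a5 : 16 * B * (8192 * B + 4 * (16 + 1) * (2 * (1048576 * T) + B) + 1) ≤
      16 * B * (142614597 * T) := by
    apply Nat.mul_le_mul_left
    omega
  have a6 : 16 * B * (142614597 * T) = 2281833552 * (T * B) := by ring
  have a7 : 4 * B * (2 * (1048576 * T) + B) ≤ 4 * B * (2097153 * T) := by
    apply Nat.mul_le_mul_left
    omega
  have a8 : 4 * B * (2097153 * T) = 8388612 * (T * B) := by ring
  have a9 : 8192 * B * (1048576 * T) = 8589934592 * (T * B) := by ring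
  have a10 : 1 ≤ T * B := Nat.mul_pos (by omega) (by omega)
  omega

lemma pg_le_pw (b S : ℕ) (hS : 1 ≤ S) : pg b S ≤ pw b S := by
  have h1 := par5 b S hS
  omega

lemma pg_le_pH (b S : ℕ) (hS : 1 ≤ S) : pg b S + 2 ≤ pH b S := by
  have h1 := pg_le b S hS
  have h2 := one_le_pB b S hS
  have h3 := one_le_pL S
  have hS2 : 1 ≤ S ^ 2 := Nat.one_le_pow _ _ hS
  have h4 : 2 ^ 20 * 1 * 1 * pB b S ≤ pH b S := by
    unfold pH
    gcongr
  omega

/-- the window -/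
lemma win_le (b S : ℕ) (hS : 1 ≤ S) :
    2 * pH b S + pB b S ≤ 2 ^ 39 * (S ^ 2 * pL S * (b + S ^ 2 * pL S ^ 2)) := by
  have hL := one_le_pL S
  have hS2 : 1 ≤ S ^ 2 := Nat.one_le_pow _ _ hS
  have e1 : pB b S ≤ 2 ^ 17 * (b + S ^ 2 * pL S ^ 2) := by
    unfold pB pM
    have : 2 * (2 ^ 16 * S ^ 2 * pL S ^ 2) = 2 ^ 17 * (S ^ 2 * pL S ^ 2) := by ring
    rw [this, mul_add]
    apply Nat.add_le_add_right
    omega
  have e2 : pB b S ≤ S ^ 2 * pL S * pB b S := by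
    calc pB b S = 1 * 1 * pB b S := by ring
      _ ≤ _ := by gcongr
  have e3 : 2 * pH b S = 2 ^ 21 * (S ^ 2 * pL S * pB b S) := by unfold pH; ring
  have e4 : S ^ 2 * pL S * pB b S ≤ S ^ 2 * pL S * (2 ^ 17 * (b + S ^ 2 * pL S ^ 2)) :=
    Nat.mul_le_mul_left _ e1
  have e5 : S ^ 2 * pL S * (2 ^ 17 * (b + S ^ 2 * pL S ^ 2)) =
      2 ^ 17 * (S ^ 2 * pL S * (b + S ^ 2 * pL S ^ 2)) := by ring
  omega

end Pool.Agent.N797.PW
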