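import Pool.Agent.N797.PW.Stm
import Pool.Agent.N797.PW.Par
import Pool.Agent.Y926.TW.Core

/-!
# The core of the proof
-/

open Polynomial Pool.Agent.H337R2 Pool.Agent.W165.OZ Pool.Agent.Y926.LZ Pool.Agent.Y926.TW Filter Topology

namespace Pool.Agent.N797.PW

noncomputable section

/-- the exponent of the common denominator -/
def pD (b S : ℕ) : ℕ := 2 * pg b S + 4 * (4 * pL S + 18) * (2 * pg b S + 2) + 1

/-- `Y = S · pG` -/
def pG (b S : ℕ) : ℕ := pD b S + px b S + 3 * pg b S + 5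

lemma par5' (b S : ℕ) (hS : 1 ≤ S) : (S + 1) * pG b S + 6 * pg b S ≤ 6 * pw b S := by
  have h := par5 b S hS
  have e1 : pG b S = 5 * pg b S + 4 * (4 * pL S + 18) * (2 * pg b S + 2) + px b S + 6 := by
    unfold pG pD
    ring
  rw [e1]
  exact h

lemma one_le_pM {S : ℕ} (hS : 1 ≤ S) : 1 ≤ pM S := by
  have h1 := one_le_pL S
  have h2 : 0 < pM S := by
    unfold pM
    positivity
  omega

/-- the smallness of the forms, in powers of two -/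
lemma sml_bd {n β B w γ x l : ℕ} (hβ : β < B) (hl : l ≤ γ * n) (hγ : γ ≤ w) :
    2 ^ (β + 2) * (((16 : ℕ) : ℝ)) ^ 2 * (n : ℝ) ^ 3 * ((2 ^ (x * n) : ℕ) : ℝ) * 8 ^ (l + n) *
      (2 / (((16 : ℕ) : ℝ))) ^ (2 * (w * n) + 2 - 2 * l) * 2 ^ (6 * w * n) ≤
    2 ^ (B + 10) * (n : ℝ) ^ 3 * 2 ^ ((x + 3 * γ + 3 + 6 * γ) * n) := by
  obtain ⟨k, hk⟩ : ∃ k, w * n = l + k := ⟨w * n - l, by
    have : γ * n ≤ w * n := Nat.mul_le_mul_right _ hγ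
    omega⟩
  have e0 : 2 * (w * n) + 2 - 2 * l = 2 * k + 2 := by omega
  rw [e0]
  have e1 : (2 / (((16 : ℕ) : ℝ))) ^ (2 * k + 2) * 2 ^ (6 * w * n) = 2 ^ (6 * l) / 64 := by
    have e2 : (2 / (((16 : ℕ) : ℝ))) = 1 / 2 ^ 3 := by norm_num
    rw [e2, one_div, inv_pow, ← pow_mul]
    have e3 : 6 * w * n = 6 * l + 6 * k := by
      calc 6 * w * n = 6 * (w * n) := by ring
        _ = _ := by rw [hk]; ring
    rw [e3, show 3 * (2 * k + 2) = 6 * k + 6 by ring, pow_add, pow_add]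
    have e4 : (2 : ℝ) ^ (6 * k) ≠ 0 := by positivity
    field_simp
    norm_num
  have e5 : (8 : ℝ) ^ (l + n) = 2 ^ (3 * l + 3 * n) := by
    rw [show (8 : ℝ) = 2 ^ 3 by norm_num, ← pow_mul]
    congr 1
    ring
  calc 2 ^ (β + 2) * (((16 : ℕ) : ℝ)) ^ 2 * (n : ℝ) ^ 3 * ((2 ^ (x * n) : ℕ) : ℝ) * 8 ^ (l + n) *
      (2 / (((16 : ℕ) : ℝ))) ^ (2 * k + 2) * 2 ^ (6 * w * n)
      = 2 ^ (β + 2) * (((16 : ℕ) : ℝ)) ^ 2 * (n : ℝ) ^ 3 * ((2 ^ (x * n) : ℕ) : ℝ) * 8 ^ (l + n) *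
      ((2 / (((16 : ℕ) : ℝ))) ^ (2 * k + 2) * 2 ^ (6 * w * n)) := by ring
    _ = 2 ^ (β + 2) * 2 ^ 2 * (n : ℝ) ^ 3 * (2 ^ (x * n) * 2 ^ (3 * l + 3 * n) * 2 ^ (6 * l)) := by
        rw [e1, e5]
        push_cast
        ring
    _ ≤ 2 ^ (B + 10) * (n : ℝ) ^ 3 * 2 ^ ((x + 3 * γ + 3 + 6 * γ) * n) := by
        rw [← pow_add, ← pow_add, ← pow_add]
        have f1 : (2 : ℝ) ^ (β + 2 + 2) ≤ 2 ^ (B + 10) := pow_le_pow_right₀ (by norm_num) (by omega)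
        have f2 : (2 : ℝ) ^ (x * n + (3 * l + 3 * n) + 6 * l) ≤ 2 ^ ((x + 3 * γ + 3 + 6 * γ) * n) := by
          apply pow_le_pow_right₀ (by norm_num)
          have : (x + 3 * γ + 3 + 6 * γ) * n = x * n + 9 * (γ * n) + 3 * n := by ring
          omega
        gcongr

/-- **The core**: even `b`. -/
theorem pw_core (hSG : S_SG) (hNUM : S_NUM) (hGCD : S_GCD) (hINT : S_INT) (hSML : S_SML)
    (hDIF : S_DIF) (hZE : S_ZE) {b S : ℕ} (hb : Even b) (hb2 : 2 ≤ b) (hS : 1 ≤ S) :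
    ∃ q0 : ℕ, ∀ q ≥ q0, ∃ j, Odd j ∧ b < j ∧ j ≤ 2 * pH b S + pB b S ∧
      ∀ p : ℤ, (q : ℝ) ^ (-(1 / (S : ℝ))) ≤ |(q : ℝ) * zr j - p| := by
  classical
  obtain ⟨L, hL⟩ : ∃ L, L = pL S := ⟨_, rfl⟩
  obtain ⟨M, hM⟩ : ∃ M, M = pM S := ⟨_, rfl⟩
  obtain ⟨B, hB⟩ : ∃ B, B = pB b S := ⟨_, rfl⟩
  obtain ⟨h, hh⟩ : ∃ h, h = pH b S := ⟨_, rfl⟩
  obtain ⟨w, hw⟩ : ∃ w, w = pw b S := ⟨_, rfl⟩
  obtain ⟨x, hx⟩ : ∃ x, x = px b S := ⟨_, rfl⟩
  obtain ⟨γ, hγ⟩ : ∃ γ, γ = pg b S := ⟨_, rfl⟩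
  obtain ⟨Δ, hΔ⟩ : ∃ Δ, Δ = pD b S := ⟨_, rfl⟩
  obtain ⟨g', hg'⟩ : ∃ g', g' = pG b S := ⟨_, rfl⟩
  have hBM : B = b + 2 * M := by rw [hB, hM]; rfl
  have hM1 : 1 ≤ M := by
    rw [hM]
    exact one_le_pM hS
  have P1 : 2 * h ≤ 2 ^ (2 * L + 9) * w := by rw [hh, hL, hw]; exact par1 b S
  have P2 := par2 b S hS
  have P3 : 2 * h + 2 * B ≤ 2 ^ (4 * L + 18) * γ := by rw [hh, hB, hL, hγ]; exact par3 b S hS
  have P4 : h + 1 ≤ γ * (M + 1) := by rw [hh, hγ, hM]; exact par4 b S hS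
  have P5 : (S + 1) * g' + 6 * γ ≤ 6 * w := by rw [hg', hγ, hw]; exact par5' b S hS
  have P6 : γ ≤ w := by rw [hγ, hw]; exact pg_le_pw b S hS
  have P7 : γ + 2 ≤ h := by rw [hγ, hh]; exact pg_le_pH b S hS
  have hΔe : Δ = 2 * γ + 4 * (4 * L + 18) * (2 * γ + 2) + 1 := by rw [hΔ, hγ, hL]; rfl
  have hg'e : g' = Δ + x + 3 * γ + 5 := by rw [hg', hΔ, hx, hγ]; rfl
  rw [← hw, ← hx, ← hL, ← hB, ← hh] at P2
  rw [← hh, ← hB]
  have hh1 : 1 ≤ h := by omega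
  have hg'1 : 1 ≤ g' := by omega
  have hY1 : 1 ≤ S * g' := Nat.mul_pos (by omega) (by omega)
  -- the largeness conditions
  have hevG := hGCD (2 * h + 2 * B) (2 * γ + 2) γ (4 * L + 18) P3
  have hevN := hNUM h 16 B w x (2 * L + 9) P1 P2
  have hev := hevG.and
    ((eventually_small (q := 1 / 2) (by norm_num) (by norm_num)
      (4 * 2 ^ (B + 10) : ℝ) 3).and
    (eventually_small (q := 1 / 2) (by norm_num) (by norm_num)
      (4 * (2 * h * 2 ^ (2 * h + B) * 2 ^ (2 * g')) : ℝ) 1))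
  obtain ⟨N1, hN1⟩ := eventually_atTop.1 hev
  obtain ⟨N2, hN2⟩ := eventually_atTop.1 hevN
  obtain ⟨N0, hN0⟩ : ∃ N0, N0 = N1 + N2 + M + 2 * B * (M * (M + 1)) + 2 * h * M ^ 2 + 2 := ⟨_, rfl⟩
  refine ⟨(2 ^ (S * g')) ^ (2 * N0) + 2, fun q hq => ?_⟩
  by_contra hcon
  push Not at hcon
  obtain ⟨ν, hνN, hqn, hqn1⟩ := choose_n hY1 hq
  have hνN1 : N1 ≤ ν := by omega
  have hνN2 : N2 ≤ ν := by omega
  obtain ⟨n, hn⟩ : ∃ n, n = 2 * ν + 1 := ⟨_, rfl⟩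
  obtain ⟨hnG, hn3, hn1'⟩ := hN1 n (by omega)
  have hSgN := hN2 ν hνN2
  have hν1 : 1 ≤ ν := by omega
  have hn1 : 1 ≤ n := by omega
  have hnR : 2 * (ν : ℝ) + 1 = (n : ℝ) := by rw [hn]; push_cast; ring
  have hq0 : 0 < q := by omega
  have hq0' : (0 : ℝ) < q := by exact_mod_cast hq0
  have hq0q : (q : ℚ) ≠ 0 := by exact_mod_cast hq0.ne'
  -- the approximations
  obtain ⟨s, hs⟩ : ∃ s : ℝ, s = (q : ℝ) ^ (-(1 / (S : ℝ))) := ⟨_, rfl⟩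
  have hs0 : 0 < s := by rw [hs]; exact Real.rpow_pos_of_pos hq0' _
  rw [← hs] at hcon
  have hsT : s * 2 ^ (g' * (2 * ν - 1)) ≤ 1 := by
    have e1 : (2 ^ (g' * (2 * ν - 1))) ^ S ≤ q := by
      refine le_trans (le_of_eq ?_) hqn1.le
      rw [← pow_mul]
      congr 1
      ring
    have e2 := root_le hq0 hS e1
    rw [← hs] at e2
    push_cast at e2
    exact e2
  have hp : ∀ j, ∃ p : ℤ, (Odd j → b < j → j ≤ 2 * h + B → |(q : ℝ) * zr j - p| < s) := by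
    intro j
    by_cases hc : Odd j ∧ b < j ∧ j ≤ 2 * h + B
    · obtain ⟨p, hp⟩ := hcon j hc.1 hc.2.1 hc.2.2
      exact ⟨p, fun _ _ _ => hp⟩
    · exact ⟨0, fun h1 h2 h3 => absurd ⟨h1, h2, h3⟩ hc⟩
  choose p hp using hp
  obtain ⟨z, hz⟩ : ∃ z : ℕ → ℚ, ∀ j, z j = (p j : ℚ) / q := ⟨_, fun _ => rfl⟩
  have hyz : ∀ j, Odd j → b < j → j ≤ 2 * h + B → |zr j - (z j : ℝ)| ≤ s / q := by
    intro j hj1 hj2 hj3
    have e1 := hp j hj1 hj2 hj3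
    rw [hz, le_div_iff₀ hq0']
    have e2 : |zr j - (((p j : ℚ) / q : ℚ) : ℝ)| * q = |(q : ℝ) * zr j - p j| := by
      rw [← abs_of_pos hq0', ← abs_mul, abs_of_pos hq0']
      congr 1
      push_cast
      field_simp
    rw [e2]
    exact e1.le
  have hyi : ∀ j, ∃ a : ℤ, (q : ℚ) * z j = a := by
    intro j
    refine ⟨p j, ?_⟩
    rw [hz]
    field_simp
  -- Siegel's lemma
  obtain ⟨H, hH⟩ : ∃ H, H = 2 ^ (x * n) := ⟨_, rfl⟩
  obtain ⟨c, hAS, hNZ, hcH, hTA, hTB, hTC⟩ := hSG h ν 16 B w H hh1 hν1 (by rw [hH, hn]; exact hSgN)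
  rw [← hn] at hAS hNZ hTA hTB hTC
  -- powers of two
  obtain ⟨D, hD⟩ : ∃ D, D = DW n (2 * h + 2 * B) (2 * γ + 2) := ⟨_, rfl⟩
  rw [← hD, ← hΔe] at hnG
  have hD0 : 0 < D := by
    rw [hD]
    exact Nat.gcd_pos_of_pos_right _ (pow_pos (Nat.factorial_pos n) _)
  have hD0' : (0 : ℝ) < D := by exact_mod_cast hD0
  have hqP : (q : ℝ) ≤ 2 ^ (S * g' * n) := by
    rw [hn]
    exact_mod_cast hqn
  -- first estimate
  have hT1 : ∀ β < B, ∀ l ≤ γ * n, (q : ℝ) * D * (2 ^ (β + 2) * (((16 : ℕ) : ℝ)) ^ 2 * (n : ℝ) ^ 3 *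
      (H : ℝ) * 8 ^ (l + n) * (2 / (((16 : ℕ) : ℝ))) ^ (2 * (w * n) + 2 - 2 * l)) ≤ 1 / 4 := by
    intro β hβ l hl
    have e1 := sml_bd (n := n) (β := β) (B := B) (w := w) (γ := γ) (x := x) (l := l) hβ hl P6
    rw [← hH] at e1
    obtain ⟨R, hR⟩ : ∃ R : ℝ, R = 2 ^ (β + 2) * (((16 : ℕ) : ℝ)) ^ 2 * (n : ℝ) ^ 3 *
      (H : ℝ) * 8 ^ (l + n) * (2 / (((16 : ℕ) : ℝ))) ^ (2 * (w * n) + 2 - 2 * l) := ⟨_, rfl⟩
    rw [← hR] at e1 ⊢
    have hR0 : 0 ≤ R := by rw [hR]; positivity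
    have e2 : (2 : ℝ) ^ (S * g' * n) * 2 ^ (Δ * n) * 2 ^ ((x + 3 * γ + 3 + 6 * γ) * n) * 2 ^ n ≤
        2 ^ (6 * w * n) := by
      rw [← pow_add, ← pow_add, ← pow_add]
      apply pow_le_pow_right₀ (by norm_num)
      have f1 : S * g' * n + Δ * n + (x + 3 * γ + 3 + 6 * γ) * n + n =
        (S * g' + (Δ + x + 3 * γ + 4) + 6 * γ) * n := by ring
      rw [f1]
      apply Nat.mul_le_mul_right
      have f2 : (S + 1) * g' = S * g' + g' := by ring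
      omega
    have e3 := half_pow hn3
    have e4 : (q : ℝ) * D * R * (2 ^ n * 2 ^ (6 * w * n)) ≤ 1 / 4 * (2 ^ n * 2 ^ (6 * w * n)) := by
      calc (q : ℝ) * D * R * (2 ^ n * 2 ^ (6 * w * n))
          = q * D * 2 ^ n * (R * 2 ^ (6 * w * n)) := by ring
        _ ≤ 2 ^ (S * g' * n) * 2 ^ (Δ * n) * 2 ^ n *
            (2 ^ (B + 10) * (n : ℝ) ^ 3 * 2 ^ ((x + 3 * γ + 3 + 6 * γ) * n)) := by gcongr
        _ = (2 ^ (B + 10) * (n : ℝ) ^ 3) *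
            (2 ^ (S * g' * n) * 2 ^ (Δ * n) * 2 ^ ((x + 3 * γ + 3 + 6 * γ) * n) * 2 ^ n) := by ring
        _ ≤ (1 / 4 * 2 ^ n) * 2 ^ (6 * w * n) := by
            apply mul_le_mul _ e2 (by positivity) (by positivity)
            linarith
        _ = _ := by ring
    exact le_of_mul_le_mul_right e4 (by positivity)
  -- second estimate
  have hT2 : ∀ β < B, ∀ l ≤ γ * n, (q : ℝ) * D *
      (2 * h * (2 ^ (2 * h + β) * ((H : ℝ) * (n : ℝ) * 8 ^ (l + n))) * (s / q)) ≤ 1 / 4 := by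
    intro β hβ l hl
    have e5 : (8 : ℝ) ^ (l + n) ≤ 2 ^ (3 * (γ * n) + 3 * n) := by
      rw [show (8 : ℝ) = 2 ^ 3 by norm_num, ← pow_mul]
      apply pow_le_pow_right₀ (by norm_num)
      omega
    have e6 : (2 : ℝ) ^ (2 * h + β) ≤ 2 ^ (2 * h + B) := pow_le_pow_right₀ (by norm_num) (by omega)
    have e7 : (q : ℝ) * D * (2 * h * (2 ^ (2 * h + β) * ((H : ℝ) * (n : ℝ) * 8 ^ (l + n))) * (s / q)) =
        D * (2 * h * (2 ^ (2 * h + β) * ((H : ℝ) * (n : ℝ) * 8 ^ (l + n))) * s) := by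
      field_simp
    rw [e7]
    have e8 : (2 : ℝ) ^ (Δ * n) * 2 ^ (x * n) * 2 ^ (3 * (γ * n) + 3 * n) * 2 ^ n * s ≤ 2 ^ (2 * g') := by
      have f1 : (2 : ℝ) ^ (Δ * n) * 2 ^ (x * n) * 2 ^ (3 * (γ * n) + 3 * n) * 2 ^ n ≤
          2 ^ (g' * (2 * ν - 1)) * 2 ^ (2 * g') := by
        rw [← pow_add, ← pow_add, ← pow_add, ← pow_add]
        apply pow_le_pow_right₀ (by norm_num)
        obtain ⟨k, hk⟩ : ∃ k, k = 2 * ν - 1 := ⟨_, rfl⟩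
        rw [← hk]
        have f2 : n = k + 2 := by omega
        have f3 : g' * k + 2 * g' = g' * n := by rw [f2]; ring
        rw [f3]
        calc Δ * n + x * n + (3 * (γ * n) + 3 * n) + n = (Δ + x + 3 * γ + 4) * n := by ring
          _ ≤ g' * n := Nat.mul_le_mul_right _ (by omega)
      calc (2 : ℝ) ^ (Δ * n) * 2 ^ (x * n) * 2 ^ (3 * (γ * n) + 3 * n) * 2 ^ n * s
          ≤ 2 ^ (g' * (2 * ν - 1)) * 2 ^ (2 * g') * s := by gcongr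
        _ = (s * 2 ^ (g' * (2 * ν - 1))) * 2 ^ (2 * g') := by ring
        _ ≤ 1 * 2 ^ (2 * g') := by gcongr
        _ = _ := one_mul _
    have e9 := half_pow hn1'
    rw [pow_one] at e9
    have hHR : (H : ℝ) = 2 ^ (x * n) := by rw [hH]; push_cast; rfl
    have e10 : (D * (2 * h * (2 ^ (2 * h + β) * ((H : ℝ) * (n : ℝ) * 8 ^ (l + n))) * s)) * 2 ^ n ≤
        1 / 4 * 2 ^ n := by
      calc (D * (2 * h * (2 ^ (2 * h + β) * ((H : ℝ) * (n : ℝ) * 8 ^ (l + n))) * s)) * 2 ^ n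
          ≤ (2 ^ (Δ * n) * (2 * h * (2 ^ (2 * h + B) * (2 ^ (x * n) * (n : ℝ) *
            2 ^ (3 * (γ * n) + 3 * n))) * s)) * 2 ^ n := by rw [hHR]; gcongr
        _ = (2 * h * 2 ^ (2 * h + B) * n) *
            (2 ^ (Δ * n) * 2 ^ (x * n) * 2 ^ (3 * (γ * n) + 3 * n) * 2 ^ n * s) := by ring
        _ ≤ (2 * h * 2 ^ (2 * h + B) * n) * 2 ^ (2 * g') := by gcongr
        _ ≤ 1 / 4 * 2 ^ n := by linarith
    exact le_of_mul_le_mul_right e10 (by positivity)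
  -- the forms vanish
  have hzero : ∀ j < M, ∀ l ≤ γ * n, Lz z h n c (gq n l) (b + 2 * j) = 0 := by
    intro j hj l hl
    obtain ⟨β, hβ⟩ : ∃ β, β = b + 2 * j := ⟨_, rfl⟩
    rw [← hβ]
    have hβe : Even β := by
      rw [hβ]
      exact hb.add (even_two_mul j)
    have hβB : β < B := by omega
    obtain ⟨Mz, hMz⟩ := hINT z h ν β B γ l q c hβe hβB (by rw [← hn]; exact hl)
      (by rw [← hn]; exact hAS) (by rw [← hn]; exact hTC) (fun j' _ _ _ => hyi j')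
    rw [← hn, ← hD] at hMz
    have hle := hSML h ν β B w 16 l H c (by omega) hβB (by norm_num)
      (by rw [← hn]; exact hl.trans (Nat.mul_le_mul_right _ P6))
      (by rw [← hn]; exact hAS) hcH (by rw [← hn]; exact hTA) (by rw [← hn]; exact hTB)
    rw [hnR, ← hn] at hle
    have hdf := hDIF z h ν β l H c (s / q) hβe (by positivity) (by rw [← hn]; exact hAS) hcH
      (fun j' h1 h2 h3 => hyz j' h1 (by omega) (by omega))
    rw [hnR, ← hn] at hdf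
    obtain ⟨y1, hy1⟩ : ∃ y1, y1 = Lz z h n c (gq n l) β := ⟨_, rfl⟩
    obtain ⟨y2, hy2⟩ : ∃ y2, y2 = LR h n c (gq n l) β := ⟨_, rfl⟩
    rw [← hy1] at hMz hdf ⊢
    rw [← hy2] at hle hdf
    have a1 : |(y1 : ℝ)| ≤ (2 ^ (β + 2) * (((16 : ℕ) : ℝ)) ^ 2 * (n : ℝ) ^ 3 *
        (H : ℝ) * 8 ^ (l + n) * (2 / (((16 : ℕ) : ℝ))) ^ (2 * (w * n) + 2 - 2 * l)) +
        (2 * h * (2 ^ (2 * h + β) * ((H : ℝ) * (n : ℝ) * 8 ^ (l + n))) * (s / q)) := by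
      have a2 := abs_sub_abs_le_abs_sub (y1 : ℝ) y2
      rw [abs_sub_comm] at a2
      linarith
    have a3 : |(Mz : ℝ)| < 1 := by
      have a4 : (Mz : ℝ) = (q : ℝ) * D * (y1 : ℝ) := by
        have := congrArg (fun t : ℚ => (t : ℝ)) hMz
        push_cast at this
        exact this.symm
      rw [a4, abs_mul, abs_of_pos (by positivity : (0 : ℝ) < (q : ℝ) * D)]
      calc (q : ℝ) * D * |(y1 : ℝ)| ≤ (q : ℝ) * D * ((2 ^ (β + 2) * (((16 : ℕ) : ℝ)) ^ 2 * (n : ℝ) ^ 3 *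
            (H : ℝ) * 8 ^ (l + n) * (2 / (((16 : ℕ) : ℝ))) ^ (2 * (w * n) + 2 - 2 * l)) +
            (2 * h * (2 ^ (2 * h + β) * ((H : ℝ) * (n : ℝ) * 8 ^ (l + n))) * (s / q))) := by gcongr
        _ ≤ 1 / 4 + 1 / 4 := by
            rw [mul_add]
            exact add_le_add (hT1 β hβB l hl) (hT2 β hβB l hl)
        _ < 1 := by norm_num
    have a5 : Mz = 0 := by
      have : |Mz| < 1 := by exact_mod_cast a3
      exact Int.abs_lt_one_iff.1 this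
    rw [a5, Int.cast_zero] at hMz
    rcases mul_eq_zero.1 hMz with a6 | a6
    · exfalso
      rcases mul_eq_zero.1 a6 with a7 | a7
      · exact hq0q a7
      · exact hD0.ne' (by exact_mod_cast a7)
    · exact a6
  -- the zero estimate
  have hGM : M < n := by omega
  refine hZE z h ν b M (γ * n) c hb hh1 hM1 (by rw [← hn]; exact hGM) (by rw [← hn]; exact hAS)
    (by rw [← hn]; exact hNZ) ?_ (by rw [← hn]; exact hzero) ?_ ?_
  · rw [← hn]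
    intro l hl
    exact hTA l (hl.trans (Nat.mul_le_mul_right _ P6))
  · rw [← hn]
    have e1 : (γ + 2) * n ≤ h * n := Nat.mul_le_mul_right _ P7
    have e2 : (γ + 2) * n = γ * n + 2 * n := by ring
    have e3 : n * (2 * h) = 2 * (h * n) := by ring
    rw [e3]
    omega
  · rw [← hn, ← hBM]
    have e1 : (h + 1) * n ≤ (γ * (M + 1)) * n := Nat.mul_le_mul_right _ P4
    have e2 : (h + 1) * n = h * n + n := by ring
    have e3 : (2 * (γ * n) + 3) * (M + 1) = 2 * ((γ * (M + 1)) * n) + 3 * (M + 1) := by ring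
    have e4 : 2 * h * n = 2 * (h * n) := by ring
    rw [e3, e4]
    omega

end

end Pool.Agent.N797.PW
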