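import Pool.Agent.N797.PW.Stm

/-!
# The zero estimate
-/

open Polynomial Pool.Agent.H337R2 Pool.Agent.W165.OZ Pool.Agent.Y926.LZ Pool.Agent.Y926.TW Filter

namespace Pool.Agent.N797.PW

noncomputable section

lemma natDegree_sub_one_pow_le (B : ℕ) : ((X - C (1 : ℚ)) ^ B).natDegree ≤ B := by
  have := Polynomial.natDegree_pow_le (p := (X - C (1 : ℚ))) (n := B)
  rwa [Polynomial.natDegree_X_sub_C, mul_one] at this

lemma natDegree_add_pow_le (a : ℚ) (B : ℕ) : ((X + C a) ^ B).natDegree ≤ B := by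
  have := Polynomial.natDegree_pow_le (p := (X + C a)) (n := B)
  rwa [Polynomial.natDegree_X_add_C, mul_one] at this

lemma PjW_natDegree (n B : ℕ) : (PjW n B).natDegree ≤ 2 * B := by
  unfold PjW
  refine Polynomial.natDegree_mul_le.trans ?_
  have h1 := natDegree_sub_one_pow_le B
  have h2 := natDegree_add_pow_le ((n : ℚ) - 1) B
  omega

lemma PjW_ne_zero (n B : ℕ) : PjW n B ≠ 0 := by
  unfold PjW
  exact mul_ne_zero (pow_ne_zero _ (Polynomial.X_sub_C_ne_zero _))
    (pow_ne_zero _ (Polynomial.X_add_C_ne_zero _))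

lemma etW_natDegree (n B β : ℕ) : (etW n B β).natDegree ≤ 2 * B := by
  unfold etW
  refine (Polynomial.natDegree_add_le _ _).trans (max_le ?_ ?_)
  · refine Polynomial.natDegree_mul_le.trans ?_
    have h1 := natDegree_sub_one_pow_le (B - β - 1)
    have h2 := natDegree_add_pow_le ((n : ℚ) - 1) B
    omega
  · refine Polynomial.natDegree_mul_le.trans ?_
    have h1 := natDegree_sub_one_pow_le B
    have h2 := natDegree_add_pow_le ((n : ℚ) - 1) (B - β - 1)
    omega

lemma LF_smul (h n : ℕ) (c : ℕ → ℕ → ℤ) (E : ℕ → PowerSeries ℚ) :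
    LF h n c (fun k => E k * (1 + 1)) = 2 * LF h n c E := by
  unfold LF
  rw [Finset.mul_sum]
  refine Finset.sum_congr rfl fun k _ => ?_
  rw [Finset.mul_sum]
  refine Finset.sum_congr rfl fun i _ => ?_
  change (c i k : ℚ) * PowerSeries.coeff (i - 1) (E k * (1 + 1)) = _
  rw [mul_add (E k), mul_one, map_add]
  ring

/-- the smallness at infinity for all polynomials -/
lemma LF_all (hSY : S_SY) {h n G : ℕ} {c : ℕ → ℕ → ℤ} (hn : 1 ≤ n) (hAS : AS h n c)
    (hTA : TA h n c G) (f : ℚ[X]) (hf : f.natDegree ≤ 2 * G + 1) :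
    LF h n c (fun k => TS (-(k : ℚ)) f) = 0 := by
  have h1 := hSY h n G c (fun _ => 1) hn hAS (fun l hl => by
    simpa using hTA l hl) f hf
  simp only [map_one] at h1
  rw [LF_smul] at h1
  linarith

/-- **The zero estimate.** -/
theorem t_ze (hSPL : S_SPL) (hSY : S_SY) (hDU : S_DU) (hPD : S_PD) (hDET : S_DET) (hSEMI : S_SEMI)
    (hPOLE : S_POLE) (hRCW : S_RCW) : S_ZE := by
  intro z h ν b M G c hb hh hM hMn hAS hNZ hTA hL hG hineq
  obtain ⟨n, hn⟩ : ∃ n, n = 2 * ν + 1 := ⟨_, rfl⟩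
  rw [← hn] at hMn hAS hNZ hTA hL hG hineq
  have hn1 : 1 ≤ n := by omega
  -- the polynomial `P`
  obtain ⟨hP0, hPd⟩ := hPD h n c hn1 hh hNZ
  have hPdeg := hPd (2 * G + 1) (by omega) (fun f hf => LF_all hSY hn1 hAS hTA f hf)
  -- the polynomials `A`
  have hA : ∀ j : Fin M, ∃ A : ℚ[X], A.natDegree + (2 * G + 1) + 2 ≤ n * (2 * h) ∧
      ∀ k < n, (PowerSeries.X : PowerSeries ℚ) ^ (2 * h) ∣
        TS (-(k : ℚ)) (PF h n c) * bs z n h (b + 2 * j) 1 k - TS (-(k : ℚ)) A := by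
    intro j
    apply hDU h n (2 * G + 1) c (fun k => bs z n h (b + 2 * j) 1 k) hn1 hh (by omega)
    intro f hf
    have h1 := hSY h n G c (fun k => bt z h (b + 2 * j) 1 k) hn1 hAS (fun l hl => by
      rw [← hSPL z h n c (gq n l) (b + 2 * j)]
      exact hL j j.2 l hl) f hf
    exact h1
  choose A hA1 hA2 using hA
  -- the determinant
  have hdet := hDET M n (2 * h) (2 * (b + 2 * M)) (n * (2 * h) - (2 * G + 3)) (PF h n c)
    (PjW n (b + 2 * M)) A (fun l : Fin M => etW n (b + 2 * M) (b + 2 * l))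
    (fun k l => bs z n h (b + 2 * l) 1 k) hMn (by omega) (fun l => by have := hA1 l; omega)
    (PjW_natDegree _ _) (fun l => etW_natDegree _ _ _) (fun k hk l => hA2 l k hk)
    (fun k hk l => hRCW z n h b M l k hb hh l.2 hk) (by
      obtain ⟨r, hr⟩ : ∃ r, n = M + r := ⟨n - M, by omega⟩
      obtain ⟨D, hD⟩ : ∃ D, n * (2 * h) = D + (2 * G + 3) := ⟨n * (2 * h) - (2 * G + 3), by omega⟩
      have e1 : n * (2 * h) - (2 * G + 3) = D := by omega
      have e2 : n - M = r := by omega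
      rw [e1, e2]
      have e3 : 2 * h * M * n = 2 * h * M * r + 2 * h * M ^ 2 := by rw [hr]; ring
      have e4 : 2 * h * M * n = M * (D + (2 * G + 3)) := by rw [← hD]; ring
      have e5 : 2 * h * n = D + (2 * G + 3) := by rw [← hD]; ring
      have e6 : (M + 1) * D + 2 * (b + 2 * M) * (M * (M + 1)) + 2 * h * M ^ 2 <
          2 * h * M * r + 2 * h * M ^ 2 := by
        rw [← e3, e4]
        have e7 : M * (D + (2 * G + 3)) + (D + (2 * G + 3)) = (M + 1) * D + (2 * G + 3) * (M + 1) := by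
          ring
        have e8 : D + (2 * G + 3) + 2 * (b + 2 * M) * (M * (M + 1)) + 2 * h * M ^ 2 <
          (2 * G + 3) * (M + 1) := by rw [← e5]; exact hineq
        omega
      omega)
  obtain ⟨κ, u, v, hκ, hv, huv⟩ := hSEMI M (PF h n c) (PjW n (b + 2 * M)) A
    (fun l : Fin M => etW n (b + 2 * M) (b + 2 * l)) hP0 (PjW_ne_zero _ _) hdet
  exact hκ (hPOLE n b M κ u v hn1 hv huv)

end

end Pool.Agent.N797.PW
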