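import Pool.Agent.N797.PW.Core
import Pool.Agent.N797.PW.ZE
import Pool.Agent.R355.Dirichlet

/-!
# The windows: the measure, linear independence over number fields
-/

set_option autoImplicit false

open Pool.Agent.H337R2 Module

namespace Pool.Agent.N797.PW

/-- the hypothesis on the window -/
def Wn (b S s : ℕ) : Prop :=
  2 ^ 41 * (S ^ 2 * (Nat.log 2 S + 1) * (b + S ^ 2 * (Nat.log 2 S + 1) ^ 2)) ≤ s

/-- the conclusion: the measure -/
def Ms (b S s : ℕ) : Prop :=
  ∃ q0 : ℕ, ∀ q ≥ q0, ∃ j, b < j ∧ j ≤ s ∧ Odd j ∧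
    ∀ p : ℤ, (q : ℝ) ^ (-(1 / (S : ℝ))) ≤ |(q : ℝ) * zr j - p|

/-- all windows, from the core -/
theorem meas_of_core (hcore : ∀ b S : ℕ, Even b → 2 ≤ b → 1 ≤ S → ∃ q0 : ℕ, ∀ q ≥ q0, ∃ j, Odd j ∧ b < j ∧
      j ≤ 2 * pH b S + pB b S ∧ ∀ p : ℤ, (q : ℝ) ^ (-(1 / (S : ℝ))) ≤ |(q : ℝ) * zr j - p|)
    {b S s : ℕ} (hS : 1 ≤ S) (hs : Wn b S s) : Ms b S s := by
  obtain ⟨b', hb'⟩ : ∃ b', b' = 2 * (b / 2) + 2 := ⟨_, rfl⟩
  have hbe : Even b' := by
    rw [hb']
    exact (even_two_mul _).add even_two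
  obtain ⟨q0, hq0⟩ := hcore b' S hbe (by omega) hS
  refine ⟨q0, fun q hq => ?_⟩
  obtain ⟨j, h1, h2, h3, h4⟩ := hq0 q hq
  refine ⟨j, by omega, h3.trans ?_, h1, h4⟩
  refine (win_le b' S hS).trans (le_trans ?_ hs)
  have hL := one_le_pL S
  have hLe : Nat.log 2 S + 1 = pL S := rfl
  rw [hLe]
  have hT : 1 ≤ S ^ 2 * pL S ^ 2 := by
    have : 0 < S ^ 2 * pL S ^ 2 := by positivity
    omega
  have e1 : b' + S ^ 2 * pL S ^ 2 ≤ 4 * (b + S ^ 2 * pL S ^ 2) := by omega
  calc 2 ^ 39 * (S ^ 2 * pL S * (b' + S ^ 2 * pL S ^ 2))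
      ≤ 2 ^ 39 * (S ^ 2 * pL S * (4 * (b + S ^ 2 * pL S ^ 2))) := by gcongr
    _ = 2 ^ 41 * (S ^ 2 * pL S * (b + S ^ 2 * pL S ^ 2)) := by ring

/-- some odd zeta value of the window is not in a given rational space of small dimension -/
lemma outside_of_Ms {b S s : ℕ} (hM : Ms b S s) (W : Submodule ℚ ℝ) [FiniteDimensional ℚ W]
    (h1 : (1 : ℝ) ∈ W) (hW : finrank ℚ W ≤ S) : ∃ j, b < j ∧ j ≤ s ∧ Odd j ∧ zr j ∉ W := by
  obtain ⟨q0, hq0⟩ := hM
  obtain ⟨q, hqq, hq1, hq⟩ := Pool.Agent.R355.approx_of_mem W h1 hW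
    (fun j : Fin (s + 1) => zr (j : ℕ)) q0
  obtain ⟨j, g1, g2, g3, g4⟩ := hq0 q hqq
  refine ⟨j, g1, g2, g3, fun hmem => ?_⟩
  obtain ⟨p, hp⟩ := hq ⟨j, by omega⟩ hmem
  exact absurd hp (not_lt.2 (g4 p))

/-- the dimension -/
theorem dim_of_Ms {b S s : ℕ} (hM : Ms b S s) :
    S + 1 ≤ finrank ℚ (Submodule.span ℚ
      ({x : ℝ | x = 1 ∨ ∃ j, b < j ∧ j ≤ s ∧ Odd j ∧ x = zr j} : Set ℝ)) := by
  have hfin : ({x : ℝ | x = 1 ∨ ∃ j, b < j ∧ j ≤ s ∧ Odd j ∧ x = zr j} : Set ℝ).Finite := by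
    have h1 : ({x : ℝ | x = 1 ∨ ∃ j, b < j ∧ j ≤ s ∧ Odd j ∧ x = zr j} : Set ℝ) ⊆
        {1} ∪ zr '' (Set.Iic s) := by
      rintro x (rfl | ⟨j, _, h2, _, rfl⟩)
      · exact Or.inl rfl
      · exact Or.inr ⟨j, h2, rfl⟩
    exact ((Set.finite_singleton _).union ((Set.finite_Iic s).image _)).subset h1
  have : FiniteDimensional ℚ (Submodule.span ℚ
      ({x : ℝ | x = 1 ∨ ∃ j, b < j ∧ j ≤ s ∧ Odd j ∧ x = zr j} : Set ℝ)) :=
    FiniteDimensional.span_of_finite ℚ hfin
  by_contra hc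
  obtain ⟨j, g1, g2, g3, g4⟩ := outside_of_Ms hM (Submodule.span ℚ
      ({x : ℝ | x = 1 ∨ ∃ j, b < j ∧ j ≤ s ∧ Odd j ∧ x = zr j} : Set ℝ))
    (Submodule.subset_span (Or.inl rfl)) (by omega)
  exact g4 (Submodule.subset_span (Or.inr ⟨j, g1, g2, g3, rfl⟩))

/-- linear independence over number fields, modulo vector spaces -/
theorem indep_of_Ms {b s d v m : ℕ} (hd : 1 ≤ d) (hM : Ms b (d * (v + m)) s)
    (F : IntermediateField ℚ ℝ) [FiniteDimensional ℚ F] (hF : finrank ℚ F ≤ d)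
    (V : Submodule F ℝ) [Module.Finite F V] (hV : finrank F V ≤ v) :
    ∃ J : Finset ℕ, J.card = m ∧ (∀ j ∈ J, b < j ∧ j ≤ s ∧ Odd j) ∧
      LinearIndependent F (fun j : J => V.mkQ (zr (j : ℕ))) := by
  classical
  have key : ∀ a : ℕ, a ≤ m → ∃ J : Finset ℕ, J.card = a ∧ (∀ j ∈ J, b < j ∧ j ≤ s ∧ Odd j) ∧
      LinearIndepOn F (fun j => V.mkQ (zr j)) (J : Set ℕ) := by
    intro a
    induction a with
    | zero => intro _; exact ⟨∅, by simp, by simp, by simp⟩
    | succ a ih =>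
      intro ha
      obtain ⟨J, hJc, hJE, hJi⟩ := ih (by omega)
      have hfin : Module.Finite F (Submodule.span F (zr '' (J : Set ℕ))) :=
        FiniteDimensional.span_of_finite F (J.finite_toSet.image zr)
      have h1 : finrank F (Submodule.span F (zr '' (J : Set ℕ))) ≤ a := by
        have := finrank_span_finset_le_card (R := F) (J.image zr)
        rw [Finset.coe_image] at this
        exact this.trans (Finset.card_image_le.trans hJc.le)
      obtain ⟨U, hU⟩ : ∃ U : Submodule F ℝ, U = V ⊔ Submodule.span F (zr '' (J : Set ℕ)) := ⟨_, rfl⟩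
      have hUfin : Module.Finite F U := by rw [hU]; infer_instance
      have h2 : finrank F U ≤ v + a := by
        have := Submodule.finrank_add_le_finrank_add_finrank V (Submodule.span F (zr '' (J : Set ℕ)))
        rw [hU]
        omega
      have hST : IsScalarTower ℚ F (U.restrictScalars ℚ) :=
        ⟨fun a c x => Subtype.ext (smul_assoc a c (x : ℝ))⟩
      have hUF : Module.Finite F (U.restrictScalars ℚ) := hUfin
      have hUQ : FiniteDimensional ℚ (U.restrictScalars ℚ) := Module.Finite.trans F (U.restrictScalars ℚ)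
      have h3 : finrank ℚ (U.restrictScalars ℚ) ≤ d * (v + a) := by
        have e : finrank ℚ (U.restrictScalars ℚ) = finrank ℚ F * finrank F U :=
          (Module.finrank_mul_finrank ℚ F (U.restrictScalars ℚ)).symm
        rw [e]
        exact Nat.mul_le_mul hF h2
      have h4 : finrank ℚ (U.restrictScalars ℚ ⊔ Submodule.span ℚ {(1 : ℝ)} : Submodule ℚ ℝ) ≤
          d * (v + m) := by
        have h5 := Submodule.finrank_add_le_finrank_add_finrank (U.restrictScalars ℚ)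
          (Submodule.span ℚ {(1 : ℝ)})
        have h6 : finrank ℚ (Submodule.span ℚ {(1 : ℝ)}) ≤ 1 :=
          finrank_span_le_card {(1 : ℝ)} |>.trans (by simp)
        have h7 : d * (v + a) + d ≤ d * (v + m) := by
          calc d * (v + a) + d = d * (v + a + 1) := by ring
            _ ≤ d * (v + m) := Nat.mul_le_mul_left _ (by omega)
        omega
      obtain ⟨j, g1, g2, g3, g4⟩ := outside_of_Ms hM
        (U.restrictScalars ℚ ⊔ Submodule.span ℚ {(1 : ℝ)})
        (Submodule.mem_sup_right (Submodule.mem_span_singleton_self _)) h4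
      have hjU : zr j ∉ U := fun hmem => g4 (Submodule.mem_sup_left hmem)
      have hjJ : j ∉ J := by
        intro hj
        apply hjU
        rw [hU]
        exact Submodule.mem_sup_right (Submodule.subset_span ⟨j, hj, rfl⟩)
      refine ⟨insert j J, ?_, ?_, ?_⟩
      · rw [Finset.card_insert_of_notMem hjJ, hJc]
      · intro i hi
        rcases Finset.mem_insert.1 hi with rfl | hi
        · exact ⟨g1, g2, g3⟩
        · exact hJE i hi
      · rw [Finset.coe_insert]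
        refine hJi.insert ?_
        intro hmem
        apply hjU
        have e1 : (fun j => V.mkQ (zr j)) '' (J : Set ℕ) = V.mkQ '' (zr '' (J : Set ℕ)) := by
          rw [Set.image_image]
        rw [e1, ← Submodule.map_span] at hmem
        have h3 : zr j ∈ Submodule.comap V.mkQ
          (Submodule.map V.mkQ (Submodule.span F (zr '' (J : Set ℕ)))) := hmem
        rw [Submodule.comap_map_mkQ] at h3
        rwa [hU]
  obtain ⟨J, h1, h2, h3⟩ := key m le_rfl
  exact ⟨J, h1, h2, h3⟩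

end Pool.Agent.N797.PW
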