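import Pool.Agent.N797.PW.Main

/-!
# The final form
-/

set_option autoImplicit false

open Pool.Agent.H337R2 Module

namespace Pool.Agent.N797.PW

lemma Ms_mono {b S S' s : ℕ} (hS' : 1 ≤ S') (h : S' ≤ S) (hM : Ms b S s) : Ms b S' s := by
  obtain ⟨q0, hq0⟩ := hM
  refine ⟨max q0 1, fun q hq => ?_⟩
  obtain ⟨j, h1, h2, h3, h4⟩ := hq0 q ((le_max_left _ _).trans hq)
  have hq1 : 1 ≤ q := (le_max_right _ _).trans hq
  refine ⟨j, h1, h2, h3, fun p => le_trans ?_ (h4 p)⟩
  apply Real.rpow_le_rpow_of_exponent_le (by exact_mod_cast hq1)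
  apply neg_le_neg
  exact one_div_le_one_div_of_le (by exact_mod_cast hS') (by exact_mod_cast h)

/-- linear independence over number fields, modulo vector spaces -/
theorem indep {b S s d v m : ℕ} (hM : Ms b S s) (hd : 1 ≤ d) (hdS : d * (v + m) ≤ S)
    (F : IntermediateField ℚ ℝ) [FiniteDimensional ℚ F] (hF : finrank ℚ F ≤ d)
    (V : Submodule F ℝ) [Module.Finite F V] (hV : finrank F V ≤ v) :
    ∃ J : Finset ℕ, J.card = m ∧ (∀ j ∈ J, b < j ∧ j ≤ s ∧ Odd j) ∧
      LinearIndependent F (fun j : J => V.mkQ (zr (j : ℕ))) := by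
  rcases Nat.eq_zero_or_pos (v + m) with h0 | h0
  · have hm : m = 0 := by omega
    subst hm
    exact ⟨∅, rfl, by simp, linearIndependent_empty_type⟩
  · exact indep_of_Ms hd (Ms_mono (Nat.mul_pos hd h0) hdS hM) F hF V hV

end Pool.Agent.N797.PW
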