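import Pool.Agent.N797.PW.Stm
import Pool.Agent.Y926.TW.J_ZE

/-!
# PW/DET: the determinant of the zero estimate vanishes (helper402)
-/

open Polynomial Pool.Agent.H337R2 Pool.Agent.W165.OZ Pool.Agent.Y926.LZ Pool.Agent.Y926.TW

namespace Pool.Agent.N797.PW

noncomputable section

namespace DET

open Pool.Agent.Y926.TW.ZE

variable {m : ℕ} {n T d D : ℕ} {P Pj : ℚ[X]} {A η : Fin m → ℚ[X]}

theorem rw1_zero (P Pj : ℚ[X]) (A η : Fin m → ℚ[X]) (i : ℕ) :
    rw1 P Pj A η i 0 = (∏ j ∈ Finset.range i, sh j Pj) * sh i P := by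
  unfold rw1
  rw [Fin.cons_zero]

theorem rw1_succ (P Pj : ℚ[X]) (A η : Fin m → ℚ[X]) (i : ℕ) (l : Fin m) :
    rw1 P Pj A η i l.succ = (∏ j ∈ Finset.range i, sh j Pj) * sh i (A l) -
      sh i P * ∑ j ∈ Finset.range i, (∏ j' ∈ (Finset.range i).erase j, sh j' Pj) * sh j (η l) := by
  unfold rw1
  rw [Fin.cons_succ]

theorem TSsh (k j : ℕ) (p : ℚ[X]) : TS (-(k : ℚ)) (sh j p) = TS (-((k + j : ℕ) : ℚ)) p := by
  rw [TS_sh, ← neg_add', ← Nat.cast_add]

/-- the telescoping congruence -/
theorem tel {β : ℕ → Fin m → PowerSeries ℚ}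
    (h2 : ∀ k, k + 1 < n → ∀ l, (PowerSeries.X : PowerSeries ℚ) ^ T ∣
      TS (-(k : ℚ)) Pj * (β (k + 1) l - β k l) - TS (-(k : ℚ)) (η l))
    (k : ℕ) (l : Fin m) (i : ℕ) (hi : k + i < n) :
    (PowerSeries.X : PowerSeries ℚ) ^ T ∣
      TS (-(k : ℚ)) (∏ j ∈ Finset.range i, sh j Pj) * (β (k + i) l - β k l) -
        TS (-(k : ℚ)) (∑ j ∈ Finset.range i,
          (∏ j' ∈ (Finset.range i).erase j, sh j' Pj) * sh j (η l)) := by
  induction i with
  | zero => simp
  | succ i ih =>
    have ih' := ih (by omega)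
    have h3 := h2 (k + i) (by omega) l
    have e1 : ∏ j ∈ Finset.range (i + 1), sh j Pj =
        (∏ j ∈ Finset.range i, sh j Pj) * sh i Pj := Finset.prod_range_succ _ _
    have e2 : ∑ j ∈ Finset.range (i + 1),
        (∏ j' ∈ (Finset.range (i + 1)).erase j, sh j' Pj) * sh j (η l) =
        (∑ j ∈ Finset.range i, (∏ j' ∈ (Finset.range i).erase j, sh j' Pj) * sh j (η l)) *
          sh i Pj + (∏ j ∈ Finset.range i, sh j Pj) * sh i (η l) := by
      have e3 : ∀ j ∈ Finset.range i,
          (∏ j' ∈ (Finset.range (i + 1)).erase j, sh j' Pj) * sh j (η l) =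
          (∏ j' ∈ (Finset.range i).erase j, sh j' Pj) * sh j (η l) * sh i Pj := by
        intro j hj
        have hji : j < i := Finset.mem_range.1 hj
        have e4 : (Finset.range (i + 1)).erase j = insert i ((Finset.range i).erase j) := by
          ext x
          simp only [Finset.mem_erase, Finset.mem_range, Finset.mem_insert]
          omega
        have e5 : i ∉ (Finset.range i).erase j := by simp
        rw [e4, Finset.prod_insert e5]
        ring
      have e6 : (Finset.range (i + 1)).erase i = Finset.range i := by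
        ext x
        simp only [Finset.mem_erase, Finset.mem_range]
        omega
      rw [Finset.sum_range_succ, Finset.sum_congr rfl e3, ← Finset.sum_mul, e6]
    rw [e1, e2, map_mul, map_add, map_mul, map_mul, TSsh, TSsh]
    set U0 := TS (-(k : ℚ)) (∏ j ∈ Finset.range i, sh j Pj) with hU
    set V0 := TS (-(k : ℚ)) (∑ j ∈ Finset.range i,
      (∏ j' ∈ (Finset.range i).erase j, sh j' Pj) * sh j (η l)) with hV
    have e4 : U0 * TS (-((k + i : ℕ) : ℚ)) Pj * (β (k + (i + 1)) l - β k l) -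
        (V0 * TS (-((k + i : ℕ) : ℚ)) Pj + U0 * TS (-((k + i : ℕ) : ℚ)) (η l)) =
        TS (-((k + i : ℕ) : ℚ)) Pj * (U0 * (β (k + i) l - β k l) - V0) +
        U0 * (TS (-((k + i : ℕ) : ℚ)) Pj * (β (k + i + 1) l - β (k + i) l) -
          TS (-((k + i : ℕ) : ℚ)) (η l)) := by
      rw [← add_assoc k i 1]
      ring
    rw [e4]
    exact dvd_add (Dvd.dvd.mul_left ih' _) (Dvd.dvd.mul_left h3 _)

/-- the entries after the column operation are divisible by `X^T` -/
theorem ent {β : ℕ → Fin m → PowerSeries ℚ}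
    (h1 : ∀ k < n, ∀ l, (PowerSeries.X : PowerSeries ℚ) ^ T ∣
      TS (-(k : ℚ)) P * β k l - TS (-(k : ℚ)) (A l))
    (h2 : ∀ k, k + 1 < n → ∀ l, (PowerSeries.X : PowerSeries ℚ) ^ T ∣
      TS (-(k : ℚ)) Pj * (β (k + 1) l - β k l) - TS (-(k : ℚ)) (η l))
    (k : ℕ) (l : Fin m) (i : ℕ) (hi : k + i < n) :
    (PowerSeries.X : PowerSeries ℚ) ^ T ∣
      TS (-(k : ℚ)) (rw1 P Pj A η i l.succ) - β k l * TS (-(k : ℚ)) (rw1 P Pj A η i 0) := by
  have h3 := tel h2 k l i hi
  have h4 := h1 (k + i) hi l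
  rw [rw1_zero, rw1_succ, map_sub, map_mul, map_mul, map_mul, TSsh, TSsh]
  set U0 := TS (-(k : ℚ)) (∏ j ∈ Finset.range i, sh j Pj) with hU
  set V0 := TS (-(k : ℚ)) (∑ j ∈ Finset.range i,
    (∏ j' ∈ (Finset.range i).erase j, sh j' Pj) * sh j (η l)) with hV
  have e4 : U0 * TS (-((k + i : ℕ) : ℚ)) (A l) - TS (-((k + i : ℕ) : ℚ)) P * V0 -
      β k l * (U0 * TS (-((k + i : ℕ) : ℚ)) P) =
      TS (-((k + i : ℕ) : ℚ)) P * (U0 * (β (k + i) l - β k l) - V0) -
      U0 * (TS (-((k + i : ℕ) : ℚ)) P * β (k + i) l - TS (-((k + i : ℕ) : ℚ)) (A l)) := by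
    ring
  rw [e4]
  exact dvd_sub (Dvd.dvd.mul_left h3 _) (Dvd.dvd.mul_left h4 _)

/-- column operations: a matrix whose columns are, up to multiples of the first one, divisible by `z` -/
theorem det_dvd {R : Type} [CommRing R] {m : ℕ} (M : Matrix (Fin (m + 1)) (Fin (m + 1)) R)
    (b : Fin m → R) (z : R) (h : ∀ i l, z ∣ M i l.succ - b l * M i 0) : z ^ m ∣ M.det := by
  choose N hN using h
  set B : Matrix (Fin (m + 1)) (Fin (m + 1)) R :=
    Matrix.of fun i j => Fin.cons (α := fun _ => R) (M j 0) (fun l : Fin m => z * N j l) i with hB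
  have h1 : M.transpose.det = B.det := by
    refine Matrix.det_eq_of_forall_row_eq_smul_add_const
      (Fin.cons (α := fun _ => R) 0 b) 0 (Fin.cons_zero _ _) ?_
    intro i j
    refine Fin.cases ?_ (fun l => ?_) i
    · simp [hB]
    · simp only [Matrix.transpose_apply, hB, Matrix.of_apply, Fin.cons_succ, Fin.cons_zero]
      rw [← hN j l]
      ring
  set C' : Matrix (Fin (m + 1)) (Fin (m + 1)) R :=
    Matrix.of fun i j => Fin.cons (α := fun _ => R) (M j 0) (fun l : Fin m => N j l) i with hC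
  have h2 : B = Matrix.of fun i j => (Fin.cons (α := fun _ => R) 1 (fun _ : Fin m => z)) i * C' i j := by
    ext i j
    refine Fin.cases ?_ (fun l => ?_) i
    · simp [hB, hC]
    · simp [hB, hC]
  rw [← Matrix.det_transpose, h1, h2, Matrix.det_mul_column, Fin.prod_univ_succ]
  simp only [Fin.cons_zero, Fin.cons_succ, Finset.prod_const, Finset.card_univ, Fintype.card_fin,
    one_mul]
  exact dvd_mul_right _ _

theorem natDegree_prod_sh (hPj : Pj.natDegree ≤ d) (s : Finset ℕ) :
    (∏ j ∈ s, sh j Pj).natDegree ≤ s.card * d := by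
  refine (natDegree_prod_le _ _).trans ?_
  refine (Finset.sum_le_card_nsmul _ _ d fun i' _ => ?_).trans ?_
  · rw [natDegree_sh]; exact hPj
  · rw [smul_eq_mul]

theorem natDegree_rw1 (hP : P.natDegree ≤ D) (hA : ∀ l, (A l).natDegree ≤ D)
    (hPj : Pj.natDegree ≤ d) (hη : ∀ l, (η l).natDegree ≤ d) (i : ℕ) (c : Fin (m + 1)) :
    (rw1 P Pj A η i c).natDegree ≤ D + i * d := by
  have h0 := natDegree_prod_sh (Pj := Pj) hPj (Finset.range i)
  rw [Finset.card_range] at h0
  refine Fin.cases ?_ (fun l => ?_) c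
  · rw [rw1_zero]
    refine natDegree_mul_le.trans ?_
    rw [natDegree_sh]
    omega
  · rw [rw1_succ]
    refine (natDegree_sub_le _ _).trans (max_le ?_ ?_)
    · refine natDegree_mul_le.trans ?_
      rw [natDegree_sh]
      have := hA l
      omega
    · refine natDegree_mul_le.trans ?_
      rw [natDegree_sh]
      have h3 : (∑ j ∈ Finset.range i,
          (∏ j' ∈ (Finset.range i).erase j, sh j' Pj) * sh j (η l)).natDegree ≤ i * d := by
        refine natDegree_sum_le_of_forall_le _ _ fun j hj => ?_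
        refine natDegree_mul_le.trans ?_
        rw [natDegree_sh]
        have h4 := natDegree_prod_sh (Pj := Pj) hPj ((Finset.range i).erase j)
        rw [Finset.card_erase_of_mem hj, Finset.card_range] at h4
        have h5 := hη l
        have h6 : 0 < i := lt_of_le_of_lt (Nat.zero_le j) (Finset.mem_range.1 hj)
        obtain ⟨i', rfl⟩ : ∃ i', i = i' + 1 := ⟨i - 1, by omega⟩
        rw [Nat.add_sub_cancel] at h4
        rw [Nat.add_mul, one_mul]
        omega
      omega

end DET

open DET Pool.Agent.Y926.TW.ZE in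
/-- **DET** -/
theorem t_det : S_DET := by
  intro m n T d D P Pj A η β hmn hP hA hPj hη h1 h2 h3
  by_contra hne
  set M : Matrix (Fin (m + 1)) (Fin (m + 1)) ℚ[X] :=
    Matrix.of fun i : Fin (m + 1) => rw1 P Pj A η i with hM
  -- zeros at the nodes
  have hz : ∀ k : ℕ, k + m < n → (X - C (-(k : ℚ))) ^ (T * m) ∣ M.det := by
    intro k hk
    apply dvd_of_TS
    rw [RingHom.map_det, pow_mul]
    refine det_dvd _ (β k) _ ?_
    intro i l
    have hi : k + (i : ℕ) < n := by have := i.2; omega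
    exact ent h1 h2 k l i hi
  have hcop : ∀ (x y : ℚ) (i j : ℕ), x ≠ y →
      IsCoprime ((X - C x) ^ i) ((X - C y) ^ j) := by
    intro x y i j hxy
    exact IsCoprime.pow (Polynomial.isCoprime_X_sub_C_of_isUnit_sub
      (isUnit_iff_ne_zero.2 (sub_ne_zero.2 hxy)))
  have d1 : ∏ k ∈ Finset.range (n - m), (X - C (-(k : ℚ))) ^ (T * m) ∣ M.det := by
    refine Finset.prod_dvd_of_coprime ?_ ?_
    · intro i _ j _ hij
      refine hcop _ _ _ _ ?_
      intro h
      exact hij (by exact_mod_cast neg_injective h)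
    · intro k hk
      exact hz k (by have := Finset.mem_range.1 hk; omega)
  have d5 := natDegree_le_of_dvd d1 hne
  rw [natDegree_prod_of_monic _ _ (fun k _ => (monic_X_sub_C _).pow (T * m))] at d5
  simp only [natDegree_pow, natDegree_X_sub_C, mul_one, Finset.sum_const, Finset.card_range,
    smul_eq_mul] at d5
  have d6 : M.det.natDegree ≤ (m + 1) * (D + m * d) := by
    rw [Matrix.det_apply]
    refine natDegree_sum_le_of_forall_le _ _ fun σ _ => ?_
    refine (natDegree_smul_le _ _).trans ?_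
    refine (natDegree_prod_le _ _).trans ?_
    refine (Finset.sum_le_card_nsmul _ _ (D + m * d) fun i _ => ?_).trans ?_
    · refine (natDegree_rw1 hP hA hPj hη _ _).trans ?_
      have : ((σ i : Fin (m + 1)) : ℕ) ≤ m := by have := (σ i).2; omega
      gcongr
    · rw [Finset.card_univ, Fintype.card_fin, smul_eq_mul]
  have d7 : (m + 1) * (D + m * d) = (m + 1) * D + d * (m * (m + 1)) := by ring
  have d8 : (n - m) * (T * m) = T * m * (n - m) := mul_comm _ _
  omega

end

end Pool.Agent.N797.PW
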