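import Pool.Agent.N797.PW.Stm
import Pool.Agent.Y926.TW.J_SYM

/-!
# `DIF`: the difference of the two forms
-/

set_option autoImplicit false

open Polynomial Pool.Agent.H337R2 Pool.Agent.W165.OZ Pool.Agent.Y926.LZ Pool.Agent.Y926.TW

namespace Pool.Agent.N797.PW

noncomputable section

namespace DIFF

open Pool.Agent.Y926.TW.SYM

theorem gq_io (n l : ℕ) : (gq n l).comp (io n) = gq n l := by
  unfold gq
  rw [Polynomial.comp_assoc, yp_comp]

theorem TS_gq {n l k : ℕ} (hk : k < n) :
    TS (-((n - 1 - k : ℕ) : ℚ)) (gq n l) = sg (TS (-(k : ℚ)) (gq n l)) := by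
  have h := TS_io hk (gq n l)
  rw [gq_io] at h
  rw [h, sg_sg]

/-- the coefficients of even index vanish -/
theorem rh_even {h n l i : ℕ} {c : ℕ → ℕ → ℤ} (hA : AS h n c) (hi : Even i) (hi1 : 1 ≤ i) :
    rh h n c (gq n l) i = 0 := by
  set T : ℕ → ℚ := fun k => ∑ j ∈ Finset.Icc 1 (2 * h), (c j k : ℚ) *
    PowerSeries.coeff (j - 1) (PowerSeries.X ^ (i - 1) * TS (-(k : ℚ)) (gq n l)) with hT
  have e0 : rh h n c (gq n l) i = ∑ k ∈ Finset.range n, T k := rfl
  have key : ∑ k ∈ Finset.range n, T k = - ∑ k ∈ Finset.range n, T k := by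
    conv_lhs => rw [← Finset.sum_range_reflect T n]
    rw [← Finset.sum_neg_distrib]
    refine Finset.sum_congr rfl fun k hk => ?_
    rw [Finset.mem_range] at hk
    rw [hT]
    beta_reduce
    rw [← Finset.sum_neg_distrib]
    refine Finset.sum_congr rfl fun j hj => ?_
    rw [Finset.mem_Icc] at hj
    rw [hA k hk j hj.1 hj.2, TS_gq hk, PowerSeries.coeff_X_pow_mul', PowerSeries.coeff_X_pow_mul']
    split_ifs with h1
    · rw [PowerSeries.coeff_rescale]
      have e2 : j + 1 = (j - 1 - (i - 1)) + (i + 1) := by omega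
      have h2 : Odd (i + 1) := hi.add_one
      have h3 : ((-1 : ℤ) ^ (j + 1)) = - (-1) ^ (j - 1 - (i - 1)) := by
        rw [e2, pow_add, h2.neg_one_pow]
        ring
      have h4 : ((-1 : ℚ) ^ (j - 1 - (i - 1))) * (-1) ^ (j - 1 - (i - 1)) = 1 := by
        rw [← mul_pow]
        norm_num
      rw [h3]
      push_cast
      linear_combination (-(c j k : ℚ) * PowerSeries.coeff (j - 1 - (i - 1))
        (TS (-(k : ℚ)) (gq n l))) * h4
    · simp
  rw [e0]
  linarith

/-- the size of the coefficients -/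
theorem rh_le (h1 : S_JB) {h n l i H : ℕ} {c : ℕ → ℕ → ℤ} (hn : 1 ≤ n)
    (hc : ∀ i k, |c i k| ≤ (H : ℤ)) (hi : 1 ≤ i) :
    |rh h n c (gq n l) i| ≤ H * n * 8 ^ (l + n) := by
  unfold rh LF
  refine (Finset.abs_sum_le_sum_abs _ _).trans ?_
  have h2 : ∀ k ∈ Finset.range n, |∑ j ∈ Finset.Icc 1 (2 * h), (c j k : ℚ) *
      PowerSeries.coeff (j - 1) (PowerSeries.X ^ (i - 1) * TS (-(k : ℚ)) (gq n l))| ≤
      H * 8 ^ (l + n) := by
    intro k hk
    rw [Finset.mem_range] at hk
    refine (Finset.abs_sum_le_sum_abs _ _).trans ?_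
    have h3 : ∀ j ∈ Finset.Icc 1 (2 * h), |(c j k : ℚ) *
        PowerSeries.coeff (j - 1) (PowerSeries.X ^ (i - 1) * TS (-(k : ℚ)) (gq n l))| ≤
        H * |PowerSeries.coeff (j - 1) (PowerSeries.X ^ (i - 1) * TS (-(k : ℚ)) (gq n l))| := by
      intro j _
      rw [abs_mul]
      refine mul_le_mul_of_nonneg_right ?_ (abs_nonneg _)
      have := hc j k
      exact_mod_cast this
    refine (Finset.sum_le_sum h3).trans ?_
    rw [← Finset.mul_sum]
    refine mul_le_mul_of_nonneg_left ?_ (Nat.cast_nonneg _)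
    refine le_trans ?_ (h1 n l k (2 * h) hn hk)
    -- reindexing
    have h4 : ∑ j ∈ Finset.Icc 1 (2 * h),
        |PowerSeries.coeff (j - 1) (PowerSeries.X ^ (i - 1) * TS (-(k : ℚ)) (gq n l))| =
        ∑ j ∈ Finset.range (2 * h),
          |PowerSeries.coeff j (PowerSeries.X ^ (i - 1) * TS (-(k : ℚ)) (gq n l))| := by
      refine Finset.sum_nbij' (fun j => j - 1) (fun j => j + 1) ?_ ?_ ?_ ?_ ?_
      · intro j hj
        rw [Finset.mem_Icc] at hj
        rw [Finset.mem_range]
        omega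
      · intro j hj
        rw [Finset.mem_range] at hj
        rw [Finset.mem_Icc]
        omega
      · intro j hj
        rw [Finset.mem_Icc] at hj
        omega
      · intro j _
        omega
      · intro j _
        rfl
    rw [h4]
    have h5 : ∀ j, |PowerSeries.coeff j (PowerSeries.X ^ (i - 1) * TS (-(k : ℚ)) (gq n l))| =
        if i - 1 ≤ j then |PowerSeries.coeff (j - (i - 1)) (TS (-(k : ℚ)) (gq n l))| else 0 := by
      intro j
      rw [PowerSeries.coeff_X_pow_mul']
      split_ifs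
      · rfl
      · exact abs_zero
    simp only [h5]
    rw [← Finset.sum_filter]
    refine le_trans (le_of_eq (Finset.sum_nbij' (t := Finset.range (2 * h - (i - 1)))
      (g := fun j => |PowerSeries.coeff j (TS (-(k : ℚ)) (gq n l))|)
      (fun j => j - (i - 1)) (fun j => j + (i - 1)) ?_ ?_ ?_ ?_ ?_)) ?_
    · intro j hj
      rw [Finset.mem_filter, Finset.mem_range] at hj
      rw [Finset.mem_range]
      omega
    · intro j hj
      rw [Finset.mem_range] at hj
      rw [Finset.mem_filter, Finset.mem_range]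
      omega
    · intro j hj
      rw [Finset.mem_filter, Finset.mem_range] at hj
      omega
    · intro j _
      omega
    · intro j _
      rfl
    · exact Finset.sum_le_sum_of_subset_of_nonneg (Finset.range_mono (Nat.sub_le _ _))
        fun _ _ _ => abs_nonneg _
  refine (Finset.sum_le_sum h2).trans (le_of_eq ?_)
  rw [Finset.sum_const, Finset.card_range, nsmul_eq_mul]
  ring

theorem Cb_le {β i m : ℕ} (hi : 1 ≤ i) (him : i ≤ m) : |Cb β i| ≤ 2 ^ (m + β) := by
  unfold Cb
  rw [abs_of_nonneg (Nat.cast_nonneg _)]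
  have h1 : (i - 1 + β).choose (i - 1) ≤ 2 ^ (i - 1 + β) := Nat.choose_le_two_pow _ _
  have h2 : 2 ^ (i - 1 + β) ≤ 2 ^ (m + β) := Nat.pow_le_pow_right (by norm_num) (by omega)
  exact_mod_cast h1.trans h2

end DIFF

open DIFF in
/-- **DIF.** -/
theorem t_dif (h1 : S_JB) : S_DIF := by
  intro z h ν β l H c δ hβ hδ hA hc hz
  set n := 2 * ν + 1 with hn
  have hn1 : 1 ≤ n := by omega
  set K : ℝ := 2 ^ (2 * h + β) * (H * (2 * (ν : ℝ) + 1) * 8 ^ (l + n)) with hK
  have hK0 : 0 ≤ K := by positivity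
  have e1 : LR h n c (gq n l) β - (Lz z h n c (gq n l) β : ℝ) =
      ∑ i ∈ Finset.Icc 1 (2 * h), ((Cb β i * rh h n c (gq n l) i : ℚ) : ℝ) *
        (zr (i + β) - (z (i + β) : ℝ)) := by
    unfold LR Lz
    push_cast
    rw [sub_sub_sub_cancel_right, ← Finset.sum_sub_distrib]
    refine Finset.sum_congr rfl fun i _ => ?_
    ring
  rw [e1]
  refine (Finset.abs_sum_le_sum_abs _ _).trans ?_
  have h2 : ∀ i ∈ Finset.Icc 1 (2 * h), |((Cb β i * rh h n c (gq n l) i : ℚ) : ℝ) *
      (zr (i + β) - (z (i + β) : ℝ))| ≤ K * δ := by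
    intro i hi
    rw [Finset.mem_Icc] at hi
    rcases Nat.even_or_odd i with he | ho
    · rw [rh_even hA he hi.1, mul_zero, Rat.cast_zero, zero_mul, abs_zero]
      positivity
    · rw [abs_mul]
      have h3 := hz (i + β) (ho.add_even hβ) (by omega) (by omega)
      have h4 : |((Cb β i * rh h n c (gq n l) i : ℚ) : ℝ)| ≤ K := by
        have h5 := Cb_le (β := β) hi.1 hi.2
        have h6 := rh_le h1 (h := h) (l := l) (i := i) hn1 hc hi.1
        have h7 : |Cb β i * rh h n c (gq n l) i| ≤ 2 ^ (2 * h + β) * (H * n * 8 ^ (l + n)) := by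
          rw [abs_mul]
          exact mul_le_mul h5 h6 (abs_nonneg _) (by positivity)
        have h8 : ((|Cb β i * rh h n c (gq n l) i| : ℚ) : ℝ) ≤
            ((2 ^ (2 * h + β) * (H * n * 8 ^ (l + n)) : ℚ) : ℝ) := by exact_mod_cast h7
        rw [← Rat.cast_abs]
        refine h8.trans (le_of_eq ?_)
        rw [hK, hn]
        push_cast
        ring
      exact mul_le_mul h4 h3 (abs_nonneg _) hK0
  refine (Finset.sum_le_sum h2).trans (le_of_eq ?_)
  rw [Finset.sum_const, Nat.card_Icc, nsmul_eq_mul]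
  push_cast
  ring

end

end Pool.Agent.N797.PW
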