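import Pool.Agent.N797.PW.Stm
import Pool.Agent.Y926.TW.J_DUAL

/-!
# `DU`, `PD`: duality for the functional `LF`
-/

set_option autoImplicit false

open Polynomial Pool.Agent.H337R2 Pool.Agent.W165.OZ Pool.Agent.Y926.LZ Pool.Agent.Y926.TW

namespace Pool.Agent.N797.PW

noncomputable section

namespace DUx

open Pool.Agent.Y926.TW.DualJ (TS_comp TS_self dvd_TS)

/-- the local part of `PF` -/
def loc (h : ℕ) (c : ℕ → ℕ → ℤ) (k : ℕ) : PowerSeries ℚ :=
  ∑ i ∈ Finset.Icc 1 (2 * h), PowerSeries.C ((c i k : ℤ) : ℚ) * PowerSeries.X ^ (2 * h - i)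

theorem key_dvd (h n : ℕ) (c : ℕ → ℕ → ℤ) {k : ℕ} (hk : k < n) :
    (PowerSeries.X : PowerSeries ℚ) ^ (2 * h) ∣ TS (-(k : ℚ)) (PF h n c) -
      loc h c k * TS (-(k : ℚ)) (QQ ((Finset.range n).erase k) (mP h)) := by
  have e : TS (-(k : ℚ)) (PF h n c) - loc h c k * TS (-(k : ℚ)) (QQ ((Finset.range n).erase k) (mP h)) =
      ∑ k' ∈ (Finset.range n).erase k, TS (-(k : ℚ)) (∑ i ∈ Finset.Icc 1 (2 * h),
        C ((c i k' : ℤ) : ℚ) * (X + C (k' : ℚ)) ^ (2 * h - i) *
          QQ ((Finset.range n).erase k') (mP h)) := by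
    unfold PF
    rw [map_sum, ← Finset.add_sum_erase _ _ (Finset.mem_range.2 hk)]
    rw [add_sub_right_comm, add_eq_right, sub_eq_zero, map_sum, loc, Finset.sum_mul]
    refine Finset.sum_congr rfl fun i _ => ?_
    rw [map_mul, map_mul, map_pow, TS_C, TS_self]
  rw [e]
  refine Finset.dvd_sum fun k' hk' => ?_
  rw [Finset.mem_erase] at hk'
  apply dvd_TS
  refine Finset.dvd_sum fun i _ => ?_
  refine Dvd.dvd.mul_left ?_ _
  rw [QQ_erase ((Finset.range n).erase k') (mP h) (k := k)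
    (Finset.mem_erase.2 ⟨hk'.1.symm, Finset.mem_range.2 hk⟩)]
  exact dvd_mul_right _ _

theorem QV (h n k : ℕ) : TS (-(k : ℚ)) (QQ ((Finset.range n).erase k) (mP h)) *
    VV ((Finset.range n).erase k) (mP h) (-(k : ℚ)) = 1 := by
  apply TS_QQ_mul_VV
  intro m hm _ h0
  rw [Finset.mem_erase] at hm
  apply hm.1
  have : (m : ℚ) = k := by linarith
  exact_mod_cast this

theorem key {h n : ℕ} (hh : 1 ≤ h) (c : ℕ → ℕ → ℤ) {k : ℕ} (hk : k < n) (F : PowerSeries ℚ) :
    PowerSeries.coeff (2 * h - 1) (F * VV ((Finset.range n).erase k) (mP h) (-(k : ℚ)) *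
      TS (-(k : ℚ)) (PF h n c)) =
    ∑ i ∈ Finset.Icc 1 (2 * h), (c i k : ℚ) * PowerSeries.coeff (i - 1) F := by
  have h1 := key_dvd h n c hk
  have h2 : F * VV ((Finset.range n).erase k) (mP h) (-(k : ℚ)) * TS (-(k : ℚ)) (PF h n c) =
      F * loc h c k + F * VV ((Finset.range n).erase k) (mP h) (-(k : ℚ)) *
        (TS (-(k : ℚ)) (PF h n c) -
          loc h c k * TS (-(k : ℚ)) (QQ ((Finset.range n).erase k) (mP h))) := by
    linear_combination (F * loc h c k) * QV h n k
  have h3 : PowerSeries.coeff (2 * h - 1) (F * VV ((Finset.range n).erase k) (mP h) (-(k : ℚ)) *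
        (TS (-(k : ℚ)) (PF h n c) -
          loc h c k * TS (-(k : ℚ)) (QQ ((Finset.range n).erase k) (mP h)))) = 0 :=
    (PowerSeries.X_pow_dvd_iff.1 (Dvd.dvd.mul_left h1 _)) _ (by omega)
  rw [h2, map_add, h3, add_zero, loc, Finset.mul_sum, map_sum]
  refine Finset.sum_congr rfl fun i hi => ?_
  rw [Finset.mem_Icc] at hi
  rw [mul_left_comm, PowerSeries.coeff_C_mul, PowerSeries.coeff_mul_X_pow', if_pos (by omega)]
  congr 3
  omega

/-- divisibility can be read off the Taylor expansion -/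
theorem dvd_of_TS {k : ℚ} {m : ℕ} {p : ℚ[X]} (hp : (PowerSeries.X : PowerSeries ℚ) ^ m ∣ TS (-k) p) :
    (X + C k) ^ m ∣ p := by
  set q : ℚ[X] := p.comp (X + C (-k)) with hq
  have h1 : q.comp (X + C k) = p := by
    rw [hq, Polynomial.comp_assoc]
    simp only [Polynomial.add_comp, Polynomial.X_comp, Polynomial.C_comp]
    rw [add_assoc, ← C_add]
    simp
  have h2 : TS (-k) p = (q : PowerSeries ℚ) := by
    rw [← h1, TS_comp]
  rw [h2] at hp
  have h3 : X ^ m ∣ q := by
    rw [Polynomial.X_pow_dvd_iff]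
    intro d hd
    have := PowerSeries.X_pow_dvd_iff.1 hp d hd
    rwa [Polynomial.coeff_coe] at this
  obtain ⟨r, hr⟩ := h3
  refine ⟨r.comp (X + C k), ?_⟩
  rw [← h1, hr, Polynomial.mul_comp, Polynomial.pow_comp, Polynomial.X_comp]

theorem PF_deg {h n : ℕ} (hn : 1 ≤ n) (hh : 1 ≤ h) (c : ℕ → ℕ → ℤ) :
    (PF h n c).natDegree + 1 ≤ n * (2 * h) := by
  have h0 : 1 ≤ n * (2 * h) := Nat.mul_pos hn (by omega)
  have h1 : (PF h n c).natDegree ≤ n * (2 * h) - 1 := by
    unfold PF
    refine Polynomial.natDegree_sum_le_of_forall_le _ _ fun k hk => ?_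
    refine Polynomial.natDegree_sum_le_of_forall_le _ _ fun i hi => ?_
    rw [Finset.mem_Icc] at hi
    have h2 : (QQ ((Finset.range n).erase k) (mP h)).natDegree + 2 * h = n * (2 * h) := by
      rw [← natDegree_QQ n h, QQ_erase (sP n) (mP h) hk,
        ((Polynomial.monic_X_add_C _).pow _).natDegree_mul (QQ_monic _ _),
        (Polynomial.monic_X_add_C _).natDegree_pow, Polynomial.natDegree_X_add_C, mul_one]
      ring
    have h3 : (C ((c i k : ℤ) : ℚ) * (X + C (k : ℚ)) ^ (2 * h - i)).natDegree ≤ 2 * h - i := by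
      refine (Polynomial.natDegree_C_mul_le _ _).trans ?_
      rw [(Polynomial.monic_X_add_C _).natDegree_pow, Polynomial.natDegree_X_add_C, mul_one]
    refine Polynomial.natDegree_mul_le.trans ?_
    omega
  omega

end DUx

open DUx

theorem t_du : S_DU := by
  intro h n G c E hn hh hG hf
  obtain ⟨A, hA1, hA2⟩ := t_dual n h G (fun k => TS (-(k : ℚ)) (PF h n c) * E k) hn hh hG (by
    intro F hF
    rw [← hf F hF]
    unfold LF
    refine Finset.sum_congr rfl fun k hk => ?_
    rw [← key hh c (Finset.mem_range.1 hk)]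
    congr 1
    ring)
  refine ⟨A, hA1, fun k hk => ?_⟩
  rw [dvd_sub_comm]
  exact hA2 k hk

theorem t_pd : S_PD := by
  intro h n c hn hh hNZ
  refine ⟨?_, ?_⟩
  · intro h0
    obtain ⟨i, k, hi1, hi2, hk, hc⟩ := hNZ
    have h1 := key_dvd h n c hk
    rw [h0, map_zero, zero_sub, dvd_neg] at h1
    have h2 : (PowerSeries.X : PowerSeries ℚ) ^ (2 * h) ∣ loc h c k := by
      have h3 := Dvd.dvd.mul_right h1 (VV ((Finset.range n).erase k) (mP h) (-(k : ℚ)))
      rwa [mul_assoc, QV, mul_one] at h3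
    have h4 := PowerSeries.X_pow_dvd_iff.1 h2 (2 * h - i) (by omega)
    rw [loc, map_sum, Finset.sum_eq_single i] at h4
    · rw [PowerSeries.coeff_C_mul, PowerSeries.coeff_X_pow, if_pos rfl, mul_one] at h4
      exact hc (by exact_mod_cast h4)
    · intro j hj hji
      rw [Finset.mem_Icc] at hj
      rw [PowerSeries.coeff_C_mul, PowerSeries.coeff_X_pow, if_neg (by omega), mul_zero]
    · intro hi
      exact absurd (Finset.mem_Icc.2 ⟨hi1, hi2⟩) hi
  · intro G hG hf
    obtain ⟨A, hA1, hA2⟩ := t_du h n G c (fun _ => 1) hn hh hG (by simpa using hf)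
    have h1 : QQ (sP n) (mP h) ∣ PF h n c - A := by
      unfold QQ
      refine Finset.prod_dvd_of_coprime ?_ ?_
      · intro i _ j _ hij
        exact (coprime_lin hij).pow
      · intro k hk
        apply dvd_of_TS
        have := hA2 k (Finset.mem_range.1 hk)
        rwa [mul_one, ← map_sub] at this
    have h2 : PF h n c - A = 0 := by
      by_contra hne
      have h3 := Polynomial.natDegree_le_of_dvd h1 hne
      rw [natDegree_QQ] at h3
      have h4 := PF_deg hn hh c
      have h5 := Polynomial.natDegree_sub_le (PF h n c) A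
      have h6 : max (PF h n c).natDegree A.natDegree + 1 ≤ n * (2 * h) := by
        rcases le_total (PF h n c).natDegree A.natDegree with h7 | h7
        · rw [max_eq_right h7]; omega
        · rw [max_eq_left h7]; omega
      omega
    rw [sub_eq_zero.1 h2]
    exact hA1

end

end Pool.Agent.N797.PW
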