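import Pool.Agent.N797.PW.Stm

/-!
# GCD: the common denominator `gcd(d_n^e, n!^f)` is small
-/

open Polynomial Pool.Agent.H337R2 Pool.Agent.W165.OZ Pool.Agent.Y926.LZ Pool.Agent.Y926.TW Filter

namespace Pool.Agent.N797.PW

noncomputable section

lemma gcd_Dl_pos (n : ℕ) : 0 < Dl n 1 := by
  unfold Dl
  refine Finset.prod_pos fun p hp => ?_
  exact pow_pos (Finset.mem_filter.1 hp).2.pos _

lemma gcd_Dl_fact {n p : ℕ} (hp : p.Prime) :
    (Dl n 1).factorization p = if p ≤ n then Nat.log p n else 0 := by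
  unfold Dl
  rw [Nat.factorization_prod (fun q hq => (pow_pos (Finset.mem_filter.1 hq).2.pos _).ne')]
  rw [Finsupp.finsetSum_apply]
  rw [Finset.sum_congr rfl (g := fun q => if q = p then Nat.log p n else 0)]
  · rw [Finset.sum_ite_eq']
    by_cases h : p ≤ n
    · rw [if_pos h, if_pos]
      rw [Finset.mem_filter, Finset.mem_range]
      exact ⟨by omega, hp⟩
    · rw [if_neg h, if_neg]
      rw [Finset.mem_filter, Finset.mem_range]
      rintro ⟨h1, -⟩
      omega
  · intro q hq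
    have hq' : q.Prime := (Finset.mem_filter.1 hq).2
    rw [hq'.factorization_pow, one_mul, Finsupp.single_apply]
    by_cases h : q = p
    · rw [if_pos h, if_pos h, h]
    · rw [if_neg h, if_neg h]

/-- the small primes -/
def gcdS (n : ℕ) : Finset ℕ := (Finset.range (n + 1)).filter fun p => p.Prime ∧ p * p ≤ n

/-- the bound for the common denominator -/
def gcdX (n e f J : ℕ) : ℕ :=
  (∏ p ∈ gcdS n, p ^ Nat.log p n) ^ e * (primorial (n / 2 ^ J)) ^ e *
    ∏ j ∈ Finset.range J, (primorial (n / 2 ^ j)) ^ (f * 2 ^ (j + 1))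

lemma gcdX_pos (n e f J : ℕ) : 0 < gcdX n e f J := by
  unfold gcdX
  refine Nat.mul_pos (Nat.mul_pos (pow_pos (Finset.prod_pos fun p hp => ?_) _)
    (pow_pos (primorial_pos _) _)) (Finset.prod_pos fun j _ => pow_pos (primorial_pos _) _)
  exact pow_pos (Finset.mem_filter.1 hp).2.1.pos _

lemma gcd_find {n p : ℕ} : ∀ J : ℕ, n / 2 ^ J < p → p ≤ n → ∃ j < J, n / 2 ^ (j + 1) < p ∧ p ≤ n / 2 ^ j := by
  intro J
  induction J with
  | zero =>
    intro h1 h2
    simp at h1
    omega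
  | succ J ih =>
    intro h1 h2
    by_cases h : p ≤ n / 2 ^ J
    · exact ⟨J, Nat.lt_succ_self _, h1, h⟩
    · obtain ⟨j, hj, h3⟩ := ih (not_le.1 h) h2
      exact ⟨j, by omega, h3⟩

lemma gcd_dvd (n e f J : ℕ) : DW n e f ∣ gcdX n e f J := by
  have hD := gcd_Dl_pos n
  have hA : DW n e f ≠ 0 := by
    unfold DW
    intro h
    have := Nat.eq_zero_of_gcd_eq_zero_left h
    exact (pow_pos hD e).ne' this
  rw [← Nat.factorization_le_iff_dvd hA (gcdX_pos n e f J).ne']
  intro p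
  by_cases hp : p.Prime
  swap
  · rw [Nat.factorization_eq_zero_of_not_prime _ hp]
    exact Nat.zero_le _
  rw [← hp.pow_dvd_iff_le_factorization (gcdX_pos n e f J).ne']
  have h1 : (DW n e f).factorization p ≤ e * (Dl n 1).factorization p := by
    have h := (Nat.factorization_le_iff_dvd hA (pow_pos hD e).ne').2 (Nat.gcd_dvd_left _ _) p
    rwa [Nat.factorization_pow, Finsupp.smul_apply, smul_eq_mul] at h
  have h2 : (DW n e f).factorization p ≤ f * (n.factorial).factorization p := by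
    have h := (Nat.factorization_le_iff_dvd hA (pow_pos n.factorial_pos f).ne').2
      (Nat.gcd_dvd_right _ _) p
    rwa [Nat.factorization_pow, Finsupp.smul_apply, smul_eq_mul] at h
  rw [gcd_Dl_fact hp] at h1
  by_cases hpn : p ≤ n
  swap
  · rw [if_neg hpn, mul_zero] at h1
    rw [Nat.le_zero.1 h1, pow_zero]
    exact one_dvd _
  rw [if_pos hpn] at h1
  by_cases hpp : p * p ≤ n
  · unfold gcdX
    rw [mul_assoc]
    refine Dvd.dvd.mul_right ?_ _
    have hm : p ∈ gcdS n := by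
      unfold gcdS
      rw [Finset.mem_filter, Finset.mem_range]
      exact ⟨by omega, hp, hpp⟩
    have h3 : p ^ Nat.log p n ∣ ∏ p ∈ gcdS n, p ^ Nat.log p n :=
      Finset.dvd_prod_of_mem (fun p => p ^ Nat.log p n) hm
    refine dvd_trans ?_ (pow_dvd_pow_of_dvd h3 e)
    rw [← pow_mul, mul_comm (Nat.log p n) e]
    exact pow_dvd_pow _ h1
  · have hlog : Nat.log p n ≤ 1 := by
      have hn0 : n ≠ 0 := by have := hp.pos; omega
      have h3 : Nat.log p n < 2 := Nat.log_lt_of_lt_pow hn0 (by rw [pow_two]; exact not_le.1 hpp)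
      omega
    have h3 : (DW n e f).factorization p ≤ e := h1.trans (by nlinarith)
    by_cases hJ : p ≤ n / 2 ^ J
    · unfold gcdX
      rw [mul_assoc]
      refine Dvd.dvd.mul_left ?_ _
      refine Dvd.dvd.mul_right ?_ _
      exact dvd_trans (pow_dvd_pow p h3) (pow_dvd_pow_of_dvd (hp.dvd_primorial_iff.2 hJ) e)
    · obtain ⟨j, hj, h4, h5⟩ := gcd_find J (not_le.1 hJ) hpn
      have h6 : (n.factorial).factorization p = n / p := by
        have hlt : Nat.log p n < 2 := by omega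
        rw [Nat.factorization_factorial hp hlt]
        simp
      have h7 : n / p ≤ 2 ^ (j + 1) := by
        have h8 : n < p * 2 ^ (j + 1) := (Nat.div_lt_iff_lt_mul (by positivity)).1 h4
        exact (Nat.div_lt_of_lt_mul h8).le
      rw [h6] at h2
      have h8 : (DW n e f).factorization p ≤ f * 2 ^ (j + 1) := h2.trans (Nat.mul_le_mul_left _ h7)
      unfold gcdX
      refine Dvd.dvd.mul_left ?_ _
      have h9 : (primorial (n / 2 ^ j)) ^ (f * 2 ^ (j + 1)) ∣
          ∏ j ∈ Finset.range J, (primorial (n / 2 ^ j)) ^ (f * 2 ^ (j + 1)) :=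
        Finset.dvd_prod_of_mem (fun j => (primorial (n / 2 ^ j)) ^ (f * 2 ^ (j + 1)))
          (Finset.mem_range.2 hj)
      refine dvd_trans ?_ h9
      exact dvd_trans (pow_dvd_pow p h8) (pow_dvd_pow_of_dvd (hp.dvd_primorial_iff.2 h5) _)

lemma gcdX_le (n e f f' J : ℕ) (hn : 1 ≤ n) (he : e ≤ 2 ^ J * f') :
    gcdX n e f J ≤ (n ^ (Nat.sqrt n + 1)) ^ e * 2 ^ ((2 * f' + 4 * J * f) * n) := by
  have h1 : ∏ p ∈ gcdS n, p ^ Nat.log p n ≤ n ^ (Nat.sqrt n + 1) := by
    have h2 : ∏ p ∈ gcdS n, p ^ Nat.log p n ≤ ∏ _p ∈ gcdS n, n :=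
      Finset.prod_le_prod' fun p _ => Nat.pow_log_le_self p (by omega)
    rw [Finset.prod_const] at h2
    refine h2.trans (Nat.pow_le_pow_right hn ?_)
    have h3 : gcdS n ⊆ Finset.range (Nat.sqrt n + 1) := by
      intro p hp
      rw [Finset.mem_range]
      have := (Finset.mem_filter.1 hp).2.2
      have := Nat.le_sqrt.2 this
      omega
    have h4 := Finset.card_le_card h3
    rwa [Finset.card_range] at h4
  have h2 : (primorial (n / 2 ^ J)) ^ e ≤ 2 ^ (2 * f' * n) := by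
    calc (primorial (n / 2 ^ J)) ^ e ≤ (4 ^ (n / 2 ^ J)) ^ e :=
          Nat.pow_le_pow_left (primorial_le_four_pow _) _
      _ = 2 ^ (2 * ((n / 2 ^ J) * e)) := by
          rw [show (4 : ℕ) = 2 ^ 2 by norm_num, ← pow_mul, ← pow_mul]
      _ ≤ 2 ^ (2 * f' * n) := by
          apply Nat.pow_le_pow_right (by norm_num)
          have h5 : (n / 2 ^ J) * 2 ^ J ≤ n := Nat.div_mul_le_self _ _
          have h6 : (n / 2 ^ J) * e ≤ (n / 2 ^ J) * (2 ^ J * f') := Nat.mul_le_mul_left _ he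
          have h7 : (n / 2 ^ J) * (2 ^ J * f') ≤ n * f' := by
            rw [← mul_assoc]
            exact Nat.mul_le_mul_right _ h5
          nlinarith
  have h3 : ∏ j ∈ Finset.range J, (primorial (n / 2 ^ j)) ^ (f * 2 ^ (j + 1)) ≤
      2 ^ (4 * J * f * n) := by
    calc ∏ j ∈ Finset.range J, (primorial (n / 2 ^ j)) ^ (f * 2 ^ (j + 1))
        ≤ ∏ _j ∈ Finset.range J, 2 ^ (4 * f * n) := by
          refine Finset.prod_le_prod' fun j _ => ?_
          calc (primorial (n / 2 ^ j)) ^ (f * 2 ^ (j + 1)) ≤ (4 ^ (n / 2 ^ j)) ^ (f * 2 ^ (j + 1)) :=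
                Nat.pow_le_pow_left (primorial_le_four_pow _) _
            _ = 2 ^ (2 * ((n / 2 ^ j) * (f * 2 ^ (j + 1)))) := by
                rw [show (4 : ℕ) = 2 ^ 2 by norm_num, ← pow_mul, ← pow_mul]
            _ ≤ 2 ^ (4 * f * n) := by
                apply Nat.pow_le_pow_right (by norm_num)
                have h5 : (n / 2 ^ j) * 2 ^ j ≤ n := Nat.div_mul_le_self _ _
                have h6 : 2 * ((n / 2 ^ j) * (f * 2 ^ (j + 1))) = 4 * f * ((n / 2 ^ j) * 2 ^ j) := by
                  rw [pow_succ]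
                  ring
                rw [h6]
                exact Nat.mul_le_mul_left _ h5
      _ = 2 ^ (4 * J * f * n) := by
          rw [Finset.prod_const, Finset.card_range, ← pow_mul]
          congr 1
          ring
  unfold gcdX
  calc _ ≤ (n ^ (Nat.sqrt n + 1)) ^ e * 2 ^ (2 * f' * n) * 2 ^ (4 * J * f * n) :=
        Nat.mul_le_mul (Nat.mul_le_mul (Nat.pow_le_pow_left h1 _) h2) h3
    _ = _ := by
        rw [mul_assoc, ← pow_add]
        congr 2
        ring

lemma gcd_ev (e : ℕ) : ∀ᶠ n : ℕ in atTop, (((n ^ (Nat.sqrt n + 1)) ^ e : ℕ) : ℝ) ≤ 2 ^ n := by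
  have h1 : (fun x : ℝ => Real.log x) =o[atTop] fun x : ℝ => x ^ ((1 : ℝ) / 2) :=
    isLittleO_log_rpow_atTop (by norm_num)
  have hc : 0 < Real.log 2 / (2 * ((e : ℝ) + 1)) :=
    div_pos (Real.log_pos (by norm_num)) (by positivity)
  have h2 := (h1.def hc).natCast_atTop
  filter_upwards [h2, eventually_ge_atTop 1] with n hn hn1
  have hn' : (1 : ℝ) ≤ n := by exact_mod_cast hn1
  have hlog : 0 ≤ Real.log n := Real.log_nonneg hn'
  rw [Real.norm_of_nonneg hlog, Real.norm_of_nonneg (by positivity), ← Real.sqrt_eq_rpow] at hn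
  push_cast
  rw [← Real.log_le_log_iff (by positivity) (by positivity), Real.log_pow, Real.log_pow, Real.log_pow]
  have h3 : ((Nat.sqrt n + 1 : ℕ) : ℝ) ≤ 2 * Real.sqrt n := by
    push_cast
    have h4 : (Nat.sqrt n : ℝ) ≤ Real.sqrt n := Real.nat_sqrt_le_real_sqrt
    have h5 : 1 ≤ Real.sqrt n := by
      rw [show (1 : ℝ) = Real.sqrt 1 by simp]
      exact Real.sqrt_le_sqrt hn'
    linarith
  have h6 : 0 ≤ Real.sqrt n := Real.sqrt_nonneg _
  calc (e : ℝ) * (((Nat.sqrt n + 1 : ℕ) : ℝ) * Real.log n)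
      ≤ (e : ℝ) * ((2 * Real.sqrt n) * (Real.log 2 / (2 * ((e : ℝ) + 1)) * Real.sqrt n)) := by
        gcongr
    _ = ((e : ℝ) / ((e : ℝ) + 1)) * Real.log 2 * (Real.sqrt n * Real.sqrt n) := by
        field_simp
    _ = ((e : ℝ) / ((e : ℝ) + 1)) * Real.log 2 * n := by
        rw [Real.mul_self_sqrt (by positivity)]
    _ ≤ 1 * Real.log 2 * n := by
        have h7 : (e : ℝ) / ((e : ℝ) + 1) ≤ 1 := by
          rw [div_le_one (by positivity)]
          linarith
        have h8 : 0 < Real.log 2 := Real.log_pos (by norm_num)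
        gcongr
    _ = n * Real.log 2 := by ring

theorem t_gcd : S_GCD := by
  intro e f f' J he
  filter_upwards [gcd_ev e, eventually_ge_atTop 1] with n hn hn1
  have h1 : DW n e f ≤ (n ^ (Nat.sqrt n + 1)) ^ e * 2 ^ ((2 * f' + 4 * J * f) * n) :=
    (Nat.le_of_dvd (gcdX_pos n e f J) (gcd_dvd n e f J)).trans (gcdX_le n e f f' J hn1 he)
  calc (DW n e f : ℝ) ≤ (((n ^ (Nat.sqrt n + 1)) ^ e * 2 ^ ((2 * f' + 4 * J * f) * n) : ℕ) : ℝ) := by
        exact_mod_cast h1
    _ = (((n ^ (Nat.sqrt n + 1)) ^ e : ℕ) : ℝ) * 2 ^ ((2 * f' + 4 * J * f) * n) := by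
        push_cast
        ring
    _ ≤ 2 ^ n * 2 ^ ((2 * f' + 4 * J * f) * n) := by gcongr
    _ = 2 ^ ((2 * f' + 4 * J * f + 1) * n) := by
        rw [← pow_add]
        congr 1
        ring

end

end Pool.Agent.N797.PW
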