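import Pool.Agent.N797.PW.Stm
import Pool.Agent.Y926.TW.J_COE
import Pool.Agent.Y926.TW.J_SYM

/-!
# `INT`: integrality of the forms
-/

set_option autoImplicit false

open Polynomial Pool.Agent.H337R2 Pool.Agent.W165.OZ Pool.Agent.W165.OZ.PAx Pool.Agent.Y926.LZ
  Pool.Agent.Y926.TW

namespace Pool.Agent.N797.PW

noncomputable section

namespace INT

/-- the rational number is an integer -/
def Iz (x : ℚ) : Prop := ∃ M : ℤ, x = M

lemma Iz.add {x y : ℚ} (hx : Iz x) (hy : Iz y) : Iz (x + y) := by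
  obtain ⟨a, rfl⟩ := hx
  obtain ⟨b, rfl⟩ := hy
  exact ⟨a + b, by push_cast; rfl⟩

lemma Iz.sub {x y : ℚ} (hx : Iz x) (hy : Iz y) : Iz (x - y) := by
  obtain ⟨a, rfl⟩ := hx
  obtain ⟨b, rfl⟩ := hy
  exact ⟨a - b, by push_cast; rfl⟩

lemma Iz.mul {x y : ℚ} (hx : Iz x) (hy : Iz y) : Iz (x * y) := by
  obtain ⟨a, rfl⟩ := hx
  obtain ⟨b, rfl⟩ := hy
  exact ⟨a * b, by push_cast; rfl⟩

lemma Iz.zero : Iz 0 := ⟨0, by simp⟩

lemma Iz.int (a : ℤ) : Iz (a : ℚ) := ⟨a, rfl⟩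

lemma Iz.nat (a : ℕ) : Iz (a : ℚ) := ⟨a, by simp⟩

lemma Iz.sum {ι : Type*} (s : Finset ι) (f : ι → ℚ) (hf : ∀ i ∈ s, Iz (f i)) :
    Iz (∑ i ∈ s, f i) := by
  classical
  induction s using Finset.induction_on with
  | empty => simpa using Iz.zero
  | insert a s ha ih =>
    rw [Finset.sum_insert ha]
    exact (hf a (Finset.mem_insert_self _ _)).add
      (ih fun i hi => hf i (Finset.mem_insert_of_mem hi))

lemma Iz.npow (a : ℤ) (m : ℕ) : Iz ((a : ℚ) ^ m) := ⟨a ^ m, by push_cast; rfl⟩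

/-- integrality of the coefficients `rh` -/
lemma rh_int (h1 : S_JI) {h n l γ e : ℕ} (c : ℕ → ℕ → ℤ) (hn : 1 ≤ n) (hl : l ≤ γ * n)
    (he : 2 * h ≤ e) (i : ℕ) :
    Iz ((DW n e (2 * γ + 2) : ℚ) * rh h n c (gq n l) i) := by
  unfold rh LF
  rw [Finset.mul_sum]
  apply Iz.sum
  intro k _
  rw [Finset.mul_sum]
  apply Iz.sum
  intro i' hi'
  rw [Finset.mem_Icc] at hi'
  rw [PowerSeries.coeff_X_pow_mul']
  split_ifs with h2
  · have h3 := h1 n l γ e (i' - 1 - (i - 1)) (-(k : ℤ)) hn hl (by omega)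
    rw [show ((-(k : ℤ) : ℤ) : ℚ) = -(k : ℚ) by push_cast; ring] at h3
    have h4 := (Iz.int (c i' k)).mul h3
    rwa [show (c i' k : ℚ) * ((DW n e (2 * γ + 2) : ℚ) *
      PowerSeries.coeff (i' - 1 - (i - 1)) (TS (-(k : ℚ)) (gq n l))) =
      (DW n e (2 * γ + 2) : ℚ) * ((c i' k : ℚ) *
      PowerSeries.coeff (i' - 1 - (i - 1)) (TS (-(k : ℚ)) (gq n l))) by ring] at h4
  · rw [mul_zero, mul_zero]
    exact Iz.zero

lemma gq_io (n l : ℕ) : (gq n l).comp (SYM.io n) = gq n l := by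
  unfold gq
  rw [Polynomial.comp_assoc, SYM.yp_comp]

lemma coeff_refl {n k : ℕ} (hk : k < n) (l j : ℕ) :
    PowerSeries.coeff j (TS (-((n - 1 - k : ℕ) : ℚ)) (gq n l)) =
      (-1) ^ j * PowerSeries.coeff j (TS (-(k : ℚ)) (gq n l)) := by
  have h1 := SYM.TS_io hk (gq n l)
  rw [gq_io] at h1
  rw [h1, PowerSeries.coeff_rescale, ← mul_assoc, ← mul_pow]
  norm_num

/-- the coefficients with even index vanish -/
lemma rh_even {h n l : ℕ} {c : ℕ → ℕ → ℤ} (hc : AS h n c) {i : ℕ} (hi : Even i) (hi1 : 1 ≤ i) :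
    rh h n c (gq n l) i = 0 := by
  have h1 : rh h n c (gq n l) i = - rh h n c (gq n l) i := by
    conv_lhs => unfold rh LF
    rw [← Finset.sum_range_reflect]
    unfold rh LF
    rw [← Finset.sum_neg_distrib]
    apply Finset.sum_congr rfl
    intro k hk
    rw [Finset.mem_range] at hk
    rw [← Finset.sum_neg_distrib]
    apply Finset.sum_congr rfl
    intro i' hi'
    rw [Finset.mem_Icc] at hi'
    rw [PowerSeries.coeff_X_pow_mul', PowerSeries.coeff_X_pow_mul']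
    split_ifs with h2
    · rw [coeff_refl hk, hc k hk i' hi'.1 hi'.2]
      push_cast
      have h3 : ((-1 : ℚ)) ^ (i' + 1) * (-1) ^ (i' - 1 - (i - 1)) = -1 := by
        rw [← pow_add]
        apply Odd.neg_one_pow
        obtain ⟨a, ha⟩ := hi
        refine ⟨i' - a, ?_⟩
        omega
      calc _ = ((-1 : ℚ)) ^ (i' + 1) * (-1) ^ (i' - 1 - (i - 1)) * ((c i' k : ℚ) *
            PowerSeries.coeff (i' - 1 - (i - 1)) (TS (-(k : ℚ)) (gq n l))) := by ring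
        _ = _ := by rw [h3]; ring
    · ring
  linarith

/-- Taylor coefficients of integer polynomials at integers -/
lemma TS_int (x : ℤ) (P : ℤ[X]) (j : ℕ) :
    Iz (PowerSeries.coeff j (TS (x : ℚ) (P.map (Int.castRingHom ℚ)))) := by
  have h1 : TS (x : ℚ) (P.map (Int.castRingHom ℚ)) ∈
      (PowerSeries.map (Int.castRingHom ℚ)).range := by
    induction P using Polynomial.induction_on' with
    | add p q hp hq =>
      rw [Polynomial.map_add, map_add]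
      exact Subring.add_mem _ hp hq
    | monomial m a =>
      rw [Polynomial.map_monomial, ← Polynomial.C_mul_X_pow_eq_monomial, map_mul, map_pow, TS_C,
        TS_X]
      apply Subring.mul_mem
      · exact ⟨PowerSeries.C a, by simp⟩
      · apply Subring.pow_mem
        exact ⟨PowerSeries.X + PowerSeries.C x, by simp⟩
  obtain ⟨f, hf⟩ := h1
  rw [← hf, PowerSeries.coeff_map]
  exact ⟨_, rfl⟩

/-- the quotient of `a g` -/
lemma div_C (a : ℚ) (g q : ℚ[X]) (hq : q.Monic) : (C a * g) /ₘ q = C a * (g /ₘ q) := by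
  have h1 := Polynomial.div_modByMonic_unique (f := C a * g) (C a * (g /ₘ q)) (C a * (g %ₘ q)) hq
    ⟨by
      have h2 := Polynomial.modByMonic_add_div g q
      calc C a * (g %ₘ q) + q * (C a * (g /ₘ q)) = C a * (g %ₘ q + q * (g /ₘ q)) := by ring
        _ = C a * g := by rw [h2], by
      apply lt_of_le_of_lt _ (Polynomial.degree_modByMonic_lt g hq)
      by_cases ha : a = 0
      · rw [ha, C_0, zero_mul, degree_zero]
        exact bot_le
      · rw [Polynomial.degree_C_mul ha]⟩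
  exact h1.1

/-- the first integrality -/
lemma q1_int (h2 : S_JZ) {n l γ : ℕ} (hn : 1 ≤ n) (hl : l ≤ γ * n) (t : ℤ) (m k j : ℕ) :
    Iz (((n.factorial ^ (2 * γ + 2) : ℕ) : ℚ) *
      PowerSeries.coeff j (TS (-(k : ℚ)) (gq n l /ₘ (X - C (t : ℚ)) ^ m))) := by
  obtain ⟨G, hG⟩ := h2 n l γ hn hl
  have hq : ((X - C t : ℤ[X]) ^ m).Monic := (Polynomial.monic_X_sub_C t).pow m
  have hq' : ((X - C (t : ℚ) : ℚ[X]) ^ m).Monic := (Polynomial.monic_X_sub_C (t : ℚ)).pow m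
  have h3 := Polynomial.map_divByMonic (Int.castRingHom ℚ) (p := G) hq
  have h4 : ((X - C t : ℤ[X]) ^ m).map (Int.castRingHom ℚ) = (X - C (t : ℚ)) ^ m := by
    rw [Polynomial.map_pow, Polynomial.map_sub, Polynomial.map_X, Polynomial.map_C]
    simp
  rw [h4, ← hG, div_C _ _ _ hq'] at h3
  have h5 := TS_int (-(k : ℤ)) (G /ₘ (X - C t) ^ m) j
  rw [h3, map_mul, TS_C, PowerSeries.coeff_C_mul,
    show ((-(k : ℤ) : ℤ) : ℚ) = -(k : ℚ) by push_cast; ring] at h5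
  rw [Nat.cast_pow]
  exact h5

section
variable {p : ℕ} [hp : Fact p.Prime]

lemma PB_sum {ι : Type*} {ρ A : ℚ} (s : Finset ι) (f : ι → PowerSeries ℚ) (hρ : 0 ≤ ρ)
    (hA : 0 ≤ A) (hf : ∀ i ∈ s, PB p ρ A (f i)) : PB p ρ A (∑ i ∈ s, f i) := by
  intro j
  rw [map_sum]
  apply padicNorm.sum_le' _ (by positivity)
  intro i hi
  exact hf i hi j

lemma PB_gq {n l : ℕ} (hn : 1 ≤ n) (x : ℤ) :
    PB p ((p : ℚ) ^ Nat.log p n) 1 (TS (x : ℚ) (gq n l)) := by
  have h1 := PB_Gb_gen (p := p) (n := n) (e := 1) (i := l) (x := (x : ℚ)) hn le_rfl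
    ⟨x, by simp⟩
  simpa [gq] using h1

/-- the `p`-adic size of the remainder -/
lemma PB_rem {n l β : ℕ} (hn : 1 ≤ n) (t : ℤ) (k : ℕ) :
    PB p ((p : ℚ) ^ Nat.log p n) (((p : ℚ) ^ Nat.log p n) ^ β)
      (TS (-(k : ℚ)) (gq n l %ₘ (X - C (t : ℚ)) ^ (β + 1))) := by
  have hρ : (1 : ℚ) ≤ (p : ℚ) ^ Nat.log p n := rho_ge n
  have hρ0 : (0 : ℚ) ≤ (p : ℚ) ^ Nat.log p n := by linarith
  set g := gq n l with hg
  set q : ℚ[X] := (X - C (t : ℚ)) ^ (β + 1) with hq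
  have hqm : q.Monic := (Polynomial.monic_X_sub_C (t : ℚ)).pow _
  set R := g %ₘ q with hR
  have hqd : q.natDegree = β + 1 := by
    rw [hq, Polynomial.natDegree_pow, Polynomial.natDegree_X_sub_C, mul_one]
  have hRd : R.natDegree < β + 1 := by
    have := Polynomial.natDegree_modByMonic_lt g hqm (by
      intro h
      rw [h, Polynomial.natDegree_one] at hqd
      omega)
    rwa [hqd] at this
  have hco : ∀ l' < β + 1, PowerSeries.coeff l' (TS (t : ℚ) R) =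
      PowerSeries.coeff l' (TS (t : ℚ) g) := by
    intro l' hl'
    have h1 : TS (t : ℚ) g = TS (t : ℚ) R + PowerSeries.X ^ (β + 1) * TS (t : ℚ) (g /ₘ q) := by
      have h2 := congrArg (TS (t : ℚ)) (Polynomial.modByMonic_add_div g q)
      rw [map_add, map_mul] at h2
      rw [← h2, ← hR]
      congr 2
      rw [hq, map_pow, map_sub, TS_X, TS_C, add_sub_cancel_right]
    rw [h1, map_add, PowerSeries.coeff_X_pow_mul', if_neg (by omega), add_zero]
  have hsum : R = ∑ l' ∈ Finset.range (β + 1),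
      C (PowerSeries.coeff l' (TS (t : ℚ) R)) * (X - C (t : ℚ)) ^ l' := by
    conv_lhs => rw [← Polynomial.sum_taylor_eq R (t : ℚ)]
    rw [Polynomial.sum_over_range' _ (by simp) (β + 1) (by rwa [Polynomial.natDegree_taylor])]
    apply Finset.sum_congr rfl
    intro l' _
    simp [TS]
  rw [hsum, map_sum]
  apply PB_sum _ _ hρ0 (by positivity)
  intro l' hl'
  rw [Finset.mem_range] at hl'
  rw [map_mul, TS_C, hco l' hl']
  have h1 := PB_gq (p := p) (n := n) (l := l) hn t l'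
  rw [one_mul] at h1
  have h2 : PB p ((p : ℚ) ^ Nat.log p n) (((p : ℚ) ^ Nat.log p n) ^ β)
      (PowerSeries.C (PowerSeries.coeff l' (TS (t : ℚ) g))) :=
    PB.C hρ0 (by positivity) (h1.trans (pow_le_pow_right₀ hρ (by omega)))
  have h3 : PB p ((p : ℚ) ^ Nat.log p n) 1 (TS (-(k : ℚ)) ((X - C (t : ℚ)) ^ l')) := by
    have h4 : TS (-(k : ℚ)) (X - C (t : ℚ)) =
        PowerSeries.X + PowerSeries.C (((-(k : ℤ) - t : ℤ)) : ℚ) := by
      rw [map_sub, TS_X, TS_C, add_sub_assoc, ← map_sub]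
      push_cast
      rfl
    rw [map_pow, h4]
    have h5 : PB p ((p : ℚ) ^ Nat.log p n) 1
        (PowerSeries.X + PowerSeries.C (((-(k : ℤ) - t : ℤ)) : ℚ)) :=
      PB.linX hρ0 zero_le_one (padicNorm.of_int _) (by rw [one_mul]; exact hρ)
    have h6 := PB.pow hρ0 zero_le_one h5 l'
    rwa [one_pow] at h6
  have h4 := PB.mul hρ0 (by positivity) zero_le_one h2 h3
  rwa [mul_one] at h4

/-- the `p`-adic size of the quotient -/
lemma PB_quo {n l β : ℕ} (hn : 1 ≤ n) (t : ℤ) {k : ℕ} (h1 : 0 < t + k) (h2 : t + k ≤ n) :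
    PB p ((p : ℚ) ^ Nat.log p n) (((p : ℚ) ^ Nat.log p n) ^ (2 * β + 1))
      (TS (-(k : ℚ)) (gq n l /ₘ (X - C (t : ℚ)) ^ (β + 1))) := by
  have hρ : (1 : ℚ) ≤ (p : ℚ) ^ Nat.log p n := rho_ge n
  have hρ0 : (0 : ℚ) ≤ (p : ℚ) ^ Nat.log p n := by linarith
  set g := gq n l with hg
  obtain ⟨u, hu⟩ : ∃ u : ℕ, (u : ℤ) = t + k := ⟨(t + k).toNat, by omega⟩
  have hu1 : 1 ≤ u := by omega
  have hun : u ≤ n := by omega
  have huq : (u : ℚ) = t + k := by exact_mod_cast hu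
  have hune : -(u : ℚ) ≠ 0 := by
    have : (u : ℚ) ≠ 0 := by exact_mod_cast (by omega : u ≠ 0)
    exact neg_ne_zero.2 this
  have h4 : TS (-(k : ℚ)) (X - C (t : ℚ)) = PowerSeries.X + PowerSeries.C (-(u : ℚ)) := by
    rw [map_sub, TS_X, TS_C, add_sub_assoc, ← map_sub, huq]
    congr 2
    ring
  have h5 : TS (-(k : ℚ)) (g /ₘ (X - C (t : ℚ)) ^ (β + 1)) = iv (-(u : ℚ)) ^ (β + 1) *
      (TS (-(k : ℚ)) g - TS (-(k : ℚ)) (g %ₘ (X - C (t : ℚ)) ^ (β + 1))) := by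
    have h6 := congrArg (TS (-(k : ℚ)))
      (Polynomial.modByMonic_add_div g ((X - C (t : ℚ)) ^ (β + 1)))
    rw [map_add, map_mul, map_pow, h4] at h6
    rw [← h6, add_sub_cancel_left, ← mul_assoc, ← mul_pow, mul_comm (iv (-(u : ℚ))),
      lin_mul_iv hune, one_pow, one_mul]
  rw [h5]
  have hpu : (padicNorm p (-(u : ℚ)))⁻¹ ≤ (p : ℚ) ^ Nat.log p n := by
    rw [padicNorm.neg]
    exact rho_N u hu1 hun
  have h6 : PB p ((p : ℚ) ^ Nat.log p n) ((p : ℚ) ^ Nat.log p n) (iv (-(u : ℚ))) :=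
    PB.iv hune hpu hpu
  have h7 := PB.pow hρ0 hρ0 h6 (β + 1)
  have h8 : PB p ((p : ℚ) ^ Nat.log p n) (((p : ℚ) ^ Nat.log p n) ^ β)
      (TS (-(k : ℚ)) g) := by
    have h9 := PB_gq (p := p) (n := n) (l := l) hn (-(k : ℤ))
    rw [show ((-(k : ℤ) : ℤ) : ℚ) = -(k : ℚ) by push_cast; ring] at h9
    exact PB.mono hρ0 h9 (one_le_pow₀ hρ)
  have h9 := PB_sub h8 (PB_rem (p := p) (n := n) (l := l) (β := β) hn t k)
  have h10 := PB.mul hρ0 (by positivity) (by positivity) h7 h9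
  have h11 : ((p : ℚ) ^ Nat.log p n) ^ (β + 1) * ((p : ℚ) ^ Nat.log p n) ^ β =
      ((p : ℚ) ^ Nat.log p n) ^ (2 * β + 1) := by
    rw [← pow_add]
    congr 1
    ring
  rwa [h11] at h10

end

lemma Iz_of_padic {y : ℚ} (h : ∀ p : ℕ, [Fact p.Prime] → padicNorm p y ≤ 1) : Iz y := by
  have h5 : y.den = 1 := PRaux.int_of_padicNorm h
  refine ⟨y.num, ?_⟩
  have h8 := Rat.mul_den_eq_num y
  rw [h5] at h8
  simpa using h8

/-- the second integrality -/
lemma q2_int {n l β e : ℕ} (hn : 1 ≤ n) (t : ℤ) {k j : ℕ} (h1 : 0 < t + k) (h2 : t + k ≤ n)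
    (he : j + 2 * β + 1 ≤ e) :
    Iz (((Dl n 1 ^ e : ℕ) : ℚ) *
      PowerSeries.coeff j (TS (-(k : ℚ)) (gq n l /ₘ (X - C (t : ℚ)) ^ (β + 1)))) := by
  apply Iz_of_padic
  intro p hp
  have hρ : (1 : ℚ) ≤ (p : ℚ) ^ Nat.log p n := rho_ge n
  have hρ0 : (0 : ℚ) < (p : ℚ) ^ Nat.log p n := by linarith
  have hD : padicNorm p (Dl n 1 : ℚ) ≤ ((p : ℚ) ^ Nat.log p n)⁻¹ := by
    by_cases hpn : p ≤ n
    · rw [pn_Dl hpn, one_mul]
    · rw [Nat.log_of_lt (by omega), pow_zero, inv_one]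
      exact padicNorm.of_nat _
  have h3 := PB_quo (p := p) (n := n) (l := l) (β := β) hn t h1 h2 j
  rw [padicNorm.mul, Nat.cast_pow, pn_pow]
  have h4 : (padicNorm p (Dl n 1 : ℚ)) ^ e ≤ (((p : ℚ) ^ Nat.log p n)⁻¹) ^ e :=
    pow_le_pow_left₀ (padicNorm.nonneg _) hD _
  have h5 : ((p : ℚ) ^ Nat.log p n) ^ (2 * β + 1) * ((p : ℚ) ^ Nat.log p n) ^ j ≤
      ((p : ℚ) ^ Nat.log p n) ^ e := by
    rw [← pow_add]
    exact pow_le_pow_right₀ hρ (by omega)
  calc _ ≤ (((p : ℚ) ^ Nat.log p n)⁻¹) ^ e * ((p : ℚ) ^ Nat.log p n) ^ e :=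
        mul_le_mul h4 (h3.trans h5) (padicNorm.nonneg _) (by positivity)
    _ = 1 := by rw [← mul_pow, inv_mul_cancel₀ hρ0.ne', one_pow]

/-- Bezout -/
lemma q_int (h2 : S_JZ) {n l γ β e : ℕ} (hn : 1 ≤ n) (hl : l ≤ γ * n) (t : ℤ) {k j : ℕ}
    (ht1 : 0 < t + k) (ht2 : t + k ≤ n) (he : j + 2 * β + 1 ≤ e) :
    Iz ((DW n e (2 * γ + 2) : ℚ) *
      PowerSeries.coeff j (TS (-(k : ℚ)) (gq n l /ₘ (X - C (t : ℚ)) ^ (β + 1)))) := by
  have h3 := q1_int h2 hn hl t (β + 1) k j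
  have h4 := q2_int (l := l) (β := β) (e := e) hn t ht1 ht2 he
  set y := PowerSeries.coeff j (TS (-(k : ℚ)) (gq n l /ₘ (X - C (t : ℚ)) ^ (β + 1))) with hy
  have h5 : (DW n e (2 * γ + 2) : ℚ) = ((Dl n 1 ^ e : ℕ) : ℚ) *
      (Nat.gcdA (Dl n 1 ^ e) (n.factorial ^ (2 * γ + 2)) : ℚ) +
      ((n.factorial ^ (2 * γ + 2) : ℕ) : ℚ) *
      (Nat.gcdB (Dl n 1 ^ e) (n.factorial ^ (2 * γ + 2)) : ℚ) := by
    have h6 := Nat.gcd_eq_gcd_ab (Dl n 1 ^ e) (n.factorial ^ (2 * γ + 2))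
    unfold DW
    exact_mod_cast h6
  rw [h5]
  have h7 := ((Iz.int (Nat.gcdA (Dl n 1 ^ e) (n.factorial ^ (2 * γ + 2)))).mul h4).add
    ((Iz.int (Nat.gcdB (Dl n 1 ^ e) (n.factorial ^ (2 * γ + 2)))).mul h3)
  convert h7 using 1
  ring

end INT

open INT in
theorem t_int (h1 : S_JI) (h2 : S_JZ) (h3 : S_TAY) : S_INT := by
  intro z h ν β B γ l q c hβ hβB hl hc hTC hz
  set n := 2 * ν + 1 with hn
  have hn1 : 1 ≤ n := by omega
  set D : ℚ := (DW n (2 * h + 2 * B) (2 * γ + 2) : ℚ) with hD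
  have hT : ∀ v ∈ Finset.range n, Iz (D * Tm h n c (gq n l) β (-(v : ℤ))) := by
    intro v hv
    rw [Finset.mem_range] at hv
    rw [h3 h n c (gq n l) β (-(v : ℤ)), mul_add]
    apply Iz.add
    · rw [Finset.mul_sum]
      apply Iz.sum
      intro l' hl'
      rw [Finset.mem_range] at hl'
      have h4 : Iz (D * PowerSeries.coeff l' (TS ((-(v : ℤ) : ℤ) : ℚ) (gq n l))) :=
        h1 n l γ (2 * h + 2 * B) l' (-(v : ℤ)) hn1 hl (by omega)
      have h5 : Iz (ev h n c (β - l') (-(v : ℤ))) := hTC v hv (β - l') (by omega)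
      have h6 := ((Iz.npow (-1) l').mul h4).mul h5
      convert h6 using 1
      push_cast
      ring
    · have h4 : Iz (∑ k ∈ nd n (-(v : ℤ)), ∑ i ∈ Finset.Icc 1 (2 * h), (c i k : ℚ) *
          (D * PowerSeries.coeff (i - 1) (TS (-(k : ℚ))
            (gq n l /ₘ (X - C ((-(v : ℤ) : ℤ) : ℚ)) ^ (β + 1))))) := by
        apply Iz.sum
        intro k hk
        unfold nd at hk
        rw [Finset.mem_filter, Finset.mem_range] at hk
        apply Iz.sum
        intro i hi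
        rw [Finset.mem_Icc] at hi
        apply (Iz.int (c i k)).mul
        exact q_int h2 hn1 hl (-(v : ℤ)) hk.2 (by omega) (by omega)
      have h5 := (Iz.npow (-1) (β + 1)).mul h4
      convert h5 using 1
      rw [mul_left_comm, Finset.mul_sum]
      push_cast
      congr 1
      apply Finset.sum_congr rfl
      intro k _
      rw [Finset.mul_sum]
      apply Finset.sum_congr rfl
      intro i _
      ring
  have hR : ∀ i ∈ Finset.Icc 1 (2 * h),
      Iz (Cb β i * (D * rh h n c (gq n l) i) * ((q : ℚ) * z (i + β))) := by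
    intro i hi
    rw [Finset.mem_Icc] at hi
    rcases Nat.even_or_odd i with h4 | h4
    · rw [rh_even hc h4 hi.1]
      simp only [mul_zero, zero_mul]
      exact Iz.zero
    · have h5 : Iz (Cb β i) := by
        unfold Cb
        exact Iz.nat _
      have h6 : Iz ((q : ℚ) * z (i + β)) :=
        hz (i + β) (h4.add_even hβ) (by omega) (by omega)
      exact (h5.mul (rh_int h1 c hn1 hl (by omega) i)).mul h6
  have h7 := (Iz.sum _ _ hR).sub ((Iz.nat q).mul (Iz.sum _ _ hT))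
  obtain ⟨M, hM⟩ := h7
  refine ⟨M, ?_⟩
  rw [← hM]
  unfold Lz
  rw [mul_sub, Finset.mul_sum, Finset.mul_sum, Finset.mul_sum]
  congr 1
  · apply Finset.sum_congr rfl
    intro i _
    ring
  · apply Finset.sum_congr rfl
    intro v _
    ring

end

end Pool.Agent.N797.PW
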