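import Pool.Agent.N797.PW.Stm
import Pool.Agent.Y926.LZ.Ker

/-!
# Project PW: the size of the jets of the multipliers at the nodes (helper755)
-/

set_option autoImplicit false

open Polynomial Pool.Agent.H337R2 Pool.Agent.W165.OZ Pool.Agent.Y926.LZ Pool.Agent.Y926.TW

namespace Pool.Agent.N797.PW

private lemma nb_bd {n k m T : ℕ} (hk : k < n) :
    Nm T 1 (TS (-(k : ℚ)) ((NB n 1 0 m).comp (yp n))) ≤ 2 ^ (n - 1 + 2 * m) := by
  have e : TS (-(k : ℚ)) ((NB n 1 0 m).comp (yp n)) =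
      PowerSeries.C ((1 / (m.factorial : ℚ)) ^ 2) * ∏ j ∈ Finset.range m,
        ((PowerSeries.X + PowerSeries.C (-(k : ℚ) + -(0 + (j : ℚ)))) *
          (PowerSeries.X + PowerSeries.C (-(k : ℚ) + (0 + (j : ℚ) + ((n : ℚ) - 1))))) := by
    unfold NB
    rw [Polynomial.mul_comp, Polynomial.C_comp, map_mul, TS_C, YB_comp, map_prod]
    congr 1
    · congr 2
      simp
    · exact Finset.prod_congr rfl fun j _ => by rw [map_mul, TS_lin, TS_lin]
  have hk' : (k : ℚ) + 1 ≤ n := by exact_mod_cast hk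
  have hk0 : (0 : ℚ) ≤ k := by positivity
  have h1 := Nm_prod (T := T) (ρ := 1) zero_le_one (Finset.range m)
    (fun j => ((k + 1 + j : ℕ) : ℚ) * ((n - 1 - k + 1 + j : ℕ) : ℚ))
    (fun j => (PowerSeries.X + PowerSeries.C (-(k : ℚ) + -(0 + (j : ℚ)))) *
          (PowerSeries.X + PowerSeries.C (-(k : ℚ) + (0 + (j : ℚ) + ((n : ℚ) - 1))))) (by
    intro j _
    have hj : (0 : ℚ) ≤ j := by positivity
    have e1 : ((n - 1 - k + 1 + j : ℕ) : ℚ) = n - k + j := by
      have : n - 1 - k + 1 + j = n - k + j := by omega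
      rw [this, Nat.cast_add, Nat.cast_sub hk.le]
    refine Nm_mul_le zero_le_one ?_ ?_
    · refine (Nm_linX zero_le_one _).trans (le_of_eq ?_)
      rw [show -(k : ℚ) + -(0 + (j : ℚ)) = -((k : ℚ) + j) by ring, abs_neg,
        abs_of_nonneg (by positivity)]
      push_cast
      ring
    · refine (Nm_linX zero_le_one _).trans (le_of_eq ?_)
      rw [abs_of_nonneg (by linarith), e1]
      ring)
  have h2 : ∏ j ∈ Finset.range m, (((k + 1 + j : ℕ) : ℚ) * ((n - 1 - k + 1 + j : ℕ) : ℚ)) =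
      (m.factorial : ℚ) ^ 2 * (((k + m).choose m * (n - 1 - k + m).choose m : ℕ) : ℚ) := by
    rw [Finset.prod_mul_distrib, ← Nat.cast_prod, ← Nat.cast_prod,
      ← Nat.ascFactorial_eq_prod_range, ← Nat.ascFactorial_eq_prod_range,
      Nat.ascFactorial_eq_factorial_mul_choose, Nat.ascFactorial_eq_factorial_mul_choose]
    push_cast
    ring
  rw [h2] at h1
  rw [e]
  have hf : (0 : ℚ) < m.factorial := by exact_mod_cast m.factorial_pos
  refine (Nm_mul_le zero_le_one (le_of_eq (Nm_C _)) h1).trans ?_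
  rw [abs_of_nonneg (by positivity), ← mul_assoc, ← mul_pow, one_div_mul_cancel hf.ne', one_pow, one_mul]
  have h3 : (k + m).choose m * (n - 1 - k + m).choose m ≤ 2 ^ (n - 1 + 2 * m) := by
    calc (k + m).choose m * (n - 1 - k + m).choose m ≤ 2 ^ (k + m) * 2 ^ (n - 1 - k + m) :=
          Nat.mul_le_mul (Nat.choose_le_two_pow _ _) (Nat.choose_le_two_pow _ _)
      _ = 2 ^ (n - 1 + 2 * m) := by
          rw [← pow_add]
          congr 1
          omega
  exact_mod_cast h3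

/-- **JB** -/
theorem t_jb : S_JB := by
  intro n l k N hn hk
  rcases Nat.eq_zero_or_pos N with rfl | hN
  · rw [Finset.range_zero, Finset.sum_empty]
    positivity
  obtain ⟨T, rfl⟩ : ∃ T, N = T + 1 := ⟨N - 1, by omega⟩
  have e1 : ∑ j ∈ Finset.range (T + 1), |PowerSeries.coeff j (TS (-(k : ℚ)) (gq n l))| =
      Nm T 1 (TS (-(k : ℚ)) (gq n l)) := by
    unfold Nm
    exact Finset.sum_congr rfl fun j _ => by rw [one_pow, mul_one]
  have e2 : TS (-(k : ℚ)) (gq n l) = TS (-(k : ℚ)) ((NB n 1 0 n).comp (yp n)) ^ (l / n) *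
      TS (-(k : ℚ)) ((NB n 1 0 (l % n)).comp (yp n)) := by
    unfold gq Gb
    rw [Polynomial.mul_comp, Polynomial.pow_comp, map_mul, map_pow]
  rw [e1, e2]
  refine (Nm_mul_le zero_le_one (Nm_pow zero_le_one (nb_bd hk) _) (nb_bd hk)).trans ?_
  have h1 : (2 : ℕ) ^ ((n - 1 + 2 * n) * (l / n)) * 2 ^ (n - 1 + 2 * (l % n)) ≤ 8 ^ (l + n) := by
    rw [show (8 : ℕ) = 2 ^ 3 by norm_num, ← pow_mul, ← pow_add]
    refine Nat.pow_le_pow_right (by norm_num) ?_
    have h2 := Nat.div_add_mod l n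
    have h3 : (n - 1 + 2 * n) * (l / n) ≤ 3 * (n * (l / n)) := by
      rw [← mul_assoc]
      exact Nat.mul_le_mul_right _ (by omega)
    omega
  rw [← pow_mul]
  exact_mod_cast h1

end Pool.Agent.N797.PW
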