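import Pool.Agent.N797.PW.Stm
import Pool.Agent.Y926.TW.J_COE

/-!
# The denominators of the multipliers
-/

open Polynomial Pool.Agent.H337R2 Pool.Agent.W165.OZ Pool.Agent.Y926.LZ Pool.Agent.Y926.TW Filter

namespace Pool.Agent.N797.PW

noncomputable section

/-- the integer block -/
def ZB (n m : ℕ) : ℤ[X] :=
  ∏ j ∈ Finset.range m, ((X + C (-(j : ℤ))) * (X + C ((j : ℤ) + ((n : ℤ) - 1))))

lemma ZB_map (n m : ℕ) :
    (ZB n m).map (Int.castRingHom ℚ) = (YB n 0 m).comp (yp n) := by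
  rw [YB_comp]
  unfold ZB
  rw [Polynomial.map_prod]
  apply Finset.prod_congr rfl
  intro j _
  rw [Polynomial.map_mul, Polynomial.map_add, Polynomial.map_add, Polynomial.map_X,
    Polynomial.map_C, Polynomial.map_C]
  simp

lemma NB_map (n m N : ℕ) (hm : m ≤ N) : ∃ G : ℤ[X],
    C ((N.factorial : ℚ) ^ 2) * (NB n 1 0 m).comp (yp n) = G.map (Int.castRingHom ℚ) := by
  obtain ⟨a, ha⟩ := Nat.factorial_dvd_factorial hm
  refine ⟨C ((a : ℤ) ^ 2) * ZB n m, ?_⟩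
  rw [Polynomial.map_mul, ZB_map, Polynomial.map_C]
  unfold NB
  rw [Polynomial.mul_comp, Polynomial.C_comp, ← mul_assoc, ← map_mul]
  congr 2
  have h0 : (m.factorial : ℚ) ≠ 0 := by exact_mod_cast (Nat.factorial_pos m).ne'
  rw [ha]
  push_cast
  field_simp
  simp

theorem t_jz : S_JZ := by
  intro n l γ hn hl
  obtain ⟨G1, h1⟩ := NB_map n n n le_rfl
  obtain ⟨G2, h2⟩ := NB_map n (l % n) n (Nat.mod_lt l hn).le
  have hq : l / n ≤ γ := by
    rw [Nat.div_le_iff_le_mul_add_pred hn]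
    nlinarith
  obtain ⟨s, hs⟩ := Nat.exists_eq_add_of_le hq
  refine ⟨C ((n.factorial : ℤ) ^ (2 * s)) * (G1 ^ (l / n) * G2), ?_⟩
  rw [Polynomial.map_mul, Polynomial.map_mul, Polynomial.map_pow, ← h1, ← h2, Polynomial.map_C]
  unfold gq Gb
  rw [Polynomial.mul_comp, Polynomial.pow_comp, mul_pow, ← map_pow]
  have h3 : (C ((n.factorial : ℚ) ^ (2 * γ + 2)) : ℚ[X]) =
      C ((Int.castRingHom ℚ) ((n.factorial : ℤ) ^ (2 * s))) *
        (C (((n.factorial : ℚ) ^ 2) ^ (l / n)) * C ((n.factorial : ℚ) ^ 2)) := by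
    rw [← map_mul, ← map_mul]
    congr 1
    rw [hs]
    simp
    ring
  rw [h3]
  ring

/-- jets of integer polynomials at integers -/
lemma TS_int (G : ℤ[X]) (x : ℤ) : ∃ F : PowerSeries ℤ,
    TS (x : ℚ) (G.map (Int.castRingHom ℚ)) = PowerSeries.map (Int.castRingHom ℚ) F := by
  induction G using Polynomial.induction_on' with
  | add p q hp hq =>
    obtain ⟨a, ha⟩ := hp
    obtain ⟨b, hb⟩ := hq
    exact ⟨a + b, by rw [Polynomial.map_add, map_add, map_add, ha, hb]⟩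
  | monomial m a =>
    refine ⟨PowerSeries.C a * (PowerSeries.X + PowerSeries.C x) ^ m, ?_⟩
    rw [Polynomial.map_monomial, ← Polynomial.C_mul_X_pow_eq_monomial, map_mul, map_pow, TS_C, TS_X,
      map_mul, map_pow, map_add, PowerSeries.map_C, PowerSeries.map_C, PowerSeries.map_X]
    simp

lemma coeff_TS_int (G : ℤ[X]) (x : ℤ) (i : ℕ) :
    ∃ M : ℤ, PowerSeries.coeff i (TS (x : ℚ) (G.map (Int.castRingHom ℚ))) = M := by
  obtain ⟨F, hF⟩ := TS_int G x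
  exact ⟨PowerSeries.coeff i F, by rw [hF]; simp⟩

theorem t_ji : S_JI := by
  intro n l γ e i x hn hl hi
  have h1 : ∃ M : ℤ, (Dl n 1 : ℚ) ^ e * PowerSeries.coeff i (TS (x : ℚ) (gq n l)) = M := by
    obtain ⟨M, hM⟩ := t_coe n e 1 l l i (x : ℚ) hn le_rfl ⟨x, by simp⟩ le_rfl hi
    refine ⟨M, ?_⟩
    rw [← hM]
    unfold gq
    simp
  have h2 : ∃ M : ℤ, (n.factorial : ℚ) ^ (2 * γ + 2) *
      PowerSeries.coeff i (TS (x : ℚ) (gq n l)) = M := by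
    obtain ⟨G, hG⟩ := t_jz n l γ hn hl
    obtain ⟨M, hM⟩ := coeff_TS_int G x i
    refine ⟨M, ?_⟩
    rw [← hM, ← hG, map_mul, TS_C, PowerSeries.coeff_C_mul]
  obtain ⟨M1, h1⟩ := h1
  obtain ⟨M2, h2⟩ := h2
  have h3 := Nat.gcd_eq_gcd_ab (Dl n 1 ^ e) (n.factorial ^ (2 * γ + 2))
  refine ⟨M1 * Nat.gcdA (Dl n 1 ^ e) (n.factorial ^ (2 * γ + 2)) +
    M2 * Nat.gcdB (Dl n 1 ^ e) (n.factorial ^ (2 * γ + 2)), ?_⟩
  have h4 : (DW n e (2 * γ + 2) : ℚ) = (Dl n 1 : ℚ) ^ e *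
      Nat.gcdA (Dl n 1 ^ e) (n.factorial ^ (2 * γ + 2)) + (n.factorial : ℚ) ^ (2 * γ + 2) *
      Nat.gcdB (Dl n 1 ^ e) (n.factorial ^ (2 * γ + 2)) := by
    unfold DW
    have h5 : (((Dl n 1 ^ e).gcd (n.factorial ^ (2 * γ + 2)) : ℕ) : ℚ) =
      (((Dl n 1 ^ e).gcd (n.factorial ^ (2 * γ + 2)) : ℕ) : ℤ) := by push_cast; ring
    rw [h5, h3]
    push_cast
    ring
  rw [h4]
  push_cast
  rw [← h1, ← h2]
  ring

end

end Pool.Agent.N797.PW
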