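import Pool.Agent.N797.PW.Stm
import Pool.Agent.W165.OZ.DL

/-!
# NUM: the numerical condition of Siegel's lemma holds for large `ν`
-/

open Polynomial Pool.Agent.H337R2 Pool.Agent.W165.OZ Pool.Agent.Y926.LZ Pool.Agent.Y926.TW Filter

namespace Pool.Agent.N797.PW

noncomputable section

lemma num_Dl_pos (n : ℕ) : 0 < Dl n 1 := by
  unfold Dl
  refine Finset.prod_pos fun p hp => ?_
  exact pow_pos (Finset.mem_filter.1 hp).2.pos _

/-- the size of the common denominator -/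
lemma num_Dl_le : ∀ᶠ n : ℕ in atTop, Dl n 1 ≤ 2 ^ (4 * n) := by
  have h1 : (fun x : ℝ => Real.log x) =o[atTop] fun x : ℝ => x ^ ((1 : ℝ) / 2) :=
    isLittleO_log_rpow_atTop (by norm_num)
  have h2 := (h1.def (c := Real.log 4) (Real.log_pos (by norm_num))).natCast_atTop
  filter_upwards [h2, eventually_ge_atTop 1] with n hn hn1
  have hn' : (1 : ℝ) ≤ n := by exact_mod_cast hn1
  have h3 := t_dl n 1 hn1 le_rfl
  rw [Nat.cast_one, one_mul] at h3
  have h4 : (0 : ℝ) < (Dl n 1 : ℝ) := by exact_mod_cast num_Dl_pos n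
  have h7 : (Dl n 1 : ℝ) ≤ 16 ^ n := by
    rw [← Real.log_le_log_iff h4 (by positivity), Real.log_pow]
    have h5 : Real.log (16 : ℝ) = 2 * Real.log 4 := by
      rw [show (16 : ℝ) = 4 ^ 2 by norm_num, Real.log_pow]
      norm_num
    rw [h5]
    have h6 : Real.sqrt n * Real.log n ≤ n * Real.log 4 := by
      rw [Real.norm_of_nonneg (Real.log_nonneg hn'), Real.norm_of_nonneg (by positivity),
        ← Real.sqrt_eq_rpow] at hn
      calc Real.sqrt n * Real.log n ≤ Real.sqrt n * (Real.log 4 * Real.sqrt n) := by gcongr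
        _ = (Real.sqrt n * Real.sqrt n) * Real.log 4 := by ring
        _ = _ := by rw [Real.mul_self_sqrt (by positivity)]
    linarith
  have h8 : Dl n 1 ≤ 16 ^ n := by exact_mod_cast h7
  rw [pow_mul]
  exact h8

/-- linear growth against exponential growth -/
lemma num_lin (c : ℕ) : ∀ᶠ n : ℕ in atTop, c * n ≤ 2 ^ n := by
  filter_upwards [eventually_ge_atTop (4 * c)] with n hn
  have h1 : n / 2 + 1 ≤ 2 ^ (n / 2) := Nat.lt_two_pow_self
  have h2 : n - n / 2 + 1 ≤ 2 ^ (n - n / 2) := Nat.lt_two_pow_self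
  have h3 : 2 ^ n = 2 ^ (n / 2) * 2 ^ (n - n / 2) := by
    rw [← pow_add]
    congr 1
    omega
  rw [h3]
  refine le_trans ?_ (Nat.mul_le_mul h1 h2)
  have h4 : n + 1 ≤ 2 * (n / 2 + 1) := by omega
  have h5 : n + 1 ≤ 2 * (n - n / 2 + 1) := by omega
  have h6 : (n + 1) * (n + 1) ≤ (2 * (n / 2 + 1)) * (2 * (n - n / 2 + 1)) := Nat.mul_le_mul h4 h5
  have h7 : 4 * c * n ≤ n * n := Nat.mul_le_mul_right _ hn
  nlinarith

lemma num_add_one {a b : ℕ} (h : a ≤ b) (hb : 1 ≤ b) : a + 1 ≤ 2 * b := by omega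

/-- the first factor -/
lemma num_f1 {n D w x d : ℕ} (hn : 1 ≤ n) (hD : D ≤ 2 ^ (d * n)) (h4 : 4 * n ≤ 2 ^ n) :
    2 ^ (x * n) * (2 * (n * D * 8 ^ ((w + 1) * n))) + 1 ≤ 2 ^ ((x + d + 3 * (w + 1) + 1) * n) := by
  have h1 : 2 ^ (x * n) * (2 * (n * D * 8 ^ ((w + 1) * n))) ≤
      2 ^ (x * n) * (2 * (n * 2 ^ (d * n) * 8 ^ ((w + 1) * n))) := by gcongr
  have h2 := num_add_one h1 (Nat.one_le_iff_ne_zero.2 (by positivity))
  refine h2.trans ?_
  have h3 : 2 * (2 ^ (x * n) * (2 * (n * 2 ^ (d * n) * 8 ^ ((w + 1) * n)))) =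
      (4 * n) * 2 ^ ((x + d + 3 * (w + 1)) * n) := by
    rw [show (8 : ℕ) = 2 ^ 3 by norm_num, ← pow_mul,
      show (x + d + 3 * (w + 1)) * n = x * n + d * n + 3 * ((w + 1) * n) by ring, pow_add, pow_add]
    ring
  rw [h3, show (x + d + 3 * (w + 1) + 1) * n = n + (x + d + 3 * (w + 1)) * n by ring, pow_add]
  exact Nat.mul_le_mul_right _ h4

/-- the second factor -/
lemma num_f2 {n D h B x R : ℕ} (hn : 1 ≤ n) (hh : 1 ≤ h) (hD : D ≤ 2 ^ (4 * (R * n)))
    (h4 : (8 * h * 2 ^ (2 * h + B)) * n ≤ 2 ^ n) :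
    2 ^ (x * n) * (2 * (n * (2 * h) * 2 ^ (2 * h + B) * D ^ (2 * h + B))) + 1 ≤
      2 ^ ((x + 4 * R * (2 * h + B) + 1) * n) := by
  have h1 : 2 ^ (x * n) * (2 * (n * (2 * h) * 2 ^ (2 * h + B) * D ^ (2 * h + B))) ≤
      2 ^ (x * n) * (2 * (n * (2 * h) * 2 ^ (2 * h + B) * (2 ^ (4 * (R * n))) ^ (2 * h + B))) := by
    gcongr
  have h2 := num_add_one h1 (Nat.one_le_iff_ne_zero.2 (by positivity))
  refine h2.trans ?_
  have h3 : 2 * (2 ^ (x * n) * (2 * (n * (2 * h) * 2 ^ (2 * h + B) *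
      (2 ^ (4 * (R * n))) ^ (2 * h + B)))) =
      ((8 * h * 2 ^ (2 * h + B)) * n) * 2 ^ ((x + 4 * R * (2 * h + B)) * n) := by
    rw [← pow_mul, show (x + 4 * R * (2 * h + B)) * n = x * n + 4 * (R * n) * (2 * h + B) by ring,
      pow_add]
    ring
  rw [h3, show (x + 4 * R * (2 * h + B) + 1) * n = n + (x + 4 * R * (2 * h + B)) * n by ring,
    pow_add 2 n]
  exact Nat.mul_le_mul_right _ h4

/-- **NUM** -/
theorem t_num (hG : S_GCD) : S_NUM := by
  intro h r B w x J hJ hK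
  have hN : Tendsto (fun ν : ℕ => 2 * ν + 1) atTop atTop :=
    tendsto_atTop_mono (fun ν => by show ν ≤ _; omega) tendsto_id
  have hN' : Tendsto (fun ν : ℕ => (r + 1) * (2 * ν + 1)) atTop atTop :=
    tendsto_atTop_mono (fun ν => by
      have : 1 * (2 * ν + 1) ≤ (r + 1) * (2 * ν + 1) := Nat.mul_le_mul_right _ (by omega)
      show ν ≤ _
      omega) tendsto_id
  have hG' := hG (2 * h) (2 * w + 2) w J hJ
  filter_upwards [hN.eventually num_Dl_le, hN'.eventually num_Dl_le, hN.eventually hG',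
    hN.eventually (num_lin 4), hN.eventually (num_lin (8 * h * 2 ^ (2 * h + B))),
    hN.eventually (eventually_ge_atTop (x * h))] with ν e1 e2 e3 e4 e5 e6
  have hh : 1 ≤ h := by
    rcases Nat.eq_zero_or_pos h with h0 | h0
    · rw [h0, mul_zero] at hK
      exact absurd hK (Nat.not_lt_zero _)
    · exact h0
  unfold SgNum
  obtain ⟨n, hn⟩ : ∃ n, n = 2 * ν + 1 := ⟨_, rfl⟩
  rw [← hn] at e1 e2 e3 e4 e5 e6 ⊢
  have hn1 : 1 ≤ n := by omega
  have e3' : DW n (2 * h) (2 * w + 2) ≤ 2 ^ ((2 * w + 4 * J * (2 * w + 2) + 1) * n) := by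
    exact_mod_cast e3
  have f1 := num_f1 (w := w) (x := x) hn1 e3' e4
  have f2 := num_f2 (B := B) (x := x) (R := r + 1) hn1 hh e2 e5
  have g1 : (2 ^ (x * n) * (2 * (n * DW n (2 * h) (2 * w + 2) * 8 ^ ((w + 1) * n))) + 1) ^
      (w * n + 1) ≤ 2 ^ ((w + 1) * (x + 5 * w + 8 * J * (w + 1) + 5) * (n * n)) := by
    calc _ ≤ (2 ^ ((x + (2 * w + 4 * J * (2 * w + 2) + 1) + 3 * (w + 1) + 1) * n)) ^ (w * n + 1) :=
          Nat.pow_le_pow_left f1 _
      _ ≤ (2 ^ ((x + (2 * w + 4 * J * (2 * w + 2) + 1) + 3 * (w + 1) + 1) * n)) ^ ((w + 1) * n) :=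
          Nat.pow_le_pow_right (by positivity) (by nlinarith)
      _ = _ := by
          rw [← pow_mul]
          congr 1
          ring
  have g2 : (2 ^ (x * n) * (2 * (n * (2 * h) * 2 ^ (2 * h + B) *
      Dl ((r + 1) * n) 1 ^ (2 * h + B))) + 1) ^ (r * n * B) ≤
      2 ^ (r * B * (x + 4 * (r + 1) * (2 * h + B) + 1) * (n * n)) := by
    calc _ ≤ (2 ^ ((x + 4 * (r + 1) * (2 * h + B) + 1) * n)) ^ (r * n * B) :=
          Nat.pow_le_pow_left f2 _
      _ = _ := by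
          rw [← pow_mul]
          congr 1
          ring
  have g3 : (Dl n 1 ^ (2 * h + B)) ^ (n * B) ≤ 2 ^ (4 * B * (2 * h + B) * (n * n)) := by
    calc _ ≤ ((2 ^ (4 * n)) ^ (2 * h + B)) ^ (n * B) :=
          Nat.pow_le_pow_left (Nat.pow_le_pow_left e1 _) _
      _ = _ := by
          rw [← pow_mul, ← pow_mul]
          congr 1
          ring
  have h1 := Nat.mul_le_mul (Nat.mul_le_mul g1 g2) g3
  rw [← pow_add, ← pow_add, ← add_mul, ← add_mul] at h1
  refine lt_of_le_of_lt h1 ?_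
  have h2 : ((w + 1) * (x + 5 * w + 8 * J * (w + 1) + 5) + r * B * (x + 4 * (r + 1) * (2 * h + B) + 1) +
      4 * B * (2 * h + B)) * (n * n) ≤ x * n * (2 * h * ν) := by
    have h3 := Nat.mul_le_mul_right (n * n) (Nat.succ_le_of_lt hK)
    rw [Nat.succ_mul] at h3
    have h4 : x * h * n ≤ n * n := Nat.mul_le_mul_right _ e6
    have h5 : x * n * (2 * h * ν) + x * h * n = x * h * (n * n) := by
      rw [hn]
      ring
    omega
  have h3 : 1 ≤ ν := by
    by_contra h0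
    have h0' : ν = 0 := by omega
    rw [h0', mul_zero, mul_zero] at h2
    have hn' : n = 1 := by omega
    rw [hn', mul_one, mul_one] at h2
    have h6 : (1 : ℕ) ≤ (w + 1) * (x + 5 * w + 8 * J * (w + 1) + 5) :=
      Nat.mul_pos (by omega) (by omega)
    omega
  calc 2 ^ (((w + 1) * (x + 5 * w + 8 * J * (w + 1) + 5) +
        r * B * (x + 4 * (r + 1) * (2 * h + B) + 1) + 4 * B * (2 * h + B)) * (n * n))
      ≤ 2 ^ (x * n * (2 * h * ν)) := Nat.pow_le_pow_right (by norm_num) h2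
    _ = (2 ^ (x * n)) ^ (2 * h * ν) := by rw [← pow_mul]
    _ < (2 ^ (x * n) + 1) ^ (2 * h * ν) := by
        apply Nat.pow_lt_pow_left (Nat.lt_succ_self _)
        positivity

end

end Pool.Agent.N797.PW
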