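import Pool.Agent.N797.PW.Stm

/-!
# Project PW: the pigeonhole principle with equations and congruences (helper755)
-/

set_option autoImplicit false

open Polynomial Filter

namespace Pool.Agent.N797.PW

private lemma pig_term (a y : ℤ) (H : ℕ) (h0 : 0 ≤ y) (h1 : y ≤ H) :
    0 ≤ a * y + H * max (-a) 0 ∧ a * y + H * max (-a) 0 ≤ H * |a| := by
  rcases le_total 0 a with h | h
  · rw [max_eq_right (by linarith), abs_of_nonneg h]
    constructor
    · positivity
    · nlinarith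
  · rw [max_eq_left (by linarith), abs_of_nonpos h]
    constructor
    · nlinarith
    · nlinarith

/-- **PIG** -/
theorem t_pig : S_PIG := by
  intro ι κ μ _ _ _ f g V m H hV hm hcard
  classical
  -- bounds for the shifted forms
  have hb : ∀ (x : ι → Fin (H + 1)) (j : κ),
      0 ≤ ∑ i, (f j i * ((x i : ℕ) : ℤ) + H * max (-f j i) 0) ∧
      ∑ i, (f j i * ((x i : ℕ) : ℤ) + H * max (-f j i) 0) ≤ H * V j := by
    intro x j
    have hx : ∀ i, 0 ≤ (((x i : ℕ) : ℤ)) ∧ (((x i : ℕ) : ℤ)) ≤ H := fun i =>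
      ⟨Int.natCast_nonneg _, by exact_mod_cast Nat.lt_succ_iff.1 (x i).2⟩
    constructor
    · exact Finset.sum_nonneg fun i _ => (pig_term _ _ H (hx i).1 (hx i).2).1
    · calc ∑ i, (f j i * ((x i : ℕ) : ℤ) + H * max (-f j i) 0) ≤ ∑ i, (H : ℤ) * |f j i| :=
            Finset.sum_le_sum fun i _ => (pig_term _ _ H (hx i).1 (hx i).2).2
        _ = H * ∑ i, |f j i| := by rw [Finset.mul_sum]
        _ ≤ H * V j := mul_le_mul_of_nonneg_left (hV j) (Int.natCast_nonneg _)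
  have hmod : ∀ (x : ι → Fin (H + 1)) (j : μ),
      0 ≤ (∑ i, g j i * ((x i : ℕ) : ℤ)) % (m j : ℤ) ∧
      (∑ i, g j i * ((x i : ℕ) : ℤ)) % (m j : ℤ) < m j := by
    intro x j
    have h1 : (0 : ℤ) < m j := by exact_mod_cast hm j
    exact ⟨Int.emod_nonneg _ h1.ne', Int.emod_lt_of_pos _ h1⟩
  let Φ : (ι → Fin (H + 1)) → ((j : κ) → Fin (H * V j + 1)) × ((j : μ) → Fin (m j)) := fun x =>
    (fun j => ⟨(∑ i, (f j i * ((x i : ℕ) : ℤ) + H * max (-f j i) 0)).toNat, by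
      have := hb x j
      rw [Int.toNat_lt this.1]
      push_cast
      linarith [this.2]⟩,
     fun j => ⟨((∑ i, g j i * ((x i : ℕ) : ℤ)) % (m j : ℤ)).toNat, by
      have := hmod x j
      rw [Int.toNat_lt this.1]
      exact this.2⟩)
  have hlt : Fintype.card (((j : κ) → Fin (H * V j + 1)) × ((j : μ) → Fin (m j))) <
      Fintype.card (ι → Fin (H + 1)) := by
    rw [Fintype.card_prod, Fintype.card_pi, Fintype.card_pi, Fintype.card_fun]
    simp only [Fintype.card_fin]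
    exact hcard
  obtain ⟨x₁, x₂, hne, hΦ⟩ := Fintype.exists_ne_map_eq_of_card_lt Φ hlt
  have hΦ1 : ∀ j, ∑ i, f j i * ((x₁ i : ℕ) : ℤ) = ∑ i, f j i * ((x₂ i : ℕ) : ℤ) := by
    intro j
    have h1 := congrArg (fun p => ((p.1 j : ℕ) : ℤ)) hΦ
    simp only [Φ] at h1
    rw [Int.toNat_of_nonneg (hb x₁ j).1, Int.toNat_of_nonneg (hb x₂ j).1,
      Finset.sum_add_distrib, Finset.sum_add_distrib] at h1
    linarith
  have hΦ2 : ∀ j, (∑ i, g j i * ((x₁ i : ℕ) : ℤ)) % (m j : ℤ) =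
      (∑ i, g j i * ((x₂ i : ℕ) : ℤ)) % (m j : ℤ) := by
    intro j
    have h1 := congrArg (fun p => ((p.2 j : ℕ) : ℤ)) hΦ
    simp only [Φ] at h1
    rw [Int.toNat_of_nonneg (hmod x₁ j).1, Int.toNat_of_nonneg (hmod x₂ j).1] at h1
    exact h1
  refine ⟨fun i => ((x₁ i : ℕ) : ℤ) - ((x₂ i : ℕ) : ℤ), ?_, ?_, ?_, ?_⟩
  · intro h
    apply hne
    funext i
    have h1 := congrFun h i
    simp only [Pi.zero_apply] at h1
    have h2 : (x₁ i : ℕ) = (x₂ i : ℕ) := by omega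
    exact Fin.ext h2
  · intro i
    have h1 := (x₁ i).2
    have h2 := (x₂ i).2
    show |((x₁ i : ℕ) : ℤ) - ((x₂ i : ℕ) : ℤ)| ≤ (H : ℤ)
    rw [abs_le]
    constructor <;> omega
  · intro j
    simp only [mul_sub, Finset.sum_sub_distrib]
    rw [hΦ1 j, sub_self]
  · intro j
    simp only [mul_sub, Finset.sum_sub_distrib]
    exact Int.ModEq.dvd (hΦ2 j).symm

end Pool.Agent.N797.PW
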