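import Pool.Agent.N797.PW.Stm

/-!
# PW/POLE (helper391): the functions `η` are not differences

The identity is divided by the denominators and summed over the shifts; near `0` only the terms `1/t^(β+1)` are
unbounded.
-/

open Polynomial Pool.Agent.H337R2 Pool.Agent.W165.OZ Pool.Agent.Y926.LZ Pool.Agent.Y926.TW Filter

namespace Pool.Agent.N797.PW

noncomputable section

namespace Pole391

open scoped Topology

/-! ### Auxiliary facts on punctured neighbourhoods -/

lemma pole_ne (P : ℚ[X]) (hP : P ≠ 0) (x : ℚ) : ∀ᶠ t in 𝓝[≠] x, P.eval t ≠ 0 := by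
  have h : ∀ᶠ t in cofinite, P.eval t ≠ 0 := by
    have := Polynomial.finite_setOfPred_isRoot hP
    exact this.compl_mem_cofinite
  exact (nhdsNE_le_cofinite x) h

/-- the function has a finite limit at `0` -/
def Rg (F : ℚ → ℚ) : Prop := ∃ L : ℚ, Tendsto F (𝓝[≠] 0) (𝓝 L)

lemma Rg.add {F G : ℚ → ℚ} (hF : Rg F) (hG : Rg G) : Rg fun t => F t + G t := by
  obtain ⟨a, ha⟩ := hF
  obtain ⟨b, hb⟩ := hG
  exact ⟨a + b, ha.add hb⟩

lemma Rg.sub {F G : ℚ → ℚ} (hF : Rg F) (hG : Rg G) : Rg fun t => F t - G t := by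
  obtain ⟨a, ha⟩ := hF
  obtain ⟨b, hb⟩ := hG
  exact ⟨a - b, ha.sub hb⟩

lemma Rg.cmul {F : ℚ → ℚ} (c : ℚ) (hF : Rg F) : Rg fun t => c * F t := by
  obtain ⟨a, ha⟩ := hF
  exact ⟨c * a, ha.const_mul c⟩

lemma Rg.sum {α : Type*} (s : Finset α) (F : α → ℚ → ℚ) (h : ∀ i ∈ s, Rg (F i)) :
    Rg fun t => ∑ i ∈ s, F i t := by
  choose! L hL using h
  exact ⟨∑ i ∈ s, L i, tendsto_finsetSum s hL⟩

lemma Rg.of_cont {F : ℚ → ℚ} (h : ContinuousAt F 0) : Rg F :=
  ⟨F 0, h.tendsto.mono_left nhdsWithin_le_nhds⟩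

lemma Rg.congr {F G : ℚ → ℚ} (hF : Rg F) (h : ∀ᶠ t in 𝓝[≠] (0 : ℚ), F t = G t) : Rg G := by
  obtain ⟨a, ha⟩ := hF
  exact ⟨a, ha.congr' h⟩

lemma rg_inv (i : ℚ) (hi : i ≠ 0) (e : ℕ) : Rg fun t => 1 / (t + i) ^ e := by
  apply Rg.of_cont
  have : (0 + i) ^ e ≠ 0 := pow_ne_zero _ (by simpa using hi)
  fun_prop (disch := assumption)

lemma rg_quot (u v : ℚ[X]) (a : ℚ) (h : v.eval a ≠ 0) : Rg fun t => u.eval (t + a) / v.eval (t + a) := by
  apply Rg.of_cont
  have : v.eval (0 + a) ≠ 0 := by simpa using h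
  have h1 : ContinuousAt (fun t : ℚ => u.eval (t + a)) 0 :=
    (u.continuous.comp (continuous_id.add continuous_const)).continuousAt
  have h2 : ContinuousAt (fun t : ℚ => v.eval (t + a)) 0 :=
    (v.continuous.comp (continuous_id.add continuous_const)).continuousAt
  exact h1.div h2 this

/-- a polynomial in `1/t` without constant term, with exponents `b + 2l + 1`, which has a limit at `0`
vanishes -/
lemma pole_unique (b M : ℕ) (κ : ℕ → ℚ)
    (h : Rg fun t => ∑ l ∈ Finset.range M, κ l * (1 / t ^ (b + 2 * l + 1))) :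
    ∀ l < M, κ l = 0 := by
  induction M with
  | zero => intro l hl; omega
  | succ M ih =>
    have hM : κ M = 0 := by
      obtain ⟨L, hL⟩ := h
      have h1 : Tendsto (fun t : ℚ => t ^ (b + 2 * M + 1) *
          ∑ l ∈ Finset.range (M + 1), κ l * (1 / t ^ (b + 2 * l + 1))) (𝓝[≠] 0) (𝓝 (0 * L)) := by
        refine Tendsto.mul ?_ hL
        have : Tendsto (fun t : ℚ => t ^ (b + 2 * M + 1)) (𝓝 0) (𝓝 ((0 : ℚ) ^ (b + 2 * M + 1))) :=
          (continuous_pow _).tendsto 0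
        rw [zero_pow (by omega)] at this
        exact this.mono_left nhdsWithin_le_nhds
      have h2 : Tendsto (fun t : ℚ => ∑ l ∈ Finset.range (M + 1), κ l * t ^ (2 * (M - l)))
          (𝓝[≠] 0) (𝓝 (∑ l ∈ Finset.range (M + 1), κ l * (0 : ℚ) ^ (2 * (M - l)))) := by
        have : Continuous fun t : ℚ => ∑ l ∈ Finset.range (M + 1), κ l * t ^ (2 * (M - l)) := by
          fun_prop
        exact (this.tendsto 0).mono_left nhdsWithin_le_nhds
      have h3 : (fun t : ℚ => t ^ (b + 2 * M + 1) *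
          ∑ l ∈ Finset.range (M + 1), κ l * (1 / t ^ (b + 2 * l + 1))) =ᶠ[𝓝[≠] 0]
          fun t : ℚ => ∑ l ∈ Finset.range (M + 1), κ l * t ^ (2 * (M - l)) := by
        filter_upwards [self_mem_nhdsWithin] with t ht
        have ht' : t ≠ 0 := ht
        rw [Finset.mul_sum]
        refine Finset.sum_congr rfl fun l hl => ?_
        have hl' : l ≤ M := by
          have := Finset.mem_range.1 hl
          omega
        have e : b + 2 * M + 1 = 2 * (M - l) + (b + 2 * l + 1) := by omega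
        rw [e, pow_add]
        field_simp
      have h4 := tendsto_nhds_unique (h1.congr' h3) h2
      rw [zero_mul, Finset.sum_range_succ, Finset.sum_eq_zero, zero_add] at h4
      · simpa using h4.symm
      · intro l hl
        have := Finset.mem_range.1 hl
        rw [zero_pow (by omega), mul_zero]
    intro l hl
    rcases Nat.lt_succ_iff_lt_or_eq.1 hl with h' | h'
    · refine ih ?_ l h'
      refine h.congr (Eventually.of_forall fun t => ?_)
      rw [Finset.sum_range_succ, hM, zero_mul, add_zero]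
    · rw [h', hM]


lemma etW_eval (n B β : ℕ) (h : β + 1 ≤ B) (t : ℚ) (h1 : t - 1 ≠ 0) (h2 : t + (n - 1) ≠ 0) :
    (etW n B β).eval t = (t - 1) ^ B * (t + (n - 1)) ^ B *
      (1 / (t - 1) ^ (β + 1) + 1 / (t + (n - 1)) ^ (β + 1)) := by
  obtain ⟨d, rfl⟩ := Nat.exists_eq_add_of_le h
  have e : β + 1 + d - β - 1 = d := by omega
  simp only [etW, eval_add, eval_mul, eval_pow, eval_sub, eval_X, eval_C, e]
  rw [pow_add, pow_add]
  field_simp
  ring

/-- the identity for the values -/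
lemma pole_val {n b M : ℕ} {κ : ℕ → ℚ} {u v : ℚ[X]}
    (h : PjW n (b + 2 * M) * (u * sh 1 v - sh 1 u * v) +
      (∑ l ∈ Finset.range M, C (κ l) * etW n (b + 2 * M) (b + 2 * l)) * v * sh 1 v = 0)
    {t : ℚ} (h1 : t - 1 ≠ 0) (h2 : t + (n - 1) ≠ 0) (h3 : v.eval t ≠ 0)
    (h4 : v.eval (t - 1) ≠ 0) :
    u.eval t / v.eval t - u.eval (t - 1) / v.eval (t - 1) =
      - ∑ l ∈ Finset.range M, κ l * (1 / (t - 1) ^ (b + 2 * l + 1) +
        1 / (t + (n - 1)) ^ (b + 2 * l + 1)) := by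
  have h5 := congrArg (Polynomial.eval t) h
  have h6 : (∑ l ∈ Finset.range M, C (κ l) * etW n (b + 2 * M) (b + 2 * l)).eval t =
      (t - 1) ^ (b + 2 * M) * (t + (n - 1)) ^ (b + 2 * M) *
      ∑ l ∈ Finset.range M, κ l * (1 / (t - 1) ^ (b + 2 * l + 1) +
        1 / (t + (n - 1)) ^ (b + 2 * l + 1)) := by
    rw [eval_finsetSum, Finset.mul_sum]
    refine Finset.sum_congr rfl fun l hl => ?_
    have := Finset.mem_range.1 hl
    rw [eval_mul, eval_C, etW_eval n _ _ (by omega) t h1 h2]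
    ring
  have h7 : ∀ p : ℚ[X], (sh 1 p).eval t = p.eval (t - 1) := fun p => by simp [sh]
  rw [eval_add, eval_mul, eval_mul, eval_mul, h6, eval_sub, eval_mul, eval_mul, h7, h7,
    eval_zero] at h5
  simp only [PjW, eval_mul, eval_pow, eval_sub, eval_add, eval_X, eval_C] at h5
  set S := ∑ l ∈ Finset.range M, κ l * (1 / (t - 1) ^ (b + 2 * l + 1) +
        1 / (t + (n - 1)) ^ (b + 2 * l + 1)) with hS
  have h8 : (t - 1) ^ (b + 2 * M) ≠ 0 := pow_ne_zero _ h1
  have h9 : (t + ((n : ℚ) - 1)) ^ (b + 2 * M) ≠ 0 := pow_ne_zero _ h2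
  have h10 : (u.eval t * v.eval (t - 1) - u.eval (t - 1) * v.eval t) +
      S * (v.eval t * v.eval (t - 1)) = 0 := by
    have : (t - 1) ^ (b + 2 * M) * (t + ((n : ℚ) - 1)) ^ (b + 2 * M) *
      ((u.eval t * v.eval (t - 1) - u.eval (t - 1) * v.eval t) +
      S * (v.eval t * v.eval (t - 1))) = 0 := by
      rw [← h5]
      ring
    rcases mul_eq_zero.1 this with h' | h'
    · exact absurd h' (mul_ne_zero h8 h9)
    · exact h'
  rw [div_sub_div _ _ h3 h4, div_eq_iff (mul_ne_zero h3 h4)]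
  linear_combination h10

/-- the telescoping sum -/
lemma pole_sum {n b M : ℕ} {κ : ℕ → ℚ} {u v : ℚ[X]}
    (h : PjW n (b + 2 * M) * (u * sh 1 v - sh 1 u * v) +
      (∑ l ∈ Finset.range M, C (κ l) * etW n (b + 2 * M) (b + 2 * l)) * v * sh 1 v = 0)
    (N : ℕ) {t : ℚ} (h1 : ∀ i : ℕ, i < 2 * N → t + (i - N) ≠ 0)
    (h2 : ∀ i : ℕ, i < 2 * N → t + (i - N + n) ≠ 0)
    (h3 : ∀ i : ℕ, i ≤ 2 * N → v.eval (t + (i - N)) ≠ 0) :
    u.eval (t + N) / v.eval (t + N) - u.eval (t + -N) / v.eval (t + -N) =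
      - ∑ i ∈ Finset.range (2 * N), ∑ l ∈ Finset.range M, κ l *
        (1 / (t + (i - N)) ^ (b + 2 * l + 1) + 1 / (t + (i - N + n)) ^ (b + 2 * l + 1)) := by
  have key := Finset.sum_range_sub (fun i : ℕ => u.eval (t + (i - N)) / v.eval (t + (i - N)))
    (2 * N)
  have e1 : t + (((2 * N : ℕ) : ℚ) - N) = t + N := by
    push_cast
    ring
  have e2 : t + (((0 : ℕ) : ℚ) - N) = t + -N := by
    push_cast
    ring
  simp only [e1, e2] at key
  rw [← key, ← Finset.sum_neg_distrib]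
  refine Finset.sum_congr rfl fun i hi => ?_
  have hi' := Finset.mem_range.1 hi
  have e3 : t + (((i + 1 : ℕ) : ℚ) - N) - 1 = t + (i - N) := by
    push_cast
    ring
  have e4 : t + (((i + 1 : ℕ) : ℚ) - N) + (n - 1) = t + (i - N + n) := by
    push_cast
    ring
  have := pole_val h (t := t + (((i + 1 : ℕ) : ℚ) - N)) (by rw [e3]; exact h1 i hi')
    (by rw [e4]; exact h2 i hi') (h3 (i + 1) (by omega)) (by rw [e3]; exact h3 i (by omega))
  rw [e3, e4] at this
  exact this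

lemma exists_shift (v : ℚ[X]) (hv : v ≠ 0) (n : ℕ) :
    ∃ N : ℕ, n ≤ N ∧ v.eval (N : ℚ) ≠ 0 ∧ v.eval (-(N : ℚ)) ≠ 0 := by
  by_contra hcon
  push Not at hcon
  have hw : v * v.comp (-X) ≠ 0 := by
    refine mul_ne_zero hv fun h => hv ?_
    have := congrArg (fun p : ℚ[X] => p.comp (-X)) h
    simpa [comp_assoc] using this
  refine hw (Polynomial.eq_zero_of_infinite_isRoot _ ?_)
  refine Set.Infinite.mono (s := (fun N : ℕ => (N : ℚ)) '' Set.Ici n) ?_ ?_
  · rintro _ ⟨N, hN, rfl⟩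
    by_cases h : v.eval (N : ℚ) = 0
    · simp [IsRoot, h]
    · have := hcon N hN h
      simp [IsRoot, this]
  · exact (Set.Ici_infinite n).image (Nat.cast_injective.injOn)

/-- one of the terms of a finite sum of fractions is not regular -/
lemma rg_sum_shift (N : ℕ) (a : ℚ) (i₀ : ℕ) (hi₀ : i₀ < 2 * N) (ha : (i₀ : ℚ) + a = 0) (e : ℕ) :
    Rg fun t => ∑ i ∈ Finset.range (2 * N), 1 / (t + (i + a)) ^ e - 1 / t ^ e := by
  have h : Rg fun t => ∑ i ∈ (Finset.range (2 * N)).erase i₀, 1 / (t + (i + a)) ^ e := by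
    refine Rg.sum _ _ fun i hi => ?_
    refine rg_inv _ ?_ e
    have hne := Finset.ne_of_mem_erase hi
    intro h
    apply hne
    have : (i : ℚ) = i₀ := by linarith
    exact_mod_cast this
  refine h.congr (Eventually.of_forall fun t => ?_)
  rw [← Finset.add_sum_erase _ _ (Finset.mem_range.2 hi₀), ha, add_zero]
  ring

theorem pole_aux {n b M : ℕ} (κ : ℕ → ℚ) (u v : ℚ[X]) (hn : 1 ≤ n) (hv : v ≠ 0)
    (h : PjW n (b + 2 * M) * (u * sh 1 v - sh 1 u * v) +
      (∑ l ∈ Finset.range M, C (κ l) * etW n (b + 2 * M) (b + 2 * l)) * v * sh 1 v = 0) :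
    ∀ l < M, κ l = 0 := by
  obtain ⟨N, hN, hN1, hN2⟩ := exists_shift v hv n
  refine pole_unique b M κ ?_
  have r1 : Rg fun t => u.eval (t + N) / v.eval (t + N) := rg_quot u v N hN1
  have r2 : Rg fun t => u.eval (t + -N) / v.eval (t + -N) := rg_quot u v (-N) hN2
  have r3 : ∀ l ∈ Finset.range M, Rg fun t => κ l *
      ((∑ i ∈ Finset.range (2 * N), 1 / (t + (i + -(N : ℚ))) ^ (b + 2 * l + 1) -
        1 / t ^ (b + 2 * l + 1)) +
      (∑ i ∈ Finset.range (2 * N), 1 / (t + (i + (-(N : ℚ) + n))) ^ (b + 2 * l + 1) -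
        1 / t ^ (b + 2 * l + 1))) := by
    intro l _
    refine Rg.cmul _ (Rg.add ?_ ?_)
    · exact rg_sum_shift N (-N) N (by omega) (by ring) _
    · refine rg_sum_shift N (-N + n) (N - n) (by omega) ?_ _
      rw [Nat.cast_sub hN]
      ring
  have r4 := Rg.cmul (-(1 / 2) : ℚ) (Rg.add (Rg.sub r1 r2) (Rg.sum _ _ r3))
  refine r4.congr ?_
  have c1 : ∀ i ∈ Finset.range (2 * N + 1), ∀ᶠ t in 𝓝[≠] (0 : ℚ), t + ((i : ℚ) - N) ≠ 0 := by
    intro i _
    have := pole_ne (X + C ((i : ℚ) - N)) (X_add_C_ne_zero _) 0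
    filter_upwards [this] with t ht
    simpa using ht
  have c2 : ∀ i ∈ Finset.range (2 * N + 1), ∀ᶠ t in 𝓝[≠] (0 : ℚ), t + ((i : ℚ) - N + n) ≠ 0 := by
    intro i _
    have := pole_ne (X + C ((i : ℚ) - N + n)) (X_add_C_ne_zero _) 0
    filter_upwards [this] with t ht
    simpa using ht
  have c3 : ∀ i ∈ Finset.range (2 * N + 1), ∀ᶠ t in 𝓝[≠] (0 : ℚ),
      v.eval (t + ((i : ℚ) - N)) ≠ 0 := by
    intro i _
    have hc : v.comp (X + C ((i : ℚ) - N)) ≠ 0 := by
      intro h0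
      apply hv
      have := congrArg (fun p : ℚ[X] => p.comp (X - C ((i : ℚ) - N))) h0
      simpa [comp_assoc] using this
    have := pole_ne _ hc 0
    filter_upwards [this] with t ht
    simpa using ht
  rw [← Filter.eventually_all_finset] at c1 c2 c3
  filter_upwards [c1, c2, c3] with t h1 h2 h3
  have key := pole_sum h N (t := t) (fun i hi => h1 i (Finset.mem_range.2 (by omega)))
    (fun i hi => h2 i (Finset.mem_range.2 (by omega)))
    (fun i hi => h3 i (Finset.mem_range.2 (by omega)))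
  rw [key, Finset.sum_comm, ← Finset.sum_neg_distrib, ← Finset.sum_add_distrib, Finset.mul_sum]
  refine Finset.sum_congr rfl fun l _ => ?_
  have e1 : ∀ i : ℕ, t + ((i : ℚ) - N) = t + (i + -(N : ℚ)) := fun i => by ring
  have e2 : ∀ i : ℕ, t + ((i : ℚ) - N + n) = t + (i + (-(N : ℚ) + n)) := fun i => by ring
  simp only [e1, e2]
  rw [← Finset.mul_sum, Finset.sum_add_distrib]
  ring

end Pole391

open Pole391 in
theorem t_pole : S_POLE := by
  intro n b M κ u v hn hv h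
  have := pole_aux (n := n) (b := b) (M := M) (fun l => if hl : l < M then κ ⟨l, hl⟩ else 0) u v
    hn hv (by
      rw [← h]
      congr 3
      rw [Finset.sum_range]
      refine Finset.sum_congr rfl fun l _ => ?_
      rw [dif_pos l.2])
  funext l
  have h1 := this l l.2
  rw [dif_pos l.2] at h1
  exact h1

end

end Pool.Agent.N797.PW
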