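import Pool.Agent.N797.PW.Stm
import Pool.Agent.Y926.TW.J_REC

/-!
# RCW: the recursion of the germs (one denominator)
-/

open Polynomial Pool.Agent.H337R2 Pool.Agent.W165.OZ Pool.Agent.Y926.LZ Pool.Agent.Y926.TW Filter

namespace Pool.Agent.N797.PW

noncomputable section

/-- RCW: the recursion -/
theorem t_rcw : S_RCW := by
  intro z n h b M l k hb hh hl hk
  have hb' : Even (b + 2 * l) := hb.add (even_two_mul l)
  have h1 := t_rec z n h (b + 2 * l) 1 1 k hb' hh le_rfl le_rfl hk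
  obtain ⟨e, he⟩ : ∃ e, b + 2 * M - (b + 2 * l) - 1 = e := ⟨_, rfl⟩
  have hB : b + 2 * M = (b + 2 * l + 1) + e := by omega
  obtain ⟨U, hU⟩ : ∃ U : ℚ[X], U = (X - C 1) ^ e * (X + C ((n : ℚ) - 1)) ^ e := ⟨_, rfl⟩
  have hDv : Dv 1 = {⟨1, 1⟩} := by decide
  have hn : (n : ℚ) - 2 + 1 = n - 1 := by ring
  have hP1 : Pf1 (b + 2 * l) 1 1 = (X - C 1) ^ (b + 2 * l + 1) := by
    unfold Pf1
    simp
  have hP2 : Pf2 n (b + 2 * l) 1 1 = (X + C ((n : ℚ) - 1)) ^ (b + 2 * l + 1) := by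
    unfold Pf2
    rw [Nat.cast_one, div_one, hn]
  have hPi : Pi1 n (b + 2 * l) 1 = (X - C 1) ^ (b + 2 * l + 1) *
      (X + C ((n : ℚ) - 1)) ^ (b + 2 * l + 1) := by
    unfold Pi1
    rw [hDv, Finset.prod_singleton, hP1, hP2]
  have het : eta n (b + 2 * l) 1 1 = (X + C ((n : ℚ) - 1)) ^ (b + 2 * l + 1) +
      (X - C 1) ^ (b + 2 * l + 1) := by
    unfold Y926.TW.eta
    rw [hDv, Finset.Icc_self, Finset.sum_singleton, hP1, hP2]
    simp
  have e1 : PjW n (b + 2 * M) = Pi1 n (b + 2 * l) 1 * U := by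
    unfold PjW
    rw [hPi, hU, hB, pow_add (X - C 1), pow_add (X + C ((n : ℚ) - 1))]
    ring
  have e2 : etW n (b + 2 * M) (b + 2 * l) = eta n (b + 2 * l) 1 1 * U := by
    unfold etW
    rw [het, hU, he, hB, pow_add (X - C 1), pow_add (X + C ((n : ℚ) - 1))]
    ring
  rw [e1, e2, map_mul, map_mul]
  have e3 : TS (-(k : ℚ)) (Pi1 n (b + 2 * l) 1) * TS (-(k : ℚ)) U *
      (bs z n h (b + 2 * l) 1 (k + 1) - bs z n h (b + 2 * l) 1 k) -
      TS (-(k : ℚ)) (eta n (b + 2 * l) 1 1) * TS (-(k : ℚ)) U =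
      (TS (-(k : ℚ)) (Pi1 n (b + 2 * l) 1) *
        (bs z n h (b + 2 * l) 1 (k + 1) - bs z n h (b + 2 * l) 1 k) -
        TS (-(k : ℚ)) (eta n (b + 2 * l) 1 1)) * TS (-(k : ℚ)) U := by ring
  rw [e3]
  exact h1.mul_right _

end

end Pool.Agent.N797.PW
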