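import Pool.Agent.N797.PW.Stm

/-!
# Project PW: the real form is the sum of the terms, theorem `t_real : S_REAL` (helper803)
-/

set_option autoImplicit false

open Polynomial Pool.Agent.H337R2 Pool.Agent.W165.OZ Pool.Agent.Y926.LZ Pool.Agent.Y926.TW Filter

namespace Pool.Agent.N797.PW

namespace JReal

lemma sum_Icc_one {M : Type*} [AddCommMonoid M] (f : ℕ → M) (N : ℕ) :
    ∑ i ∈ Finset.Icc 1 N, f i = ∑ j ∈ Finset.range N, f (j + 1) := by
  have h1 : Finset.Icc 1 N = Finset.Ico (0 + 1) (N + 1) := by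
    ext x
    rw [Finset.mem_Icc, Finset.mem_Ico]
    omega
  rw [h1, ← Finset.sum_Ico_add', Finset.range_eq_Ico]

/-- the coefficient of a product in terms of the shifts of one factor -/
lemma coeff_prod (G : PowerSeries ℚ) (w : ℕ → ℚ) {m N : ℕ} (hm : m < N) :
    PowerSeries.coeff m (G * PowerSeries.mk w) =
      ∑ j ∈ Finset.range N, w j * PowerSeries.coeff m (PowerSeries.X ^ j * G) := by
  rw [mul_comm, PowerSeries.coeff_mul,
    Finset.Nat.sum_antidiagonal_eq_sum_range_succ
      (fun a b => PowerSeries.coeff a (PowerSeries.mk w) * PowerSeries.coeff b G) m]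
  have h1 : Finset.range (m + 1) ⊆ Finset.range N := by
    intro x hx
    rw [Finset.mem_range] at hx ⊢
    omega
  rw [← Finset.sum_subset h1]
  · refine Finset.sum_congr rfl fun j hj => ?_
    rw [Finset.mem_range] at hj
    rw [PowerSeries.coeff_mk, PowerSeries.coeff_X_pow_mul', if_pos (by omega)]
  · intro j _ hj
    rw [Finset.mem_range] at hj
    rw [PowerSeries.coeff_X_pow_mul', if_neg (by omega), mul_zero]

/-- the term of the node `k` and the order `i` -/
noncomputable def F (g : ℚ[X]) (β k i : ℕ) (u : ℚ) : ℚ :=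
  PowerSeries.coeff (i - 1) (TS (-(k : ℚ)) g * gx β u)

lemma F_eq (g : ℚ[X]) (β k i N : ℕ) (hi : 1 ≤ i) (hN : i ≤ N) (u : ℚ) :
    F g β k i u = ∑ i' ∈ Finset.Icc 1 N, Cb β i' *
      PowerSeries.coeff (i - 1) (PowerSeries.X ^ (i' - 1) * TS (-(k : ℚ)) g) * (1 / u ^ (i' + β)) := by
  unfold F gx
  rw [coeff_prod _ _ (show i - 1 < N by omega), sum_Icc_one]
  refine Finset.sum_congr rfl fun j _ => ?_
  rw [Nat.add_sub_cancel]
  ring

lemma zr_hasSum {e : ℕ} (he : 2 ≤ e) :
    HasSum (fun s : ℕ => (1 / ((s : ℝ) + 1) ^ e)) (zr e) := by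
  have h1 : Summable fun s : ℕ => 1 / ((s : ℝ) + 1) ^ e := by
    have h2 := (Real.summable_one_div_nat_pow (p := e)).2 (by omega)
    have h3 := (summable_nat_add_iff 1).2 h2
    refine h3.congr fun s => ?_
    push_cast
    rfl
  exact h1.hasSum

lemma F_hasSum (g : ℚ[X]) (β k i N : ℕ) (hβ : 2 ≤ β) (hi : 1 ≤ i) (hN : i ≤ N) :
    HasSum (fun s : ℕ => ((F g β k i ((s : ℚ) + 1) : ℚ) : ℝ))
      (∑ i' ∈ Finset.Icc 1 N, ((Cb β i' *
        PowerSeries.coeff (i - 1) (PowerSeries.X ^ (i' - 1) * TS (-(k : ℚ)) g) : ℚ) : ℝ) *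
          zr (i' + β)) := by
  have h1 : HasSum (fun s : ℕ => ∑ i' ∈ Finset.Icc 1 N, ((Cb β i' *
        PowerSeries.coeff (i - 1) (PowerSeries.X ^ (i' - 1) * TS (-(k : ℚ)) g) : ℚ) : ℝ) *
          (1 / ((s : ℝ) + 1) ^ (i' + β)))
      (∑ i' ∈ Finset.Icc 1 N, ((Cb β i' *
        PowerSeries.coeff (i - 1) (PowerSeries.X ^ (i' - 1) * TS (-(k : ℚ)) g) : ℚ) : ℝ) *
          zr (i' + β)) :=
    hasSum_sum fun i' _ => (zr_hasSum (by omega)).mul_left _
  refine h1.congr_fun fun s => ?_
  rw [F_eq g β k i N hi hN]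
  push_cast
  rfl

end JReal

open JReal in
theorem t_real : S_REAL := by
  intro h n c g β hβ
  have hterm : ∀ t : ℕ, ((Tm h n c g β ((t : ℤ) + 1) : ℚ) : ℝ) =
      ∑ k ∈ Finset.range n, ∑ i ∈ Finset.Icc 1 (2 * h), (c i k : ℝ) *
        ((F g β k i (((t + k : ℕ) : ℚ) + 1) : ℚ) : ℝ) := by
    intro t
    unfold Tm
    have h1 : nd n ((t : ℤ) + 1) = Finset.range n := by
      unfold nd
      refine Finset.filter_true_of_mem fun k _ => ?_
      positivity
    rw [h1]
    push_cast
    refine Finset.sum_congr rfl fun k _ => Finset.sum_congr rfl fun i _ => ?_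
    unfold F
    congr 5
    ring
  have hs : HasSum (fun t : ℕ => ((Tm h n c g β ((t : ℤ) + 1) : ℚ) : ℝ))
      (∑ k ∈ Finset.range n, ∑ i ∈ Finset.Icc 1 (2 * h), (c i k : ℝ) *
        ((∑ i' ∈ Finset.Icc 1 (2 * h), ((Cb β i' *
          PowerSeries.coeff (i - 1) (PowerSeries.X ^ (i' - 1) * TS (-(k : ℚ)) g) : ℚ) : ℝ) *
            zr (i' + β)) - ∑ s ∈ Finset.range k, ((F g β k i ((s : ℚ) + 1) : ℚ) : ℝ))) := by
    refine HasSum.congr_fun ?_ hterm
    refine hasSum_sum fun k _ => hasSum_sum fun i hi => HasSum.mul_left _ ?_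
    obtain ⟨hi1, hi2⟩ := Finset.mem_Icc.1 hi
    exact (hasSum_nat_add_iff' (f := fun s : ℕ => ((F g β k i ((s : ℚ) + 1) : ℚ) : ℝ)) k).2
      (F_hasSum g β k i (2 * h) hβ hi1 hi2)
  have hval : (∑ k ∈ Finset.range n, ∑ i ∈ Finset.Icc 1 (2 * h), (c i k : ℝ) *
        ((∑ i' ∈ Finset.Icc 1 (2 * h), ((Cb β i' *
          PowerSeries.coeff (i - 1) (PowerSeries.X ^ (i' - 1) * TS (-(k : ℚ)) g) : ℚ) : ℝ) *
            zr (i' + β)) - ∑ s ∈ Finset.range k, ((F g β k i ((s : ℚ) + 1) : ℚ) : ℝ))) =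
      LR h n c g β := by
    unfold LR
    simp only [mul_sub, Finset.sum_sub_distrib]
    congr 1
    · -- the coefficients of the zeta values
      have e1 : ∀ i' ∈ Finset.Icc 1 (2 * h), ((Cb β i' * rh h n c g i' : ℚ) : ℝ) * zr (i' + β) =
          ∑ k ∈ Finset.range n, ∑ i ∈ Finset.Icc 1 (2 * h), (c i k : ℝ) *
            (((Cb β i' * PowerSeries.coeff (i - 1)
              (PowerSeries.X ^ (i' - 1) * TS (-(k : ℚ)) g) : ℚ) : ℝ) * zr (i' + β)) := by
        intro i' _
        unfold rh LF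
        push_cast
        rw [Finset.mul_sum, Finset.sum_mul]
        refine Finset.sum_congr rfl fun k _ => ?_
        rw [Finset.mul_sum, Finset.sum_mul]
        refine Finset.sum_congr rfl fun i _ => ?_
        ring
      rw [Finset.sum_congr rfl e1]
      symm
      refine Eq.trans Finset.sum_comm ?_
      refine Finset.sum_congr rfl fun k _ => ?_
      refine Finset.sum_comm.trans (Finset.sum_congr rfl fun i _ => ?_)
      rw [Finset.mul_sum]
    · -- the finite part
      have e2 : ∀ v ∈ Finset.range n, ((Tm h n c g β (-(v : ℤ)) : ℚ) : ℝ) =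
          ∑ k ∈ Finset.range n, if v < k then ∑ i ∈ Finset.Icc 1 (2 * h), (c i k : ℝ) *
            ((F g β k i (((k - 1 - v : ℕ) : ℚ) + 1) : ℚ) : ℝ) else 0 := by
        intro v _
        unfold Tm nd
        rw [Finset.sum_filter]
        push_cast
        refine Finset.sum_congr rfl fun k _ => ?_
        by_cases hvk : v < k
        · have h1 : 0 < -(v : ℤ) + (k : ℤ) := by omega
          rw [if_pos h1, if_pos hvk]
          push_cast
          refine Finset.sum_congr rfl fun i _ => ?_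
          unfold F
          have h2 : ((-(v : ℤ) : ℤ) : ℚ) + (k : ℚ) = ((k - 1 - v : ℕ) : ℚ) + 1 := by
            have h3 : (k - 1 - v : ℕ) + 1 + v = k := by omega
            have h4 : ((k - 1 - v : ℕ) : ℚ) + 1 + v = k := by exact_mod_cast h3
            push_cast
            linarith
          have h5 : -(v : ℚ) + (k : ℚ) = ((k - 1 - v : ℕ) : ℚ) + 1 := by
            rw [← h2]
            push_cast
            rfl
          rw [h5]
        · have h1 : ¬ 0 < -(v : ℤ) + (k : ℤ) := by omega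
          rw [if_neg h1, if_neg hvk]
          simp
      rw [Finset.sum_congr rfl e2]
      symm
      refine Eq.trans Finset.sum_comm ?_
      refine Finset.sum_congr rfl fun k hk => ?_
      rw [Finset.mem_range] at hk
      rw [← Finset.sum_filter]
      have h1 : (Finset.range n).filter (fun v => v < k) = Finset.range k := by
        ext v
        rw [Finset.mem_filter, Finset.mem_range, Finset.mem_range]
        omega
      rw [h1]
      refine Finset.sum_comm.trans (Finset.sum_congr rfl fun i _ => ?_)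
      rw [← Finset.mul_sum]
      have h9 := Finset.sum_range_reflect (fun s : ℕ => ((F g β k i ((s : ℚ) + 1) : ℚ) : ℝ)) k
      rw [← h9]
  rw [← hval]
  exact hs

end Pool.Agent.N797.PW
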