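import Pool.Agent.N797.PW.Stm
import Pool.Agent.Y926.TW.J_ZE

/-!
# The semilinear argument (job PW/SEMI, helper414)

If the Casoratian type determinant vanishes, then a rational combination of the functions `η l / Pj`
is a difference of a rational function.
-/

open Polynomial Pool.Agent.H337R2 Pool.Agent.W165.OZ Pool.Agent.Y926.LZ Pool.Agent.Y926.TW

namespace Pool.Agent.N797.PW

noncomputable section

namespace SEMI

/-- the field of rational functions -/
abbrev KK : Type := FractionRing ℚ[X]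

/-- the embedding of the polynomials -/
def aa : ℚ[X] →+* KK := algebraMap ℚ[X] KK

theorem aa_inj : Function.Injective aa := IsFractionRing.injective ℚ[X] KK

theorem aa_ne {p : ℚ[X]} (h : p ≠ 0) : aa p ≠ 0 := fun h' => h (aa_inj (by rw [h', map_zero]))

/-- the shift as an automorphism of the ring of polynomials -/
def se : ℚ[X] ≃+* ℚ[X] :=
  RingEquiv.ofRingHom (ZE.shh 1) (Polynomial.compRingHom (X + C (1 : ℚ)))
    (by
      ext x
      · simp [ZE.shh]
      · simp [ZE.shh])
    (by
      ext x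
      · simp [ZE.shh]
      · simp [ZE.shh])

theorem se_apply (p : ℚ[X]) : se p = sh 1 p := rfl

/-- the shift as an automorphism of the field -/
def tt : KK ≃+* KK := IsFractionRing.ringEquivOfRingEquiv se

theorem tt_aa (p : ℚ[X]) : tt (aa p) = aa (sh 1 p) := by
  unfold tt aa
  rw [IsFractionRing.ringEquivOfRingEquiv_algebraMap, se_apply]

theorem sh1 (i : ℕ) (p : ℚ[X]) : sh 1 (sh i p) = sh (i + 1) p := by
  rw [ZE.sh_sh, add_comm]

/-- fixed elements are constants -/
theorem fixed {y : KK} (h : tt y = y) : ∃ c : ℚ, y = aa (C c) := by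
  obtain ⟨p, q, hq, rfl⟩ := IsFractionRing.div_surjective (A := ℚ[X]) y
  have hq0 : q ≠ 0 := nonZeroDivisors.ne_zero hq
  change tt (aa p / aa q) = aa p / aa q at h
  change ∃ c : ℚ, aa p / aa q = aa (C c)
  rw [map_div₀, tt_aa, tt_aa] at h
  have hq1 : sh 1 q ≠ 0 := ZE.sh_ne hq0
  rw [div_eq_div_iff (aa_ne hq1) (aa_ne hq0), ← map_mul, ← map_mul] at h
  have h1 : sh 1 p * q = p * sh 1 q := aa_inj h
  -- the large integers
  obtain ⟨N, hN⟩ : ∃ N : ℕ, ∀ n : ℕ, N ≤ n → q.eval (n : ℚ) ≠ 0 := by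
    by_contra hcon
    push Not at hcon
    apply hq0
    apply Polynomial.eq_zero_of_infinite_isRoot
    have hinf : (((↑) : ℕ → ℚ) '' {n : ℕ | q.eval (n : ℚ) = 0}).Infinite := by
      apply Set.Infinite.image
      · exact fun a _ b _ hab => Nat.cast_injective hab
      · rw [Set.infinite_iff_exists_gt]
        intro a
        obtain ⟨n, hn, hn'⟩ := hcon (a + 1)
        exact ⟨n, hn', by omega⟩
    refine hinf.mono ?_
    rintro _ ⟨n, hn, rfl⟩
    exact hn
  set c : ℚ := p.eval (N : ℚ) / q.eval (N : ℚ) with hc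
  have h2 : ∀ i : ℕ, p.eval ((N + i : ℕ) : ℚ) = c * q.eval ((N + i : ℕ) : ℚ) := by
    intro i
    induction i with
    | zero => rw [add_zero, hc, div_mul_cancel₀ _ (hN N le_rfl)]
    | succ i ih =>
      have e1 := congrArg (Polynomial.eval ((N + (i + 1) : ℕ) : ℚ)) h1
      simp only [sh, eval_mul, eval_comp, eval_sub, eval_X, eval_C] at e1
      have e2 : ((N + (i + 1) : ℕ) : ℚ) - ((1 : ℕ) : ℚ) = ((N + i : ℕ) : ℚ) := by
        push_cast
        ring
      rw [e2, ih] at e1
      have e3 := hN (N + i) (by omega)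
      have e4 : (p.eval ((N + (i + 1) : ℕ) : ℚ) - c * q.eval ((N + (i + 1) : ℕ) : ℚ)) *
          q.eval ((N + i : ℕ) : ℚ) = 0 := by
        linear_combination -e1
      rcases mul_eq_zero.1 e4 with e5 | e5
      · linarith
      · exact absurd e5 e3
  have h3 : p - C c * q = 0 := by
    apply Polynomial.eq_zero_of_infinite_isRoot
    have hinf : (Set.range fun i : ℕ => ((N + i : ℕ) : ℚ)).Infinite := by
      apply Set.infinite_range_of_injective
      intro a b hab
      have := Nat.cast_injective (R := ℚ) hab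
      omega
    refine hinf.mono ?_
    rintro _ ⟨i, rfl⟩
    show eval _ _ = 0
    rw [eval_sub, eval_mul, eval_C, h2 i, sub_self]
  refine ⟨c, ?_⟩
  rw [div_eq_iff (aa_ne hq0), ← map_mul]
  congr 1
  exact sub_eq_zero.1 h3

section main

variable {m : ℕ} (P Pj : ℚ[X]) (A η : Fin m → ℚ[X])

/-- the normalised rows -/
def vv (i : ℕ) : Fin (m + 1) → KK :=
  Fin.cons (aa (sh i P)) fun l =>
    aa (sh i (A l)) - aa (sh i P) * ∑ j ∈ Finset.range i, aa (sh j (η l)) / aa (sh j Pj)

/-- the semilinear map -/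
def Ph (x : Fin (m + 1) → KK) : Fin (m + 1) → KK :=
  Fin.cons (tt (x 0)) fun l : Fin m => tt (x l.succ) - tt (x 0) * (aa (η l) / aa Pj)

theorem vv_succ (i : ℕ) : vv P Pj A η (i + 1) = Ph Pj η (vv P Pj A η i) := by
  unfold vv Ph
  funext a
  refine Fin.cases ?_ (fun l => ?_) a
  · simp only [Fin.cons_zero]
    rw [tt_aa, sh1]
  · simp only [Fin.cons_succ, Fin.cons_zero]
    rw [map_sub, map_mul, tt_aa, tt_aa, sh1, sh1, map_sum, Finset.sum_range_succ', ZE.sh_zero,
      ZE.sh_zero]
    have e : ∀ j, tt (aa (sh j (η l)) / aa (sh j Pj)) = aa (sh (j + 1) (η l)) / aa (sh (j + 1) Pj) := by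
      intro j
      rw [map_div₀, tt_aa, tt_aa, sh1, sh1]
    simp only [e]
    ring

theorem Ph_add (x y : Fin (m + 1) → KK) : Ph Pj η (x + y) = Ph Pj η x + Ph Pj η y := by
  unfold Ph
  funext a
  refine Fin.cases ?_ (fun l => ?_) a
  · simp only [Fin.cons_zero, Pi.add_apply, map_add]
  · simp only [Fin.cons_succ, Pi.add_apply, map_add]
    ring

theorem Ph_smul (c : KK) (x : Fin (m + 1) → KK) : Ph Pj η (c • x) = tt c • Ph Pj η x := by
  unfold Ph
  funext a
  refine Fin.cases ?_ (fun l => ?_) a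
  · simp only [Fin.cons_zero, Pi.smul_apply, smul_eq_mul, map_mul]
  · simp only [Fin.cons_succ, Pi.smul_apply, smul_eq_mul, map_mul]
    ring

theorem Ph_zero : Ph Pj η (0 : Fin (m + 1) → KK) = 0 := by
  have := Ph_smul Pj η 0 (0 : Fin (m + 1) → KK)
  rw [zero_smul, map_zero, zero_smul] at this
  exact this

/-- the rows are multiples of the normalised rows -/
theorem row_eq (hPj : Pj ≠ 0) (i : ℕ) (a : Fin (m + 1)) :
    aa (rw1 P Pj A η i a) = (∏ j ∈ Finset.range i, aa (sh j Pj)) * vv P Pj A η i a := by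
  unfold rw1 vv
  refine Fin.cases ?_ (fun l => ?_) a
  · simp only [Fin.cons_zero, map_mul, map_prod]
  · simp only [Fin.cons_succ, map_sub, map_mul, map_prod, map_sum]
    have e : ∑ j ∈ Finset.range i, (∏ j' ∈ (Finset.range i).erase j, aa (sh j' Pj)) *
          aa (sh j (η l)) =
        (∏ j ∈ Finset.range i, aa (sh j Pj)) *
          ∑ j ∈ Finset.range i, aa (sh j (η l)) / aa (sh j Pj) := by
      rw [Finset.mul_sum]
      apply Finset.sum_congr rfl
      intro j hj
      rw [← Finset.mul_prod_erase (Finset.range i) (fun j => aa (sh j Pj)) hj]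
      have : aa (sh j Pj) ≠ 0 := aa_ne (ZE.sh_ne hPj)
      field_simp
    rw [e]
    ring

/-- the dual semilinear map -/
def Ps (y : Fin (m + 1) → KK) : Fin (m + 1) → KK :=
  Fin.cons (tt.symm (y 0 - ∑ l : Fin m, y l.succ * (aa (η l) / aa Pj)))
    fun l : Fin m => tt.symm (y l.succ)

theorem dot_Ph (y w : Fin (m + 1) → KK) :
    tt (∑ a, Ps Pj η y a * w a) = ∑ a, y a * Ph Pj η w a := by
  rw [Fin.sum_univ_succ, Fin.sum_univ_succ]
  unfold Ps Ph
  simp only [Fin.cons_zero, Fin.cons_succ, map_add, map_mul, map_sum, RingEquiv.apply_symm_apply]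
  rw [sub_mul, Finset.sum_mul]
  simp only [mul_sub, Finset.sum_sub_distrib]
  have e : ∑ x : Fin m, y x.succ * (aa (η x) / aa Pj) * tt (w 0) =
      ∑ x : Fin m, y x.succ * (tt (w 0) * (aa (η x) / aa Pj)) :=
    Finset.sum_congr rfl fun x _ => by ring
  rw [e]
  ring

/-- the number of nonzero coordinates -/
def cnt (y : Fin (m + 1) → KK) : ℕ := by
  classical
  exact (Finset.univ.filter fun l : Fin m => y l.succ ≠ 0).card

end main

end SEMI

open SEMI in
theorem t_semi : S_SEMI := by
  classical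
  intro m P Pj A η hP hPj hdet
  -- a relation between the rows
  obtain ⟨g, hg, hg'⟩ := Matrix.exists_vecMul_eq_zero_iff.2 hdet
  have hrel : ∀ a : Fin (m + 1), ∑ i : Fin (m + 1), aa (g i) * aa (rw1 P Pj A η i a) = 0 := by
    intro a
    have h1 := congrFun hg' a
    have h2 : ∑ i : Fin (m + 1), g i * rw1 P Pj A η i a = 0 := h1
    have h3 := congrArg aa h2
    rw [map_sum, map_zero] at h3
    rw [← h3]
    exact Finset.sum_congr rfl fun i _ => (map_mul aa _ _).symm
  set G : Fin (m + 1) → KK := fun i => aa (g i) * ∏ j ∈ Finset.range (i : ℕ), aa (sh j Pj) with hG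
  have hG0 : ∀ i, g i ≠ 0 → G i ≠ 0 := fun i hi =>
    mul_ne_zero (aa_ne hi) (Finset.prod_ne_zero_iff.2 fun j _ => aa_ne (ZE.sh_ne hPj))
  have hGrel : ∑ i : Fin (m + 1), G i • vv P Pj A η i = 0 := by
    funext a
    rw [Finset.sum_apply, Pi.zero_apply, ← hrel a]
    apply Finset.sum_congr rfl
    intro i _
    rw [row_eq P Pj A η hPj, Pi.smul_apply, smul_eq_mul, hG, mul_assoc]
  -- the largest index
  obtain ⟨i0, hi0⟩ : ∃ i, G i ≠ 0 := by
    by_contra hcon
    push Not at hcon
    apply hg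
    funext i
    by_contra hi
    exact hG0 i hi (hcon i)
  obtain ⟨r, hr, hrmax⟩ : ∃ r : Fin (m + 1), G r ≠ 0 ∧ ∀ i, r < i → G i = 0 := by
    have hne : (Finset.univ.filter fun i : Fin (m + 1) => G i ≠ 0).Nonempty :=
      ⟨i0, Finset.mem_filter.2 ⟨Finset.mem_univ _, hi0⟩⟩
    refine ⟨_, (Finset.mem_filter.1 (Finset.max'_mem _ hne)).2, ?_⟩
    intro i hi
    by_contra hcon
    exact absurd (Finset.le_max' _ i (Finset.mem_filter.2 ⟨Finset.mem_univ _, hcon⟩)) (not_le.2 hi)
  set W : Submodule KK (Fin (m + 1) → KK) :=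
    Submodule.span KK (Set.range fun i : Fin (r : ℕ) => vv P Pj A η (i : ℕ)) with hW
  have hmem : ∀ i < (r : ℕ), vv P Pj A η i ∈ W := fun i hi =>
    Submodule.subset_span ⟨⟨i, hi⟩, rfl⟩
  have hvr : vv P Pj A η (r : ℕ) ∈ W := by
    have h1 : G r • vv P Pj A η (r : ℕ) = - ∑ i ∈ Finset.univ.erase r, G i • vv P Pj A η (i : ℕ) := by
      rw [← Finset.add_sum_erase Finset.univ _ (Finset.mem_univ r)] at hGrel
      exact eq_neg_of_add_eq_zero_left hGrel
    have h2 : G r • vv P Pj A η (r : ℕ) ∈ W := by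
      rw [h1]
      refine W.neg_mem (W.sum_mem fun i hi => ?_)
      rcases lt_or_ge i r with h3 | h3
      · exact W.smul_mem _ (hmem i h3)
      · rw [hrmax i (lt_of_le_of_ne h3 (Finset.ne_of_mem_erase hi).symm), zero_smul]
        exact W.zero_mem
    have h3 := W.smul_mem (G r)⁻¹ h2
    rwa [smul_smul, inv_mul_cancel₀ hr, one_smul] at h3
  have hv0 : vv P Pj A η 0 ≠ 0 := by
    intro h
    have h1 := congrFun h 0
    unfold vv at h1
    rw [Fin.cons_zero, ZE.sh_zero, Pi.zero_apply] at h1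
    exact aa_ne hP h1
  have hr0 : 0 < (r : ℕ) := by
    rcases Nat.eq_zero_or_pos (r : ℕ) with h | h
    · exfalso
      have hW0 : W = ⊥ := by
        rw [hW, Submodule.span_eq_bot]
        rintro _ ⟨i, rfl⟩
        exact absurd i.2 (by omega)
      rw [hW0, h, Submodule.mem_bot] at hvr
      exact hv0 hvr
    · exact h
  have hPhW : ∀ x ∈ W, Ph Pj η x ∈ W := by
    intro x hx
    induction hx using Submodule.span_induction with
    | mem x hx =>
      obtain ⟨i, rfl⟩ := hx
      show Ph Pj η (vv P Pj A η (i : ℕ)) ∈ W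
      rw [← vv_succ]
      rcases Nat.lt_or_ge ((i : ℕ) + 1) r with h | h
      · exact hmem _ h
      · have : (i : ℕ) + 1 = r := by omega
        rw [this]
        exact hvr
    | zero => rw [Ph_zero]; exact W.zero_mem
    | add x y _ _ hx hy => rw [Ph_add]; exact W.add_mem hx hy
    | smul c x _ hx => rw [Ph_smul]; exact W.smul_mem _ hx
  have hWlt : W < ⊤ := by
    rw [lt_top_iff_ne_top]
    intro htop
    have h1 : Module.finrank KK W ≤ r := by
      have := finrank_range_le_card (R := KK) (fun i : Fin (r : ℕ) => vv P Pj A η (i : ℕ))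
      rw [Fintype.card_fin] at this
      exact this
    rw [htop, finrank_top, Module.finrank_fin_fun] at h1
    omega
  obtain ⟨f, hf0, hfW⟩ := Submodule.exists_le_ker_of_lt_top W hWlt
  -- the annihilator
  set S : Set (Fin (m + 1) → KK) := {y | ∀ w ∈ W, ∑ a, y a * w a = 0} with hS
  have hf1 : ∀ x : Fin (m + 1) → KK, f x = ∑ a, f (Pi.single a 1) * x a := by
    intro x
    conv_lhs => rw [← Finset.univ_sum_single x]
    rw [map_sum]
    apply Finset.sum_congr rfl
    intro a _
    have : (Pi.single a (x a) : Fin (m + 1) → KK) = x a • Pi.single a 1 := by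
      rw [← Pi.single_smul, smul_eq_mul, mul_one]
    rw [this, map_smul, smul_eq_mul, mul_comm]
  have hex : ∃ n, ∃ y ∈ S, y ≠ 0 ∧ cnt y = n := by
    refine ⟨_, fun a => f (Pi.single a 1), ?_, ?_, rfl⟩
    · intro w hw
      rw [← hf1]
      exact hfW hw
    · intro h
      apply hf0
      apply LinearMap.ext
      intro x
      rw [hf1 x, LinearMap.zero_apply]
      apply Finset.sum_eq_zero
      intro a _
      have := congrFun h a
      simp only [Pi.zero_apply] at this
      rw [this, zero_mul]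
  obtain ⟨y, hyS, hy0, hyn⟩ := Nat.find_spec hex
  have hmin : ∀ z ∈ S, cnt z < cnt y → z = 0 := by
    intro z hz hlt
    by_contra hz0
    exact Nat.find_min hex (by rw [← hyn]; exact hlt) ⟨z, hz, hz0, rfl⟩
  have hS0 : ∀ z ∈ S, (∀ l : Fin m, z l.succ = 0) → z = 0 := by
    intro z hz h
    have h1 := hz _ (hmem 0 hr0)
    rw [Fin.sum_univ_succ] at h1
    have h2 : ∑ l : Fin m, z l.succ * vv P Pj A η 0 l.succ = 0 :=
      Finset.sum_eq_zero fun l _ => by rw [h l, zero_mul]
    rw [h2, add_zero] at h1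
    have h3 : vv P Pj A η 0 0 = aa P := by
      unfold vv
      rw [Fin.cons_zero, ZE.sh_zero]
    rw [h3] at h1
    have h4 : z 0 = 0 := (mul_eq_zero.1 h1).resolve_right (aa_ne hP)
    funext a
    refine Fin.cases h4 (fun l => h l) a
  obtain ⟨l0, hl0⟩ : ∃ l0 : Fin m, y l0.succ ≠ 0 := by
    by_contra hcon
    push Not at hcon
    exact hy0 (hS0 y hyS hcon)
  -- normalise
  set y' : Fin (m + 1) → KK := (y l0.succ)⁻¹ • y with hy'
  have hy'S : y' ∈ S := by
    intro w hw
    have : ∑ a, y' a * w a = (y l0.succ)⁻¹ * ∑ a, y a * w a := by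
      rw [Finset.mul_sum]
      apply Finset.sum_congr rfl
      intro a _
      rw [hy', Pi.smul_apply, smul_eq_mul, mul_assoc]
    rw [this, hyS w hw, mul_zero]
  have hy'1 : y' l0.succ = 1 := by
    rw [hy', Pi.smul_apply, smul_eq_mul, inv_mul_cancel₀ hl0]
  have hy'z : ∀ a, y a = 0 → y' a = 0 := by
    intro a ha
    rw [hy', Pi.smul_apply, ha, smul_zero]
  have hPsS : Ps Pj η y' ∈ S := by
    intro w hw
    have h1 := dot_Ph Pj η y' w
    rw [hy'S _ (hPhW w hw)] at h1
    exact (map_eq_zero_iff tt tt.injective).1 h1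
  have hdiff : (Ps Pj η y' - y') = 0 := by
    apply hmin
    · intro w hw
      have h1 := hPsS w hw
      have h2 := hy'S w hw
      have : ∑ a, (Ps Pj η y' - y') a * w a = ∑ a, Ps Pj η y' a * w a - ∑ a, y' a * w a := by
        rw [← Finset.sum_sub_distrib]
        apply Finset.sum_congr rfl
        intro a _
        rw [Pi.sub_apply, sub_mul]
      rw [this, h1, h2, sub_self]
    · unfold cnt
      apply Finset.card_lt_card
      rw [Finset.ssubset_iff_of_subset]
      · refine ⟨l0, Finset.mem_filter.2 ⟨Finset.mem_univ _, hl0⟩, ?_⟩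
        rw [Finset.mem_filter, not_and, not_not]
        intro _
        unfold Ps
        rw [Pi.sub_apply, Fin.cons_succ, hy'1, map_one, sub_self]
      · intro l hl
        rw [Finset.mem_filter] at hl ⊢
        refine ⟨Finset.mem_univ _, fun h0 => hl.2 ?_⟩
        unfold Ps
        rw [Pi.sub_apply, Fin.cons_succ, hy'z _ h0, map_zero, sub_self]
  have heq : Ps Pj η y' = y' := sub_eq_zero.1 hdiff
  have hfix : ∀ l : Fin m, tt (y' l.succ) = y' l.succ := by
    intro l
    have h1 := congrFun heq l.succ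
    unfold Ps at h1
    rw [Fin.cons_succ] at h1
    conv_lhs => rw [← h1]
    rw [RingEquiv.apply_symm_apply]
  have hzero : y' 0 - ∑ l : Fin m, y' l.succ * (aa (η l) / aa Pj) = tt (y' 0) := by
    have h1 := congrFun heq 0
    unfold Ps at h1
    rw [Fin.cons_zero] at h1
    conv_rhs => rw [← h1]
    rw [RingEquiv.apply_symm_apply]
  choose κ hκ using fun l => fixed (hfix l)
  obtain ⟨p, v, hv, hpv⟩ := IsFractionRing.div_surjective (A := ℚ[X]) (y' 0)
  have hv0' : v ≠ 0 := nonZeroDivisors.ne_zero hv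
  change aa p / aa v = y' 0 at hpv
  refine ⟨κ, -p, v, ?_, hv0', ?_⟩
  · intro h
    have h1 := hκ l0
    rw [hy'1, h, Pi.zero_apply, C_0, map_zero] at h1
    exact one_ne_zero h1
  · apply aa_inj
    rw [map_zero]
    rw [← hpv, map_div₀, tt_aa, tt_aa] at hzero
    have hv1 : aa v ≠ 0 := aa_ne hv0'
    have hv2 : aa (sh 1 v) ≠ 0 := aa_ne (ZE.sh_ne hv0')
    have hPj' : aa Pj ≠ 0 := aa_ne hPj
    have hs : ∑ l : Fin m, y' l.succ * (aa (η l) / aa Pj) = (∑ l, aa (C (κ l)) * aa (η l)) / aa Pj := by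
      rw [Finset.sum_div]
      apply Finset.sum_congr rfl
      intro l _
      rw [hκ l]
      ring
    rw [hs] at hzero
    have hsn : sh 1 (-p) = - sh 1 p := by
      rw [ZE.sh_eq, map_neg, ← ZE.sh_eq]
    rw [hsn]
    simp only [map_add, map_mul, map_sub, map_neg, map_sum]
    field_simp at hzero
    linear_combination -hzero

end

end Pool.Agent.N797.PW
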