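import Pool.Agent.N797.PW.Stm
import Pool.Agent.W165.OZ.PR

/-!
# SG: Siegel's lemma for the conditions of project PW
-/

open Polynomial Pool.Agent.H337R2 Pool.Agent.W165.OZ Pool.Agent.Y926.LZ Pool.Agent.Y926.TW Filter

namespace Pool.Agent.N797.PW

noncomputable section

namespace JSG

open Finset

/-! ### The common multiple -/

theorem dvd_Dl {u N : ℕ} (h1 : 1 ≤ u) (h2 : u ≤ N) : u ∣ Dl N 1 := by
  have h3 : u = ∏ p ∈ u.primeFactors, p ^ u.factorization p :=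
    (Nat.prod_factorization_pow_eq_self (by omega)).symm
  unfold Dl
  rw [one_mul]
  have h4 : u.primeFactors ⊆ (Finset.range (N + 1)).filter Nat.Prime := by
    intro p hp
    rw [mem_filter, mem_range]
    have h5 := Nat.le_of_mem_primeFactors hp
    exact ⟨by omega, Nat.prime_of_mem_primeFactors hp⟩
  conv_lhs => rw [h3]
  refine (Finset.prod_dvd_prod_of_dvd _ _ fun p hp => ?_).trans (Finset.prod_dvd_prod_of_subset _ _ _ h4)
  refine pow_dvd_pow _ ?_
  have hp' := Nat.prime_of_mem_primeFactors hp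
  refine Nat.le_log_of_pow_le hp'.one_lt ?_
  exact (Nat.ordProj_le p (by omega)).trans h2

/-- the integral entries -/
theorem ent {β i u N e : ℕ} (hu : 1 ≤ u) (huN : u ≤ N) (he : i + β ≤ e) :
    ∃ M : ℤ, (Dl N 1 : ℚ) ^ e * (Cb β i / (u : ℚ) ^ (i + β)) = M ∧
      |M| ≤ 2 ^ e * (Dl N 1 : ℤ) ^ e := by
  obtain ⟨q, hq⟩ := dvd_Dl hu huN
  have hu0 : (u : ℚ) ≠ 0 := by exact_mod_cast (by omega : u ≠ 0)
  have hch : (i - 1 + β).choose (i - 1) ≤ 2 ^ e :=
    (Nat.choose_le_two_pow _ _).trans (Nat.pow_le_pow_right (by norm_num) (by omega))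
  have hD : 0 < Dl N 1 := Pool.Agent.W165.OZ.PRaux.Dl_pos N 1
  have hq1 : 1 ≤ q := by
    rcases Nat.eq_zero_or_pos q with h | h
    · rw [h] at hq
      omega
    · exact h
  refine ⟨(((i - 1 + β).choose (i - 1) * (Dl N 1 ^ (e - (i + β)) * q ^ (i + β)) : ℕ) : ℤ), ?_, ?_⟩
  · unfold Cb
    have h1 : (Dl N 1 : ℚ) = (u : ℚ) * q := by exact_mod_cast hq
    have h2 : (Dl N 1 : ℚ) ^ e = (Dl N 1 : ℚ) ^ (e - (i + β)) * ((u : ℚ) ^ (i + β) * (q : ℚ) ^ (i + β)) := by
      rw [← mul_pow, ← h1, ← pow_add]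
      congr 1
      omega
    rw [h2]
    push_cast
    field_simp
  · rw [Nat.abs_cast]
    have h3 : q ≤ Dl N 1 := by
      rw [hq]
      exact Nat.le_mul_of_pos_left _ (by omega)
    have h4 : (i - 1 + β).choose (i - 1) * (Dl N 1 ^ (e - (i + β)) * q ^ (i + β)) ≤
        2 ^ e * Dl N 1 ^ e := by
      refine Nat.mul_le_mul hch ?_
      calc Dl N 1 ^ (e - (i + β)) * q ^ (i + β) ≤ Dl N 1 ^ (e - (i + β)) * Dl N 1 ^ (i + β) :=
            Nat.mul_le_mul_left _ (Nat.pow_le_pow_left h3 _)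
        _ = Dl N 1 ^ e := by
            rw [← pow_add]
            congr 1
            omega
    exact_mod_cast h4

/-! ### The extension of the unknowns -/

variable {h ν : ℕ}

/-- extension by zero -/
def xx (x : Fin (2 * h) × Fin ν → ℤ) (a k : ℕ) : ℤ :=
  if hh : a < 2 * h ∧ k < ν then x (⟨a, hh.1⟩, ⟨k, hh.2⟩) else 0

/-- the antisymmetric extension -/
def cx (x : Fin (2 * h) × Fin ν → ℤ) (i k : ℕ) : ℤ :=
  if 1 ≤ i ∧ i ≤ 2 * h then
    (if k < ν then xx x (i - 1) k else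
      if ν < k ∧ k ≤ 2 * ν then (-1) ^ (i + 1) * xx x (i - 1) (2 * ν - k) else 0)
  else 0

theorem cx_small (x : Fin (2 * h) × Fin ν → ℤ) {a k : ℕ} (ha : a < 2 * h) (hk : k < ν) :
    cx x (a + 1) k = xx x a k := by
  unfold cx
  rw [if_pos ⟨by omega, by omega⟩, if_pos hk, Nat.add_sub_cancel]

theorem cx_mid (x : Fin (2 * h) × Fin ν → ℤ) (i : ℕ) : cx x i ν = 0 := by
  unfold cx
  split_ifs with h1 h2 h3
  · omega
  · omega
  · rfl
  · rfl

theorem cx_large (x : Fin (2 * h) × Fin ν → ℤ) {a k : ℕ} (ha : a < 2 * h) (hk : k < ν) :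
    cx x (a + 1) (2 * ν - k) = (-1) ^ a * xx x a k := by
  unfold cx
  rw [if_pos ⟨by omega, by omega⟩, if_neg (by omega), if_pos (by omega), Nat.add_sub_cancel]
  have h1 : 2 * ν - (2 * ν - k) = k := by omega
  rw [h1, pow_succ, pow_succ]
  ring

theorem cx_as (x : Fin (2 * h) × Fin ν → ℤ) : AS h (2 * ν + 1) (cx x) := by
  intro k hk i h1 h2
  obtain ⟨a, rfl⟩ : ∃ a, i = a + 1 := ⟨i - 1, by omega⟩
  have hs : ∀ z : ℤ, z = (-1) ^ (a + 1 + 1) * ((-1) ^ a * z) := by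
    intro z
    have : ((-1 : ℤ) ^ (a + 1 + 1)) * (-1) ^ a = 1 := by
      rw [← pow_add, show a + 1 + 1 + a = 2 * (a + 1) by ring, pow_mul]
      norm_num
    rw [← mul_assoc, this, one_mul]
  have he : ((-1 : ℤ) ^ (a + 1 + 1)) = (-1) ^ a := by
    rw [pow_succ, pow_succ]
    ring
  rcases lt_trichotomy k ν with h3 | h3 | h3
  · have h4 : 2 * ν + 1 - 1 - k = 2 * ν - k := by omega
    rw [h4, cx_large x (by omega) h3, cx_small x (by omega) h3, he]
  · subst h3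
    have h4 : 2 * k + 1 - 1 - k = k := by omega
    rw [h4, cx_mid, mul_zero]
  · have h4 : 2 * ν + 1 - 1 - k = 2 * ν - k := by omega
    have h5 : k = 2 * ν - (2 * ν - k) := by omega
    have h6 : 2 * ν - k < ν := by omega
    have h7 := cx_large x (a := a) (k := 2 * ν - k) (by omega) h6
    rw [← h5] at h7
    rw [h4, cx_small x (by omega) h6, h7]
    exact hs _

theorem xx_le (x : Fin (2 * h) × Fin ν → ℤ) {H : ℕ} (hx : ∀ i, |x i| ≤ (H : ℤ)) (a k : ℕ) :
    |xx x a k| ≤ (H : ℤ) := by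
  unfold xx
  split_ifs
  · exact hx _
  · rw [abs_zero]
    positivity

theorem cx_le (x : Fin (2 * h) × Fin ν → ℤ) {H : ℕ} (hx : ∀ i, |x i| ≤ (H : ℤ)) (i k : ℕ) :
    |cx x i k| ≤ (H : ℤ) := by
  unfold cx
  split_ifs
  · exact xx_le x hx _ _
  · rw [abs_mul, abs_pow, abs_neg, abs_one, one_pow, one_mul]
    exact xx_le x hx _ _
  · rw [abs_zero]
    positivity
  · rw [abs_zero]
    positivity

theorem cx_nz (x : Fin (2 * h) × Fin ν → ℤ) (hx : x ≠ 0) : NZ h (2 * ν + 1) (cx x) := by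
  obtain ⟨⟨a, k⟩, hak⟩ : ∃ q, x q ≠ 0 := by
    by_contra hcon
    push Not at hcon
    exact hx (funext hcon)
  refine ⟨a + 1, k, by omega, by have := a.2; omega, by have := k.2; omega, ?_⟩
  rw [cx_small x a.2 k.2]
  unfold xx
  rw [dif_pos ⟨a.2, k.2⟩]
  exact hak

/-! ### The linear functionals -/

theorem sum_Icc1 (N : ℕ) (F : ℕ → ℚ) : ∑ i ∈ Icc 1 N, F i = ∑ a ∈ range N, F (a + 1) := by
  induction N with
  | zero => simp
  | succ N ih => rw [sum_Icc_succ_top (by omega), ih, sum_range_succ]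

theorem sum_range_odd (ν : ℕ) (g : ℕ → ℚ) :
    ∑ k ∈ range (2 * ν + 1), g k = ∑ k ∈ range ν, (g k + g (2 * ν - k)) + g ν := by
  have h1 : 2 * ν + 1 = ν + (ν + 1) := by ring
  rw [h1, sum_range_add, sum_range_succ' (fun x => g (ν + x)), ← sum_range_reflect
    (fun x => g (ν + (x + 1))), sum_add_distrib, Nat.add_zero, ← add_assoc]
  congr 2
  refine sum_congr rfl fun k hk => ?_
  rw [mem_range] at hk
  congr 1
  omega

/-- the coefficients of the functional in terms of the unknowns -/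
def cf (Φ : ℕ → ℕ → ℤ) (q : Fin (2 * h) × Fin ν) : ℤ :=
  Φ (q.1 + 1) q.2 + (-1) ^ (q.1 : ℕ) * Φ (q.1 + 1) (2 * ν - q.2)

theorem functional (x : Fin (2 * h) × Fin ν → ℤ) (φ : ℕ → ℕ → ℚ) (D : ℚ) (Φ : ℕ → ℕ → ℤ)
    (hΦ : ∀ i k, 1 ≤ i → i ≤ 2 * h → k < 2 * ν + 1 → D * φ i k = Φ i k) :
    D * ∑ k ∈ range (2 * ν + 1), ∑ i ∈ Icc 1 (2 * h), (cx x i k : ℚ) * φ i k =
      ((∑ q, cf Φ q * x q : ℤ) : ℚ) := by
  rw [sum_range_odd]
  have h0 : ∑ i ∈ Icc 1 (2 * h), (cx x i ν : ℚ) * φ i ν = 0 :=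
    sum_eq_zero fun i _ => by rw [cx_mid, Int.cast_zero, zero_mul]
  rw [h0, add_zero, Fintype.sum_prod_type, mul_sum]
  simp_rw [sum_Icc1, ← sum_add_distrib, mul_sum]
  rw [sum_comm, sum_range]
  push_cast
  refine sum_congr rfl fun a _ => ?_
  rw [sum_range]
  refine sum_congr rfl fun k _ => ?_
  have ha := a.2
  have hk := k.2
  rw [cx_small x ha hk, cx_large x ha hk]
  unfold cf xx
  rw [dif_pos ⟨ha, hk⟩]
  have e1 := hΦ (a + 1) k (by omega) (by omega) (by omega)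
  have e2 := hΦ (a + 1) (2 * ν - k) (by omega) (by omega) (by omega)
  push_cast
  rw [← e1, ← e2]
  ring

theorem cf_le (Φ : ℕ → ℕ → ℤ) (M : ℕ) (hM : ∀ k < 2 * ν + 1,
    ∑ i ∈ Icc 1 (2 * h), |Φ i k| ≤ (M : ℤ)) :
    ∑ q : Fin (2 * h) × Fin ν, |cf Φ q| ≤ ((2 * (ν * M) : ℕ) : ℤ) := by
  have hI : ∀ k, ∑ a : Fin (2 * h), |Φ (a + 1) k| = ∑ i ∈ Icc 1 (2 * h), |Φ i k| := by
    intro k
    have : ∀ N : ℕ, ∑ i ∈ Icc 1 N, |Φ i k| = ∑ a ∈ range N, |Φ (a + 1) k| := by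
      intro N
      induction N with
      | zero => simp
      | succ N ih => rw [sum_Icc_succ_top (by omega), ih, sum_range_succ]
    rw [this, sum_range]
  rw [Fintype.sum_prod_type_right]
  have h1 : ∀ k : Fin ν, ∑ a : Fin (2 * h), |cf Φ (a, k)| ≤ 2 * (M : ℤ) := by
    intro k
    have hk := k.2
    calc ∑ a : Fin (2 * h), |cf Φ (a, k)|
        ≤ ∑ a : Fin (2 * h), (|Φ (a + 1) k| + |Φ (a + 1) (2 * ν - k)|) := by
          refine sum_le_sum fun a _ => ?_
          unfold cf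
          refine (abs_add_le _ _).trans (le_of_eq ?_)
          rw [abs_mul, abs_pow, abs_neg, abs_one, one_pow, one_mul]
      _ = ∑ i ∈ Icc 1 (2 * h), |Φ i k| + ∑ i ∈ Icc 1 (2 * h), |Φ i (2 * ν - k)| := by
          rw [sum_add_distrib, hI, hI]
      _ ≤ 2 * (M : ℤ) := by
          have := hM k (by omega)
          have := hM (2 * ν - k) (by omega)
          omega
  refine (sum_le_sum fun k _ => h1 k).trans (le_of_eq ?_)
  rw [sum_const, card_univ, Fintype.card_fin, nsmul_eq_mul]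
  push_cast
  ring

/-- the term of `ev`, zero for the nodes on the right -/
def ph (β : ℕ) (t : ℤ) (i k : ℕ) : ℚ :=
  if 0 < t + (k : ℤ) then Cb β i / ((t : ℚ) + k) ^ (i + β) else 0

theorem ev_eq (h n : ℕ) (c : ℕ → ℕ → ℤ) (β : ℕ) (t : ℤ) :
    ev h n c β t = ∑ k ∈ range n, ∑ i ∈ Icc 1 (2 * h), (c i k : ℚ) * ph β t i k := by
  unfold ev nd
  rw [sum_filter]
  refine sum_congr rfl fun k _ => ?_
  unfold ph
  by_cases hk : 0 < t + (k : ℤ)
  · rw [if_pos hk]
    exact sum_congr rfl fun i _ => by rw [if_pos hk]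
  · rw [if_neg hk]
    symm
    exact sum_eq_zero fun i _ => by rw [if_neg hk, mul_zero]

theorem ent_ph {β i k N e : ℕ} {t : ℤ} (ht : t + k ≤ N) (he : i + β ≤ e) :
    ∃ M : ℤ, (Dl N 1 : ℚ) ^ e * ph β t i k = M ∧ |M| ≤ 2 ^ e * (Dl N 1 : ℤ) ^ e := by
  unfold ph
  by_cases hk : 0 < t + (k : ℤ)
  · obtain ⟨u, hu⟩ := Int.eq_ofNat_of_zero_le hk.le
    have h1 : (t : ℚ) + k = (u : ℚ) := by exact_mod_cast hu
    rw [if_pos hk, h1]
    exact ent (by omega) (by omega) he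
  · refine ⟨0, ?_, ?_⟩
    · rw [if_neg hk, mul_zero, Int.cast_zero]
    · rw [abs_zero]
      positivity

end JSG

open JSG Finset in
/-- SG: Siegel's lemma -/
theorem t_sg (h1 : S_PIG) (h2 : S_JI) (h3 : S_JB) : S_SG := by
  intro h ν r B w H hh hν hSg
  obtain ⟨n, hn⟩ : ∃ n, n = 2 * ν + 1 := ⟨_, rfl⟩
  obtain ⟨e, he⟩ : ∃ e, e = 2 * h + B := ⟨_, rfl⟩
  obtain ⟨D, hD⟩ : ∃ D, D = DW n (2 * h) (2 * w + 2) := ⟨_, rfl⟩
  have hD0 : 0 < D := by
    rw [hD]
    unfold DW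
    exact Nat.gcd_pos_of_pos_left _ (Nat.pow_pos (Pool.Agent.W165.OZ.PRaux.Dl_pos n 1))
  have hDl : ∀ N, 0 < Dl N 1 := fun N => Pool.Agent.W165.OZ.PRaux.Dl_pos N 1
  -- the entries of the three kinds
  have hA : ∀ l i k : ℕ, ∃ M : ℤ, l ≤ w * n → i ≤ 2 * h →
      (D : ℚ) * PowerSeries.coeff i (TS (-(k : ℚ)) (gq n l)) = M := by
    intro l i k
    by_cases hl : l ≤ w * n ∧ i ≤ 2 * h
    · obtain ⟨M, hM⟩ := h2 n l w (2 * h) i (-(k : ℤ)) (by omega) hl.1 hl.2
      refine ⟨M, fun _ _ => ?_⟩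
      rw [hD, ← hM]
      push_cast
      rfl
    · exact ⟨0, fun a b => absurd ⟨a, b⟩ hl⟩
  choose MA hMA using hA
  have hB : ∀ (N : ℕ) (t : ℤ) (β i k : ℕ), ∃ M : ℤ, t + k ≤ N → i + β ≤ e →
      (Dl N 1 : ℚ) ^ e * ph β t i k = M ∧ |M| ≤ 2 ^ e * (Dl N 1 : ℤ) ^ e := by
    intro N t β i k
    by_cases hl : t + k ≤ N ∧ i + β ≤ e
    · obtain ⟨M, hM⟩ := ent_ph (β := β) (i := i) (k := k) hl.1 hl.2
      exact ⟨M, fun _ _ => hM⟩
    · exact ⟨0, fun a b => absurd ⟨a, b⟩ hl⟩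
  choose MB hMB using hB
  obtain ⟨V1, hV1⟩ : ∃ V1, V1 = 2 * (n * D * 8 ^ ((w + 1) * n)) := ⟨_, rfl⟩
  obtain ⟨V2, hV2⟩ : ∃ V2, V2 = 2 * (n * (2 * h) * 2 ^ e * Dl ((r + 1) * n) 1 ^ e) := ⟨_, rfl⟩
  have key := h1 (Fin (2 * h) × Fin ν) (Fin (w * n + 1) ⊕ (Fin (r * n) × Fin B)) (Fin n × Fin B)
    (Sum.elim (fun l => cf fun i k => MA l (i - 1) k)
      (fun q => cf fun i k => MB ((r + 1) * n) (((q.1 : ℕ) : ℤ) + 1) q.2 i k))
    (fun q => cf fun i k => MB n (-((q.1 : ℕ) : ℤ)) q.2 i k)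
    (Sum.elim (fun _ => V1) fun _ => V2) (fun _ => Dl n 1 ^ e) H ?_ ?_ ?_
  · obtain ⟨x, hx0, hxH, hxf, hxg⟩ := key
    refine ⟨cx x, cx_as x, cx_nz x hx0, cx_le x hxH, ?_, ?_, ?_⟩
    · intro l hl
      rw [← hn] at hl ⊢
      have h4 := functional x (fun i k => PowerSeries.coeff (i - 1) (TS (-(k : ℚ)) (gq n l))) D
        (fun i k => MA l (i - 1) k) fun i k _ _ _ => hMA l (i - 1) k hl (by omega)
      have h5 := hxf (Sum.inl ⟨l, by omega⟩)
      simp only [Sum.elim_inl] at h5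
      rw [h5, Int.cast_zero] at h4
      unfold LF
      rw [← hn] at h4
      rcases mul_eq_zero.1 h4 with h6 | h6
      · exact absurd h6 (by exact_mod_cast hD0.ne')
      · exact h6
    · intro t ht1 ht2 β hβ
      rw [← hn] at ht2 ⊢
      obtain ⟨t', ht'⟩ := Int.eq_ofNat_of_zero_le (show 0 ≤ t - 1 by omega)
      have ht'' : t = (t' : ℤ) + 1 := by omega
      have ht3 : t' < r * n := by
        have : (t' : ℤ) < r * n := by omega
        exact_mod_cast this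
      have hN : ∀ k : ℕ, k < n → t + k ≤ (((r + 1) * n : ℕ) : ℤ) := by
        intro k hk
        push_cast
        have : (k : ℤ) < n := by exact_mod_cast hk
        nlinarith
      have h4 := functional x (fun i k => ph β t i k) ((Dl ((r + 1) * n) 1 : ℚ) ^ e)
        (fun i k => MB ((r + 1) * n) t β i k) fun i k hi1 hi2 hk =>
          (hMB ((r + 1) * n) t β i k (hN k (by omega)) (by omega)).1
      have h5 := hxf (Sum.inr (⟨t', ht3⟩, ⟨β, hβ⟩))
      simp only [Sum.elim_inr] at h5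
      rw [← ht''] at h5
      rw [h5, Int.cast_zero] at h4
      rw [ev_eq]
      rw [← hn] at h4
      rcases mul_eq_zero.1 h4 with h6 | h6
      · exact absurd h6 (pow_ne_zero _ (by exact_mod_cast (hDl _).ne'))
      · exact h6
    · intro v hv β hβ
      rw [← hn] at hv ⊢
      have h4 := functional x (fun i k => ph β (-(v : ℤ)) i k) ((Dl n 1 : ℚ) ^ e)
        (fun i k => MB n (-(v : ℤ)) β i k) fun i k hi1 hi2 hk =>
          (hMB n (-(v : ℤ)) β i k (by omega) (by omega)).1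
      obtain ⟨M, hM⟩ := hxg (⟨v, hv⟩, ⟨β, hβ⟩)
      simp only at hM
      rw [hM, ← hn] at h4
      refine ⟨M, ?_⟩
      rw [ev_eq]
      have h5 : ((Dl n 1 : ℚ) ^ e) ≠ 0 := pow_ne_zero _ (by exact_mod_cast (hDl _).ne')
      apply mul_left_cancel₀ h5
      rw [h4]
      push_cast
      ring
  · rintro (l | ⟨t, β⟩)
    · simp only [Sum.elim_inl]
      have hl := l.2
      refine (cf_le (fun i k => MA l (i - 1) k) (D * 8 ^ ((w + 1) * n)) fun k hk => ?_).trans ?_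
      · have h4 : ∑ i ∈ Icc 1 (2 * h), |((MA l (i - 1) k : ℤ) : ℚ)| ≤
            ((D * 8 ^ ((w + 1) * n) : ℕ) : ℚ) := by
          rw [sum_Icc1]
          have h5 : ∀ a ∈ range (2 * h), |((MA l (a + 1 - 1) k : ℤ) : ℚ)| =
              (D : ℚ) * |PowerSeries.coeff a (TS (-(k : ℚ)) (gq n l))| := by
            intro a ha
            rw [mem_range] at ha
            rw [Nat.add_sub_cancel, ← hMA l a k (by omega) (by omega), abs_mul, Nat.abs_cast]
          rw [sum_congr rfl h5, ← mul_sum]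
          have h6 := h3 n l k (2 * h) (by omega) (by omega)
          calc (D : ℚ) * ∑ a ∈ range (2 * h), |PowerSeries.coeff a (TS (-(k : ℚ)) (gq n l))|
              ≤ (D : ℚ) * 8 ^ ((l : ℕ) + n) := mul_le_mul_of_nonneg_left h6 (by positivity)
            _ ≤ (D : ℚ) * 8 ^ ((w + 1) * n) := by
                refine mul_le_mul_of_nonneg_left (pow_le_pow_right₀ (by norm_num) ?_) (by positivity)
                have : (w + 1) * n = w * n + n := by ring
                omega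
            _ = ((D * 8 ^ ((w + 1) * n) : ℕ) : ℚ) := by push_cast; ring
        exact_mod_cast h4
      · have h4 : 2 * (ν * (D * 8 ^ ((w + 1) * n))) ≤ V1 := by
          rw [hV1]
          have h5 : 2 * (n * D * 8 ^ ((w + 1) * n)) = 2 * (n * (D * 8 ^ ((w + 1) * n))) := by ring
          first
            | (rw [h5]; exact Nat.mul_le_mul_left _ (Nat.mul_le_mul_right _ (by omega)))
            | (refine Nat.mul_le_mul_left _ ?_
               have h6 : n * D * 8 ^ ((w + 1) * n) = n * (D * 8 ^ ((w + 1) * n)) := by ring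
               rw [h6]
               exact Nat.mul_le_mul_right _ (by omega))
        exact_mod_cast h4
    · simp only [Sum.elim_inr]
      have ht := t.2
      have hβ := β.2
      have hN : ∀ k : ℕ, k < n → (((t : ℕ) : ℤ) + 1) + k ≤ (((r + 1) * n : ℕ) : ℤ) := by
        intro k hk
        have h5 : (t : ℕ) + 1 + k ≤ (r + 1) * n := by
          have : (r + 1) * n = r * n + n := by ring
          omega
        exact_mod_cast h5
      refine (cf_le (fun i k => MB ((r + 1) * n) (((t : ℕ) : ℤ) + 1) β i k)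
        (2 * h * (2 ^ e * Dl ((r + 1) * n) 1 ^ e)) fun k hk => ?_).trans ?_
      · have h5 : ∀ i ∈ Icc 1 (2 * h), |MB ((r + 1) * n) (((t : ℕ) : ℤ) + 1) β i k| ≤
            ((2 ^ e * Dl ((r + 1) * n) 1 ^ e : ℕ) : ℤ) := by
          intro i hi
          rw [mem_Icc] at hi
          have h6 := (hMB ((r + 1) * n) (((t : ℕ) : ℤ) + 1) β i k (hN k (by omega)) (by omega)).2
          push_cast
          exact h6
        refine (sum_le_sum h5).trans (le_of_eq ?_)
        rw [sum_const, Nat.card_Icc, nsmul_eq_mul, Nat.add_sub_cancel]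
        push_cast
        ring
      · have h4 : 2 * (ν * (2 * h * (2 ^ e * Dl ((r + 1) * n) 1 ^ e))) ≤ V2 := by
          rw [hV2]
          refine Nat.mul_le_mul_left _ ?_
          have : n * (2 * h) * 2 ^ e * Dl ((r + 1) * n) 1 ^ e =
            n * (2 * h * (2 ^ e * Dl ((r + 1) * n) 1 ^ e)) := by ring
          rw [this]
          exact Nat.mul_le_mul_right _ (by omega)
        exact_mod_cast h4
  · intro j
    exact Nat.pow_pos (hDl n)
  · rw [Fintype.prod_sum_type]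
    simp only [Sum.elim_inl, Sum.elim_inr, prod_const, card_univ, Fintype.card_prod,
      Fintype.card_fin]
    unfold SgNum at hSg
    rw [← hn, ← he, ← hD, ← hV1, ← hV2] at hSg
    exact hSg

end

end Pool.Agent.N797.PW
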