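import Pool.Agent.N797.PW.Stm

/-!
# The forms are small
-/

open Polynomial Pool.Agent.H337R2 Pool.Agent.W165.OZ Pool.Agent.Y926.LZ Pool.Agent.Y926.TW Filter

namespace Pool.Agent.N797.PW

namespace SML

noncomputable section

/-! ### degrees -/

lemma deg_YB (n : ℕ) (x0 : ℚ) (m : ℕ) : (NB n 1 x0 m).natDegree ≤ m := by
  unfold NB
  exact (Polynomial.natDegree_C_mul_le _ _).trans (YB_natDegree n x0 m).le

lemma deg_Gb (n l : ℕ) : (Gb n l).natDegree ≤ l := by
  unfold Gb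
  refine Polynomial.natDegree_mul_le.trans ?_
  have h1 : (NB n 1 0 n ^ (l / n)).natDegree ≤ (l / n) * n :=
    Polynomial.natDegree_pow_le.trans (Nat.mul_le_mul_left _ (deg_YB n 0 n))
  have h2 := deg_YB n 0 (l % n)
  have h3 := Nat.div_add_mod l n
  rw [mul_comm] at h3
  omega

lemma deg_yp (n : ℕ) : (yp n).natDegree ≤ 2 := by
  unfold yp
  refine Polynomial.natDegree_mul_le.trans ?_
  rw [Polynomial.natDegree_X, Polynomial.natDegree_X_add_C]

lemma deg_gq (n l : ℕ) : (gq n l).natDegree ≤ 2 * l := by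
  unfold gq
  refine Polynomial.natDegree_comp_le.trans ?_
  rw [mul_comm 2 l]
  exact Nat.mul_le_mul (deg_Gb n l) (deg_yp n)

/-! ### the functional -/

lemma LF_add (h n : ℕ) (c : ℕ → ℕ → ℤ) (E F : ℕ → PowerSeries ℚ) :
    LF h n c (fun k => E k + F k) = LF h n c E + LF h n c F := by
  unfold LF
  simp only [map_add, mul_add, Finset.sum_add_distrib]

lemma LF_zero (h4 : S_SY) {h n : ℕ} {c : ℕ → ℕ → ℤ} {G : ℕ} (hn : 1 ≤ n) (hA : AS h n c)
    (hT : TA h n c G) {f : ℚ[X]} (hf : f.natDegree ≤ 2 * G + 1) :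
    LF h n c (fun k => TS (-(k : ℚ)) f) = 0 := by
  have h5 := h4 h n G c (fun _ => 1) hn hA (by intro l hl; simpa using hT l hl) f hf
  simp only [map_one, mul_add, mul_one] at h5
  rw [LF_add] at h5
  linarith

/-! ### the sums of absolute values -/

/-- the sum of the absolute values of the first coefficients -/
def An (N : ℕ) (F : PowerSeries ℚ) : ℚ := ∑ j ∈ Finset.range N, |PowerSeries.coeff j F|

lemma An_nonneg (N : ℕ) (F : PowerSeries ℚ) : 0 ≤ An N F :=
  Finset.sum_nonneg fun _ _ => abs_nonneg _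

lemma An_mul (N : ℕ) (F G : PowerSeries ℚ) : An N (F * G) ≤ An N F * An N G := by
  unfold An
  rw [Finset.sum_mul_sum]
  calc ∑ j ∈ Finset.range N, |PowerSeries.coeff j (F * G)|
      ≤ ∑ j ∈ Finset.range N, ∑ p ∈ Finset.HasAntidiagonal.antidiagonal j,
          |PowerSeries.coeff p.1 F| * |PowerSeries.coeff p.2 G| := by
        apply Finset.sum_le_sum
        intro j _
        rw [PowerSeries.coeff_mul]
        refine (Finset.abs_sum_le_sum_abs _ _).trans (le_of_eq ?_)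
        exact Finset.sum_congr rfl fun p _ => abs_mul _ _
    _ = ∑ j ∈ Finset.range N, ∑ p ∈ (((Finset.range N) ×ˢ (Finset.range N)).filter
          (fun p => p.1 + p.2 < N)).filter (fun p => p.1 + p.2 = j),
          |PowerSeries.coeff p.1 F| * |PowerSeries.coeff p.2 G| := by
        apply Finset.sum_congr rfl
        intro j hj
        rw [Finset.mem_range] at hj
        apply Finset.sum_congr _ fun _ _ => rfl
        ext p
        simp only [Finset.HasAntidiagonal.mem_antidiagonal, Finset.mem_filter, Finset.mem_product,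
          Finset.mem_range]
        omega
    _ = ∑ p ∈ ((Finset.range N) ×ˢ (Finset.range N)).filter (fun p => p.1 + p.2 < N),
          |PowerSeries.coeff p.1 F| * |PowerSeries.coeff p.2 G| := by
        apply Finset.sum_fiberwise_of_maps_to
        intro p hp
        rw [Finset.mem_filter] at hp
        rw [Finset.mem_range]
        exact hp.2
    _ ≤ ∑ p ∈ (Finset.range N) ×ˢ (Finset.range N),
          |PowerSeries.coeff p.1 F| * |PowerSeries.coeff p.2 G| := by
        apply Finset.sum_le_sum_of_subset_of_nonneg (Finset.filter_subset _ _)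
        intro p _ _
        positivity
    _ = _ := Finset.sum_product _ _ _

lemma An_one (N : ℕ) : An N 1 ≤ 1 := by
  unfold An
  calc ∑ j ∈ Finset.range N, |PowerSeries.coeff j (1 : PowerSeries ℚ)|
      = ∑ j ∈ Finset.range N, (if j = 0 then (1 : ℚ) else 0) := by
        apply Finset.sum_congr rfl
        intro j _
        rw [PowerSeries.coeff_one]
        split_ifs <;> simp
    _ ≤ 1 := by
        rw [Finset.sum_ite_eq']
        split_ifs <;> norm_num

lemma An_pow (N : ℕ) (F : PowerSeries ℚ) (l : ℕ) : An N (F ^ l) ≤ An N F ^ l := by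
  induction l with
  | zero => simpa using An_one N
  | succ l ih =>
    rw [pow_succ, pow_succ]
    exact (An_mul N _ _).trans (mul_le_mul_of_nonneg_right ih (An_nonneg N F))

lemma An_lin (N : ℕ) (a : ℚ) : An N (PowerSeries.X + PowerSeries.C a) ≤ 1 + |a| := by
  unfold An
  calc ∑ j ∈ Finset.range N, |PowerSeries.coeff j (PowerSeries.X + PowerSeries.C a)|
      ≤ ∑ j ∈ Finset.range N, ((if j = 1 then (1 : ℚ) else 0) + (if j = 0 then |a| else 0)) := by
        apply Finset.sum_le_sum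
        intro j _
        rw [map_add, PowerSeries.coeff_X, PowerSeries.coeff_C]
        refine (abs_add_le _ _).trans ?_
        apply add_le_add
        · split_ifs <;> simp
        · split_ifs <;> simp
    _ ≤ 1 + |a| := by
        rw [Finset.sum_add_distrib, Finset.sum_ite_eq', Finset.sum_ite_eq']
        apply add_le_add
        · split_ifs <;> norm_num
        · split_ifs
          · exact le_rfl
          · exact abs_nonneg _

lemma An_X {n k : ℕ} (hk : k < n) (N l : ℕ) :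
    An N (TS (-(k : ℚ)) ((X : ℚ[X]) ^ l)) ≤ (n : ℚ) ^ l := by
  rw [map_pow, TS_X]
  refine (An_pow N _ l).trans (pow_le_pow_left₀ (An_nonneg _ _) ?_ l)
  refine (An_lin N _).trans ?_
  rw [abs_neg, Nat.abs_cast]
  have : ((k + 1 : ℕ) : ℚ) ≤ (n : ℚ) := by exact_mod_cast hk
  push_cast at this
  linarith

lemma LF_le (h3 : S_JB) {h n l H : ℕ} {c : ℕ → ℕ → ℤ} (hn : 1 ≤ n) (hc : ∀ i k, |c i k| ≤ (H : ℤ))
    (m : ℕ) : |LF h n c (fun k => TS (-(k : ℚ)) (gq n l * X ^ m))| ≤
      H * (n * (8 ^ (l + n) * n ^ m)) := by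
  unfold LF
  have hcq : ∀ i k, |(c i k : ℚ)| ≤ (H : ℚ) := by
    intro i k
    exact_mod_cast hc i k
  have h1 : ∀ k ∈ Finset.range n, |∑ i ∈ Finset.Icc 1 (2 * h), (c i k : ℚ) *
      PowerSeries.coeff (i - 1) (TS (-(k : ℚ)) (gq n l * X ^ m))| ≤
      H * (8 ^ (l + n) * n ^ m) := by
    intro k hk
    rw [Finset.mem_range] at hk
    calc |∑ i ∈ Finset.Icc 1 (2 * h), (c i k : ℚ) *
          PowerSeries.coeff (i - 1) (TS (-(k : ℚ)) (gq n l * X ^ m))|
        ≤ ∑ i ∈ Finset.Icc 1 (2 * h), (H : ℚ) *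
          |PowerSeries.coeff (i - 1) (TS (-(k : ℚ)) (gq n l * X ^ m))| := by
          refine (Finset.abs_sum_le_sum_abs _ _).trans (Finset.sum_le_sum fun i _ => ?_)
          rw [abs_mul]
          exact mul_le_mul_of_nonneg_right (hcq i k) (abs_nonneg _)
      _ = (H : ℚ) * An (2 * h) (TS (-(k : ℚ)) (gq n l * X ^ m)) := by
          rw [← Finset.mul_sum]
          congr 1
          unfold An
          have h2 : Finset.Icc 1 (2 * h) = Finset.Ico 1 (2 * h + 1) := by ext; simp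
          rw [h2, Finset.sum_Ico_eq_sum_range]
          apply Finset.sum_congr (by simp)
          intro j _
          congr 3
          omega
      _ ≤ _ := by
          apply mul_le_mul_of_nonneg_left _ (Nat.cast_nonneg H)
          rw [map_mul]
          refine (An_mul _ _ _).trans ?_
          exact mul_le_mul (h3 n l k (2 * h) hn hk) (An_X hk _ _) (An_nonneg _ _) (by positivity)
  refine (Finset.abs_sum_le_sum_abs _ _).trans ((Finset.sum_le_sum h1).trans ?_)
  rw [Finset.sum_const, Finset.card_range, nsmul_eq_mul]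
  apply le_of_eq
  ring

/-! ### the expansion at infinity -/

lemma choose_id (j s β : ℕ) :
    ((j + s + β).choose β : ℚ) * ((j + s).choose j : ℚ) =
      ((j + β).choose j : ℚ) * ((s + (j + β)).choose (j + β) : ℚ) := by
  have h1 := Nat.choose_mul (n := s + (j + β)) (k := j + β) (s := β) (by omega)
  have h2 : s + (j + β) - β = j + s := by omega
  have h3 : j + β - β = j := by omega
  rw [h2, h3] at h1
  have h4 : (j + β).choose β = (j + β).choose j := by
    rw [← Nat.choose_symm_of_eq_add (n := j + β) (a := j) (b := β) rfl]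
  rw [h4] at h1
  have h5 : j + s + β = s + (j + β) := by omega
  rw [h5]
  have h6 : (((s + (j + β)).choose (j + β) * (j + β).choose j : ℕ) : ℚ) =
    (((s + (j + β)).choose β * (j + s).choose j : ℕ) : ℚ) := by rw [h1]
  push_cast at h6
  linarith

lemma coeff_TSX (k l j : ℕ) : PowerSeries.coeff j (TS (-(k : ℚ)) ((X : ℚ[X]) ^ l)) =
    (-(k : ℚ)) ^ (l - j) * (l.choose j : ℚ) := by
  have h1 : TS (-(k : ℚ)) ((X : ℚ[X]) ^ l) = (((X + C (-(k : ℚ))) ^ l : ℚ[X]) : PowerSeries ℚ) := by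
    rw [map_pow, TS_X, Polynomial.coe_pow, Polynomial.coe_add, Polynomial.coe_X, Polynomial.coe_C]
  rw [h1, Polynomial.coeff_coe, Polynomial.coeff_X_add_C_pow]

lemma norm_lt {x : ℚ} (hx : |x| < 1) : ‖x‖ < 1 := by
  rw [← Rat.norm_cast_real, Real.norm_eq_abs]
  exact_mod_cast hx

lemma hs_gx {k T : ℕ} (hk : k < T) (β j : ℕ) :
    HasSum (fun l : ℕ => ((l + β).choose β : ℚ) / (T : ℚ) ^ (l + β + 1) *
      PowerSeries.coeff j (TS (-(k : ℚ)) ((X : ℚ[X]) ^ l)))
      (PowerSeries.coeff j (gx β ((T : ℚ) + k))) := by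
  have hT : (0 : ℚ) < T := by exact_mod_cast (by omega : 0 < T)
  have hTk : (k : ℚ) < T := by exact_mod_cast hk
  have hk0 : (0 : ℚ) ≤ k := Nat.cast_nonneg k
  have h1 : ‖(-(k : ℚ) / T)‖ < 1 := by
    apply norm_lt
    rw [abs_div, abs_neg, abs_of_nonneg hk0, abs_of_pos hT, div_lt_one hT]
    exact hTk
  have h2 := (hasSum_choose_mul_geometric_of_norm_lt_one (j + β) h1).mul_left
    (((j + β).choose j : ℚ) / (T : ℚ) ^ (j + β + 1))
  have h3 : PowerSeries.coeff j (gx β ((T : ℚ) + k)) =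
      ((j + β).choose j : ℚ) / (T : ℚ) ^ (j + β + 1) * (1 / (1 - -(k : ℚ) / T) ^ (j + β + 1)) := by
    unfold gx Cb
    rw [PowerSeries.coeff_mk, Nat.add_sub_cancel]
    have h4 : 1 - -(k : ℚ) / T = (T + k) / T := by field_simp; ring
    rw [h4, div_pow]
    have h5 : (T : ℚ) + k ≠ 0 := by positivity
    have h6 : j + 1 + β = j + β + 1 := by omega
    rw [h6]
    field_simp
  rw [h3, ← hasSum_nat_add_iff' j]
  have h7 : ∑ i ∈ Finset.range j, ((i + β).choose β : ℚ) / (T : ℚ) ^ (i + β + 1) *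
      PowerSeries.coeff j (TS (-(k : ℚ)) ((X : ℚ[X]) ^ i)) = 0 := by
    apply Finset.sum_eq_zero
    intro i hi
    rw [Finset.mem_range] at hi
    rw [coeff_TSX, Nat.choose_eq_zero_of_lt hi]
    simp
  rw [h7, sub_zero]
  refine Eq.mp (congrArg (fun f => HasSum f _) (funext fun s => ?_)) h2
  symm
  rw [coeff_TSX]
  have h8 : s + j - j = s := by omega
  rw [h8]
  have h9 := choose_id j s β
  have h10 : s + j + β = j + s + β := by omega
  have h11 : (s + j).choose j = (j + s).choose j := by rw [add_comm]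
  rw [h10, h11]
  have h12 : (T : ℚ) ^ (j + s + β + 1) = (T : ℚ) ^ (j + β + 1) * (T : ℚ) ^ s := by
    rw [← pow_add]; congr 1; omega
  rw [h12, div_pow]
  have h13 : ((j + s + β).choose β : ℚ) / ((T : ℚ) ^ (j + β + 1) * (T : ℚ) ^ s) *
      ((-(k : ℚ)) ^ s * ((j + s).choose j : ℚ)) =
      (((j + s + β).choose β : ℚ) * ((j + s).choose j : ℚ)) *
        ((-(k : ℚ)) ^ s / ((T : ℚ) ^ (j + β + 1) * (T : ℚ) ^ s)) := by ring
  rw [h13, h9]
  field_simp

lemma nd_eq {n T : ℕ} (hT : 1 ≤ T) : nd n (T : ℤ) = Finset.range n := by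
  unfold nd
  rw [Finset.filter_eq_self]
  intro k _
  omega

lemma hs_Tm {n T : ℕ} (hT : n ≤ T) (hn : 1 ≤ n) (h : ℕ) (c : ℕ → ℕ → ℤ) (g : ℚ[X]) (β : ℕ) :
    HasSum (fun l : ℕ => ((l + β).choose β : ℚ) / (T : ℚ) ^ (l + β + 1) *
      LF h n c (fun k => TS (-(k : ℚ)) (g * X ^ l))) (Tm h n c g β (T : ℤ)) := by
  unfold Tm LF
  rw [nd_eq (by omega)]
  simp only [Finset.mul_sum]
  apply hasSum_sum
  intro k hk
  rw [Finset.mem_range] at hk
  apply hasSum_sum
  intro i _
  rw [PowerSeries.coeff_mul]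
  simp only [map_mul, PowerSeries.coeff_mul, Finset.mul_sum]
  apply hasSum_sum
  intro p _
  have h1 := (hs_gx (lt_of_lt_of_le hk hT) β p.2).mul_left
    ((c i k : ℚ) * PowerSeries.coeff p.1 (TS (-(k : ℚ)) g))
  have h2 : (c i k : ℚ) * PowerSeries.coeff p.1 (TS (-(k : ℚ)) g) *
      PowerSeries.coeff p.2 (gx β ((T : ℚ) + k)) =
      (c i k : ℚ) * (PowerSeries.coeff p.1 (TS (-(k : ℚ)) g) *
        PowerSeries.coeff p.2 (gx β (((T : ℤ) : ℚ) + k))) := by
    push_cast
    ring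
  rw [h2] at h1
  refine Eq.mp (congrArg (fun f => HasSum f _) (funext fun l => ?_)) h1
  ring


/-- the bound of one term of the expansion -/
lemma term_le {n T r β H L l m : ℕ} (hn : 1 ≤ n) (hr : 4 ≤ r) (hT : r * n < T) (hm : 2 ≤ m)
    {x : ℚ} (hx : |x| ≤ H * (n * (8 ^ (l + n) * n ^ m))) :
    |((m + β).choose β : ℚ) / (T : ℚ) ^ (m + β + 1) * x| ≤
      (H * n * 8 ^ (l + n) * (2 ^ β * r ^ 2 * ((n : ℚ) / T) ^ 2)) * (2 / (r : ℚ)) ^ m := by
  have hT0 : (0 : ℚ) < T := by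
    have : 0 < T := by omega
    exact_mod_cast this
  have hT1 : (1 : ℚ) ≤ T := by
    have : 1 ≤ T := by omega
    exact_mod_cast this
  have hr0 : (0 : ℚ) < r := by
    have : 0 < r := by omega
    exact_mod_cast this
  have hn0 : (0 : ℚ) < n := by exact_mod_cast hn
  have h1 : ((m + β).choose β : ℚ) ≤ 2 ^ (m + β) := by
    exact_mod_cast Nat.choose_le_two_pow (m + β) β
  have h2 : (n : ℚ) / T ≤ 1 / r := by
    rw [div_le_div_iff₀ hT0 hr0, one_mul]
    have : n * r ≤ T := by rw [mul_comm]; exact hT.le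
    exact_mod_cast this
  rw [abs_mul, abs_of_nonneg (by positivity)]
  calc ((m + β).choose β : ℚ) / (T : ℚ) ^ (m + β + 1) * |x|
      ≤ 2 ^ (m + β) / (T : ℚ) ^ (m + β + 1) * (H * (n * (8 ^ (l + n) * n ^ m))) := by
        apply mul_le_mul _ hx (abs_nonneg _) (by positivity)
        exact div_le_div_of_nonneg_right h1 (by positivity)
    _ = (H * n * 8 ^ (l + n) * 2 ^ (m + β)) * (((n : ℚ) / T) ^ m * (1 / (T : ℚ) ^ (β + 1))) := by
        have : (T : ℚ) ^ (m + β + 1) = (T : ℚ) ^ m * (T : ℚ) ^ (β + 1) := by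
          rw [← pow_add]; congr 1
        rw [this, div_pow]
        field_simp
    _ ≤ (H * n * 8 ^ (l + n) * 2 ^ (m + β)) * (((n : ℚ) / T) ^ 2 * (1 / r) ^ (m - 2)) := by
        apply mul_le_mul_of_nonneg_left _ (by positivity)
        have h3 : ((n : ℚ) / T) ^ m = ((n : ℚ) / T) ^ 2 * ((n : ℚ) / T) ^ (m - 2) := by
          rw [← pow_add]; congr 1; omega
        rw [h3, mul_assoc]
        apply mul_le_mul_of_nonneg_left _ (by positivity)
        have h4 : 1 / (T : ℚ) ^ (β + 1) ≤ 1 := by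
          rw [div_le_one (by positivity)]
          exact one_le_pow₀ hT1
        calc ((n : ℚ) / T) ^ (m - 2) * (1 / (T : ℚ) ^ (β + 1))
            ≤ (1 / r) ^ (m - 2) * 1 := by
              apply mul_le_mul _ h4 (by positivity) (by positivity)
              exact pow_le_pow_left₀ (by positivity) h2 _
          _ = _ := mul_one _
    _ = _ := by
        obtain ⟨s, rfl⟩ : ∃ s, m = s + 2 := ⟨m - 2, by omega⟩
        have h5 : s + 2 - 2 = s := by omega
        rw [h5, div_pow 2 (r : ℚ), div_pow 1 (r : ℚ), one_pow, pow_add 2 (s + 2) β,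
          pow_add (r : ℚ) s 2]
        field_simp

lemma Tm_le (h3 : S_JB) {h n T r β B w l H : ℕ} {c : ℕ → ℕ → ℤ} (hn : 1 ≤ n) (hr : 4 ≤ r)
    (hl : l ≤ w * n) (hc : ∀ i k, |c i k| ≤ (H : ℤ))
    (hz : ∀ f : ℚ[X], f.natDegree ≤ 2 * (w * n) + 1 → LF h n c (fun k => TS (-(k : ℚ)) f) = 0)
    (hT : r * n < T) :
    |Tm h n c (gq n l) β (T : ℤ)| ≤
      (H * n * 8 ^ (l + n) * (2 ^ (β + 1) * r ^ 2 * (2 / (r : ℚ)) ^ (2 * (w * n) + 2 - 2 * l) *
        n ^ 2)) / (T : ℚ) ^ 2 := by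
  have hrq : (4 : ℚ) ≤ r := by exact_mod_cast hr
  have hTn : n ≤ T := by nlinarith
  have h1 := hs_Tm hTn hn h c (gq n l) β
  set L := 2 * (w * n) + 2 - 2 * l with hL
  have hL2 : 2 ≤ L := by omega
  set K : ℚ := H * n * 8 ^ (l + n) * (2 ^ β * r ^ 2 * ((n : ℚ) / T) ^ 2) with hK
  have hK0 : 0 ≤ K := by rw [hK]; positivity
  have hz1 : ∀ m < L, LF h n c (fun k => TS (-(k : ℚ)) (gq n l * X ^ m)) = 0 := by
    intro m hm
    apply hz
    refine Polynomial.natDegree_mul_le.trans ?_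
    rw [Polynomial.natDegree_X_pow]
    have := deg_gq n l
    omega
  rw [← hasSum_nat_add_iff' L] at h1
  have h4 : ∑ i ∈ Finset.range L, ((i + β).choose β : ℚ) / (T : ℚ) ^ (i + β + 1) *
      LF h n c (fun k => TS (-(k : ℚ)) (gq n l * X ^ i)) = 0 := by
    apply Finset.sum_eq_zero
    intro i hi
    rw [Finset.mem_range] at hi
    rw [hz1 i hi, mul_zero]
  rw [h4, sub_zero] at h1
  have h2r : ‖(2 / (r : ℚ))‖ < 1 := by
    apply norm_lt
    rw [abs_of_nonneg (by positivity), div_lt_one (by positivity)]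
    linarith
  have h5 : HasSum (fun s : ℕ => K * (2 / (r : ℚ)) ^ L * (2 / (r : ℚ)) ^ s)
      (K * (2 / (r : ℚ)) ^ L * (1 - 2 / (r : ℚ))⁻¹) :=
    (hasSum_geometric_of_norm_lt_one h2r).mul_left _
  have h6 : ∀ s : ℕ, |((s + L + β).choose β : ℚ) / (T : ℚ) ^ (s + L + β + 1) *
      LF h n c (fun k => TS (-(k : ℚ)) (gq n l * X ^ (s + L)))| ≤
      K * (2 / (r : ℚ)) ^ L * (2 / (r : ℚ)) ^ s := by
    intro s
    have h7 := term_le (L := L) (T := T) (r := r) (β := β) (l := l) (m := s + L) hn hr hT (by omega)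
      (LF_le h3 (h := h) (l := l) hn hc (s + L))
    refine h7.trans (le_of_eq ?_)
    rw [hK, pow_add]
    ring
  have h8 : |Tm h n c (gq n l) β (T : ℤ)| ≤ K * (2 / (r : ℚ)) ^ L * (1 - 2 / (r : ℚ))⁻¹ := by
    rw [abs_le]
    constructor
    · have h9 := h5.neg
      exact hasSum_le (fun s => (abs_le.1 (h6 s)).1) h9 h1
    · exact hasSum_le (fun s => (abs_le.1 (h6 s)).2) h1 h5
  refine h8.trans ?_
  have h10 : (1 - 2 / (r : ℚ))⁻¹ ≤ 2 := by
    have h11 : 2 / (r : ℚ) ≤ 1 / 2 := by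
      rw [div_le_div_iff₀ (by positivity) (by norm_num)]
      linarith
    rw [inv_le_comm₀ (by linarith) (by norm_num)]
    linarith
  have hT0 : (0 : ℚ) < T := by
    have : 0 < T := by omega
    exact_mod_cast this
  calc K * (2 / (r : ℚ)) ^ L * (1 - 2 / (r : ℚ))⁻¹ ≤ K * (2 / (r : ℚ)) ^ L * 2 :=
        mul_le_mul_of_nonneg_left h10 (by positivity)
    _ = _ := by
        rw [hK, div_pow (n : ℚ) (T : ℚ), pow_succ 2 β]
        field_simp

lemma Tm_zero (h1 : S_TAY) {h n T r β B w l : ℕ} {c : ℕ → ℕ → ℤ} (hl : l ≤ w * n)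
    (hβ : β < B) (hB : TB h n c r B)
    (hz : ∀ f : ℚ[X], f.natDegree ≤ 2 * (w * n) + 1 → LF h n c (fun k => TS (-(k : ℚ)) f) = 0)
    (hT1 : 1 ≤ T) (hT : T ≤ r * n) : Tm h n c (gq n l) β (T : ℤ) = 0 := by
  rw [h1]
  have h2 : ∑ i ∈ Finset.range (β + 1), (-1) ^ i *
      PowerSeries.coeff i (TS (((T : ℤ) : ℚ)) (gq n l)) * ev h n c (β - i) (T : ℤ) = 0 := by
    apply Finset.sum_eq_zero
    intro i _
    rw [hB (T : ℤ) (by exact_mod_cast hT1) (by exact_mod_cast hT) (β - i) (by omega), mul_zero]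
  rw [h2, zero_add, nd_eq hT1]
  have h3 := hz (gq n l /ₘ (X - C (((T : ℤ) : ℚ))) ^ (β + 1)) (by
    have h4 := Polynomial.natDegree_divByMonic (gq n l)
      ((Polynomial.monic_X_sub_C (((T : ℤ) : ℚ))).pow (β + 1))
    have h5 := deg_gq n l
    omega)
  unfold LF at h3
  rw [h3, mul_zero]

lemma inv_sq_sum : HasSum (fun t : ℕ => 1 / ((t : ℝ) + 1) ^ 2) (Real.pi ^ 2 / 6) := by
  have h1 := hasSum_zeta_two
  rw [← hasSum_nat_add_iff' 1] at h1
  simpa using h1

end

end SML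

theorem t_sml (h1 : S_TAY) (h2 : S_REAL) (h3 : S_JB) (h4 : S_SY) : S_SML := by
  intro h ν β B w r l H c hβ2 hβ hr hl hA hc hTA hTB
  set n := 2 * ν + 1 with hn'
  have hn : 1 ≤ n := by omega
  have hz : ∀ f : ℚ[X], f.natDegree ≤ 2 * (w * n) + 1 →
      LF h n c (fun k => TS (-(k : ℚ)) f) = 0 := fun f hf => SML.LF_zero h4 hn hA hTA hf
  have hR := h2 h n c (gq n l) β hβ2
  have hnn : (2 * (ν : ℝ) + 1) = (n : ℝ) := by rw [hn']; push_cast; ring
  rw [hnn]
  set K : ℝ := H * n * 8 ^ (l + n) * (2 ^ (β + 1) * r ^ 2 *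
    (2 / (r : ℝ)) ^ (2 * (w * n) + 2 - 2 * l) * n ^ 2) with hK
  have hK0 : 0 ≤ K := by rw [hK]; positivity
  have h5 : ∀ t : ℕ, |((Tm h n c (gq n l) β ((t : ℤ) + 1) : ℚ) : ℝ)| ≤
      K * (1 / ((t : ℝ) + 1) ^ 2) := by
    intro t
    have h6 : ((t : ℤ) + 1) = ((t + 1 : ℕ) : ℤ) := by push_cast; ring
    rw [h6]
    by_cases hT : t + 1 ≤ r * n
    · rw [SML.Tm_zero h1 hl hβ hTB hz (by omega) hT]
      simp only [Rat.cast_zero, abs_zero]
      positivity
    · have h7 := SML.Tm_le h3 (β := β) (B := B) hn hr hl hc hz (by omega : r * n < t + 1)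
      have h8 : ((|Tm h n c (gq n l) β ((t + 1 : ℕ) : ℤ)| : ℚ) : ℝ) ≤ _ := Rat.cast_le.2 h7
      rw [Rat.cast_abs] at h8
      refine h8.trans (le_of_eq ?_)
      rw [hK]
      push_cast
      ring
  have h6 := SML.inv_sq_sum.mul_left K
  have h7 : |LR h n c (gq n l) β| ≤ K * (Real.pi ^ 2 / 6) := by
    rw [abs_le]
    constructor
    · exact hasSum_le (fun s => (abs_le.1 (h5 s)).1) h6.neg hR
    · exact hasSum_le (fun s => (abs_le.1 (h5 s)).2) hR h6
  refine h7.trans ?_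
  have hpi : Real.pi ^ 2 / 6 ≤ 2 := by
    have h8 := Real.pi_lt_d2
    have h9 := Real.pi_pos
    nlinarith
  calc K * (Real.pi ^ 2 / 6) ≤ K * 2 := mul_le_mul_of_nonneg_left hpi hK0
    _ = _ := by
        rw [hK, pow_succ 2 (β + 1)]
        ring

end Pool.Agent.N797.PW
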