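import Pool.Agent.N797.PW.Stm

/-!
# SPL: the form as a functional of germs
-/

open Polynomial Pool.Agent.H337R2 Pool.Agent.W165.OZ Pool.Agent.Y926.LZ Pool.Agent.Y926.TW Filter

namespace Pool.Agent.N797.PW

noncomputable section

namespace SPL

lemma LF_congr {h n : ℕ} {c : ℕ → ℕ → ℤ} {E E' : ℕ → PowerSeries ℚ}
    (H : ∀ k < n, ∀ j < 2 * h, PowerSeries.coeff j (E k) = PowerSeries.coeff j (E' k)) :
    LF h n c E = LF h n c E' := by
  unfold LF
  refine Finset.sum_congr rfl fun k hk => Finset.sum_congr rfl fun i hi => ?_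
  rw [Finset.mem_range] at hk
  rw [Finset.mem_Icc] at hi
  rw [H k hk (i - 1) (by omega)]

lemma LF_sub (h n : ℕ) (c : ℕ → ℕ → ℤ) (E E' : ℕ → PowerSeries ℚ) :
    LF h n c (fun k => E k - E' k) = LF h n c E - LF h n c E' := by
  unfold LF
  simp only [map_sub, mul_sub, Finset.sum_sub_distrib]

lemma LF_sum {ι : Type*} (s : Finset ι) (h n : ℕ) (c : ℕ → ℕ → ℤ) (E : ι → ℕ → PowerSeries ℚ) :
    LF h n c (fun k => ∑ a ∈ s, E a k) = ∑ a ∈ s, LF h n c (E a) := by
  unfold LF
  simp only [map_sum, Finset.mul_sum]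
  symm
  rw [Finset.sum_comm]
  refine Finset.sum_congr rfl fun k _ => ?_
  rw [Finset.sum_comm]

lemma LF_C_mul (h n : ℕ) (c : ℕ → ℕ → ℤ) (a : ℚ) (E : ℕ → PowerSeries ℚ) :
    LF h n c (fun k => PowerSeries.C a * E k) = a * LF h n c E := by
  unfold LF
  simp only [PowerSeries.coeff_C_mul, Finset.mul_sum]
  refine Finset.sum_congr rfl fun k _ => Finset.sum_congr rfl fun i _ => ?_
  ring

lemma coeff_mul_congr {A B B' : PowerSeries ℚ} {m : ℕ}
    (H : ∀ j ≤ m, PowerSeries.coeff j B = PowerSeries.coeff j B') :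
    PowerSeries.coeff m (A * B) = PowerSeries.coeff m (A * B') := by
  rw [PowerSeries.coeff_mul, PowerSeries.coeff_mul]
  refine Finset.sum_congr rfl fun p hp => ?_
  rw [Finset.HasAntidiagonal.mem_antidiagonal] at hp
  rw [H p.2 (by omega)]

/-- the part of the germ without the zeta values -/
def Hg (h β k : ℕ) : PowerSeries ℚ := ∑ i ∈ Finset.Icc 1 (2 * h),
  PowerSeries.C (Cb β i * hs (i + β) k) * PowerSeries.X ^ (i - 1)

lemma coeff_Hg (h β k : ℕ) {m : ℕ} (hm : m < 2 * h) :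
    PowerSeries.coeff m (Hg h β k) = Cb β (m + 1) * hs (m + 1 + β) k := by
  unfold Hg
  rw [map_sum, Finset.sum_eq_single (m + 1)]
  · rw [PowerSeries.coeff_C_mul, PowerSeries.coeff_X_pow, if_pos (by omega), mul_one]
  · intro i hi hne
    rw [Finset.mem_Icc] at hi
    rw [PowerSeries.coeff_C_mul, PowerSeries.coeff_X_pow, if_neg (by omega), mul_zero]
  · intro hn
    exact absurd (Finset.mem_Icc.2 ⟨by omega, by omega⟩) hn

lemma sum_gx (β k j : ℕ) : PowerSeries.coeff j (∑ v ∈ Finset.range k, gx β ((k : ℚ) - v)) =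
    Cb β (j + 1) * hs (j + 1 + β) k := by
  rw [map_sum]
  unfold hs
  rw [Finset.mul_sum, ← Finset.sum_range_reflect]
  refine Finset.sum_congr rfl fun v hv => ?_
  rw [Finset.mem_range] at hv
  unfold gx
  rw [PowerSeries.coeff_mk]
  have h1 : (k : ℚ) - ((k - 1 - v : ℕ) : ℚ) = (v : ℚ) + 1 := by
    rw [show k - 1 - v = k - (1 + v) by omega, Nat.cast_sub (by omega)]
    push_cast
    ring
  rw [h1, mul_one_div]

lemma bt_eq (z : ℕ → ℚ) (h β k : ℕ) : bt z h β 1 k = ∑ i ∈ Finset.Icc 1 (2 * h),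
    PowerSeries.C (Cb β i * z (i + β)) * PowerSeries.X ^ (i - 1) - Hg h β k := by
  unfold bt Hg
  rw [← Finset.sum_sub_distrib]
  refine Finset.sum_congr rfl fun i _ => ?_
  rw [← sub_mul, ← map_sub, Nat.cast_one, one_pow, mul_one, one_mul, mul_sub]

lemma sum_Tm (h n : ℕ) (c : ℕ → ℕ → ℤ) (g : ℚ[X]) (β : ℕ) :
    ∑ v ∈ Finset.range n, Tm h n c g β (-(v : ℤ)) =
      LF h n c (fun k => TS (-(k : ℚ)) g * Hg h β k) := by
  have h1 : ∀ v ∈ Finset.range n, Tm h n c g β (-(v : ℤ)) = ∑ k ∈ Finset.range n,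
      if v < k then ∑ i ∈ Finset.Icc 1 (2 * h), (c i k : ℚ) *
        PowerSeries.coeff (i - 1) (TS (-(k : ℚ)) g * gx β ((k : ℚ) - v)) else 0 := by
    intro v _
    unfold Tm nd
    rw [← Finset.sum_filter]
    have h2 : (Finset.range n).filter (fun k : ℕ => 0 < -(v : ℤ) + (k : ℤ)) =
        (Finset.range n).filter (fun k => v < k) := by
      refine Finset.filter_congr fun k _ => ?_
      constructor <;> intro h <;> omega
    rw [h2]
    refine Finset.sum_congr rfl fun k _ => Finset.sum_congr rfl fun i _ => ?_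
    have h3 : ((-(v : ℤ) : ℤ) : ℚ) + k = (k : ℚ) - v := by
      push_cast
      ring
    rw [h3]
  rw [Finset.sum_congr rfl h1, Finset.sum_comm]
  unfold LF
  refine Finset.sum_congr rfl fun k hk => ?_
  rw [Finset.mem_range] at hk
  rw [← Finset.sum_filter]
  have h2 : (Finset.range n).filter (fun v => v < k) = Finset.range k := by
    ext v
    rw [Finset.mem_filter, Finset.mem_range, Finset.mem_range]
    exact ⟨fun h => h.2, fun h => ⟨h.trans hk, h⟩⟩
  rw [h2, Finset.sum_comm]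
  refine Finset.sum_congr rfl fun i hi => ?_
  rw [Finset.mem_Icc] at hi
  rw [← Finset.mul_sum, ← map_sum, ← Finset.mul_sum]
  congr 1
  refine coeff_mul_congr fun j hj => ?_
  rw [sum_gx, coeff_Hg h β k (by omega)]

end SPL

open SPL

/-- SPL: the form as a functional of germs -/
theorem t_spl : S_SPL := by
  intro z h n c g β
  unfold Lz
  rw [sum_Tm]
  have h1 : (fun k : ℕ => TS (-(k : ℚ)) g * bt z h β 1 k) = fun k : ℕ =>
      (∑ i ∈ Finset.Icc 1 (2 * h), PowerSeries.C (Cb β i * z (i + β)) *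
        (PowerSeries.X ^ (i - 1) * TS (-(k : ℚ)) g)) - TS (-(k : ℚ)) g * Hg h β k := by
    funext k
    rw [bt_eq, mul_sub, Finset.mul_sum]
    congr 1
    refine Finset.sum_congr rfl fun i _ => ?_
    ring
  rw [h1, LF_sub, LF_sum]
  congr 1
  refine Finset.sum_congr rfl fun i _ => ?_
  rw [LF_C_mul]
  unfold rh
  ring

end

end Pool.Agent.N797.PW
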