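import Pool.Agent.N797.PW.Stm
import Pool.Agent.Y926.TW.J_SYM

/-!
# `SY`: symmetrisation of the functional `LF`
-/

set_option autoImplicit false

open Polynomial Pool.Agent.H337R2 Pool.Agent.W165.OZ Pool.Agent.Y926.LZ Pool.Agent.Y926.TW

namespace Pool.Agent.N797.PW

noncomputable section

namespace SYx

open Pool.Agent.Y926.TW.SYM (io sl sl_comp yp_comp sl_sq Gb_deg Gb_ne sg sg_sg TS_io)

theorem LF_add (h n : ℕ) (c : ℕ → ℕ → ℤ) (E E' : ℕ → PowerSeries ℚ) :
    LF h n c (fun k => E k + E' k) = LF h n c E + LF h n c E' := by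
  unfold LF
  rw [← Finset.sum_add_distrib]
  refine Finset.sum_congr rfl fun k _ => ?_
  rw [← Finset.sum_add_distrib]
  refine Finset.sum_congr rfl fun i _ => ?_
  rw [map_add]
  ring

theorem LF_smul (h n : ℕ) (c : ℕ → ℕ → ℤ) (a : ℚ) (E : ℕ → PowerSeries ℚ) :
    LF h n c (fun k => PowerSeries.C a * E k) = a * LF h n c E := by
  unfold LF
  rw [Finset.mul_sum]
  refine Finset.sum_congr rfl fun k _ => ?_
  rw [Finset.mul_sum]
  refine Finset.sum_congr rfl fun i _ => ?_
  rw [PowerSeries.coeff_C_mul]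
  ring

theorem LF_congr {h n : ℕ} {c : ℕ → ℕ → ℤ} {E E' : ℕ → PowerSeries ℚ} (H : ∀ k < n, E k = E' k) :
    LF h n c E = LF h n c E' := by
  unfold LF
  refine Finset.sum_congr rfl fun k hk => ?_
  rw [H k (Finset.mem_range.1 hk)]

/-- the functional is invariant under the reflection -/
theorem LF_refl {h n : ℕ} {c : ℕ → ℕ → ℤ} (hc : AS h n c) (E : ℕ → PowerSeries ℚ) :
    LF h n c (fun k => sg (E (n - 1 - k))) = LF h n c E := by
  unfold LF
  rw [← Finset.sum_range_reflect (fun k => ∑ i ∈ Finset.Icc 1 (2 * h), (c i k : ℚ) *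
    PowerSeries.coeff (i - 1) (sg (E (n - 1 - k)))) n]
  refine Finset.sum_congr rfl fun k hk => ?_
  rw [Finset.mem_range] at hk
  refine Finset.sum_congr rfl fun i hi => ?_
  rw [Finset.mem_Icc] at hi
  have h1 : n - 1 - (n - 1 - k) = k := by omega
  rw [h1, PowerSeries.coeff_rescale, hc k hk i hi.1 hi.2]
  obtain ⟨j, rfl⟩ : ∃ j, i = j + 1 := ⟨i - 1, by omega⟩
  rw [Nat.add_sub_cancel]
  push_cast
  have h2 : ((-1 : ℚ) ^ j) * (-1) ^ j = 1 := by rw [← mul_pow]; norm_num
  rw [pow_succ, pow_succ]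
  linear_combination (c (j + 1) k : ℚ) * PowerSeries.coeff j (E k) * h2

/-- the functional vanishes on all invariant polynomials of bounded degree -/
theorem LF_span {h n G : ℕ} {c : ℕ → ℕ → ℤ} {E : ℕ → PowerSeries ℚ}
    (hL : ∀ l ≤ G, LF h n c (fun k => TS (-(k : ℚ)) (gq n l) * E k) = 0) (m : ℕ) :
    m ≤ G + 1 → ∀ g : ℚ[X], g.degree < m →
      LF h n c (fun k => TS (-(k : ℚ)) (g.comp (yp n)) * E k) = 0 := by
  induction m with
  | zero =>
    intro _ g hg
    have hg0 : g = 0 := by
      rw [← Polynomial.degree_eq_bot]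
      exact Nat.WithBot.lt_zero_iff.1 (by simpa using hg)
    rw [hg0, Polynomial.zero_comp]
    have h1 := LF_smul h n c 0 E
    rw [zero_mul] at h1
    rw [← h1]
    refine LF_congr fun k _ => ?_
    rw [map_zero, map_zero, zero_mul]
  | succ m ih =>
    intro hm g hg
    have h1 := hL m (by omega)
    set a : ℚ := g.coeff m / (Gb n m).leadingCoeff with ha
    have hlc : (Gb n m).leadingCoeff ≠ 0 := Polynomial.leadingCoeff_ne_zero.2 (Gb_ne n m)
    have h3 : (g - C a * Gb n m).degree < (m : ℕ) := by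
      rw [Polynomial.degree_lt_iff_coeff_zero]
      intro j hj
      rw [Polynomial.coeff_sub, Polynomial.coeff_C_mul]
      rcases Nat.eq_or_lt_of_le hj with h4 | h4
      · rw [← h4]
        have h5 : (Gb n m).coeff m = (Gb n m).leadingCoeff := by
          rw [Polynomial.leadingCoeff, Gb_deg]
        rw [h5, ha, div_mul_cancel₀ _ hlc, sub_self]
      · rw [Polynomial.degree_lt_iff_coeff_zero] at hg
        rw [hg j (by omega), Polynomial.coeff_eq_zero_of_natDegree_lt (by rw [Gb_deg]; exact h4),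
          mul_zero, sub_zero]
    have h4 := ih (by omega) _ h3
    have h6 : LF h n c (fun k => TS (-(k : ℚ)) (g.comp (yp n)) * E k) =
        LF h n c (fun k => TS (-(k : ℚ)) ((g - C a * Gb n m).comp (yp n)) * E k) +
          a * LF h n c (fun k => TS (-(k : ℚ)) (gq n m) * E k) := by
      rw [← LF_smul, ← LF_add]
      refine LF_congr fun k _ => ?_
      have h5 : g.comp (yp n) = (g - C a * Gb n m).comp (yp n) + C a * gq n m := by
        unfold gq
        rw [Polynomial.sub_comp, Polynomial.mul_comp, Polynomial.C_comp]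
        ring
      rw [h5, map_add, map_mul, TS_C]
      ring
    rw [h6, h4, h1, mul_zero, add_zero]

/-- the even part -/
theorem even_part {G : ℕ} (F : ℚ[X]) (hF : F.natDegree ≤ 2 * G + 1) :
    ∃ E : ℚ[X], E.natDegree ≤ G ∧ F + F.comp (-X) = E.comp (X ^ 2) := by
  refine ⟨∑ j ∈ Finset.range (G + 1), C (2 * F.coeff (2 * j)) * X ^ j, ?_, ?_⟩
  · apply Polynomial.natDegree_sum_le_of_forall_le
    intro j hj
    rw [Finset.mem_range] at hj
    exact (Polynomial.natDegree_C_mul_X_pow_le _ _).trans (by omega)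
  · have hE : ∀ i, (∑ j ∈ Finset.range (G + 1), C (2 * F.coeff (2 * j)) * X ^ j :
        ℚ[X]).coeff i = 2 * F.coeff (2 * i) := by
      intro i
      rw [Polynomial.finsetSum_coeff]
      simp only [Polynomial.coeff_C_mul_X_pow]
      rw [Finset.sum_ite_eq]
      split_ifs with h
      · rfl
      · rw [Finset.mem_range] at h
        rw [Polynomial.coeff_eq_zero_of_natDegree_lt (by omega), mul_zero]
    rw [← Polynomial.expand_eq_comp_X_pow]
    ext i
    have hX : (-X : ℚ[X]) = C (-1) * X := by rw [map_neg, map_one, neg_one_mul]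
    rw [Polynomial.coeff_add, hX, Polynomial.comp_C_mul_X_coeff, Polynomial.coeff_expand (by norm_num), hE]
    split_ifs with h
    · obtain ⟨l, rfl⟩ := h
      rw [Nat.mul_div_cancel_left _ (by norm_num), pow_mul]
      norm_num
      ring
    · have h2 : Odd i := by
        rw [← Nat.not_even_iff_odd]
        intro h3
        exact h h3.two_dvd
      rw [h2.neg_one_pow]
      ring

theorem inv {n G : ℕ} (F : ℚ[X]) (hF : F.natDegree ≤ 2 * G + 1) :
    ∃ g : ℚ[X], g.natDegree ≤ G ∧ F + F.comp (io n) = g.comp (yp n) := by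
  set t : ℚ[X] := C (1 / 2) * X - C (((n : ℚ) - 1) / 2) with ht
  have hts : t.comp (sl n) = X := by
    rw [ht]
    unfold sl
    simp only [Polynomial.mul_comp, Polynomial.sub_comp, Polynomial.X_comp, Polynomial.C_comp]
    rw [mul_add, ← mul_assoc, ← C_mul, ← C_mul,
      show (1 / 2 : ℚ) * ((n : ℚ) - 1) = ((n : ℚ) - 1) / 2 by ring,
      show (1 / 2 : ℚ) * 2 = 1 by norm_num, C_1]
    ring
  have hF1 : (F.comp t).comp (sl n) = F := by
    rw [Polynomial.comp_assoc, hts, Polynomial.comp_X]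
  have hdeg : (F.comp t).natDegree ≤ 2 * G + 1 := by
    rw [Polynomial.natDegree_comp]
    have : t.natDegree ≤ 1 := by
      rw [ht]
      compute_degree
    calc F.natDegree * t.natDegree ≤ (2 * G + 1) * 1 := Nat.mul_le_mul hF this
      _ = 2 * G + 1 := by ring
  obtain ⟨E, hE1, hE2⟩ := even_part (F.comp t) hdeg
  refine ⟨E.comp (C 4 * X + C (((n : ℚ) - 1) ^ 2)), ?_, ?_⟩
  · rw [Polynomial.natDegree_comp]
    have : (C 4 * X + C (((n : ℚ) - 1) ^ 2) : ℚ[X]).natDegree ≤ 1 := by compute_degree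
    calc _ ≤ G * 1 := Nat.mul_le_mul hE1 this
      _ = G := by ring
  · have h1 : F.comp (io n) = ((F.comp t).comp (-X)).comp (sl n) := by
      calc F.comp (io n) = ((F.comp t).comp (sl n)).comp (io n) := by rw [hF1]
        _ = (F.comp t).comp ((sl n).comp (io n)) := Polynomial.comp_assoc _ _ _
        _ = (F.comp t).comp ((-X : ℚ[X]).comp (sl n)) := by
          rw [sl_comp, Polynomial.neg_comp, Polynomial.X_comp]
        _ = _ := (Polynomial.comp_assoc _ _ _).symm
    have h2 : F + F.comp (io n) = (F.comp t + (F.comp t).comp (-X)).comp (sl n) := by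
      rw [Polynomial.add_comp, hF1, h1]
    rw [h2, hE2, Polynomial.comp_assoc, Polynomial.comp_assoc, Polynomial.pow_comp, Polynomial.X_comp,
      sl_sq]

theorem io_io (n : ℕ) : (io n).comp (io n) = X := by
  unfold io
  simp only [Polynomial.sub_comp, Polynomial.neg_comp, Polynomial.X_comp, Polynomial.C_comp]
  ring

end SYx

open SYx in
open Pool.Agent.Y926.TW.SYM (io TS_io) in
theorem t_sy : S_SY := by
  intro h n G c E hn hc hL f hf
  obtain ⟨g, hg1, hg2⟩ := inv (n := n) f hf
  have h0 : LF h n c (fun k => TS (-(k : ℚ)) (g.comp (yp n)) * E k) = 0 :=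
    LF_span hL (G + 1) le_rfl g
      (lt_of_le_of_lt Polynomial.degree_le_natDegree (by exact_mod_cast Nat.lt_succ_of_le hg1))
  have h1 : LF h n c (fun k => TS (-(k : ℚ)) f * PowerSeries.rescale (-1 : ℚ) (E (n - 1 - k))) =
      LF h n c (fun k => TS (-(k : ℚ)) (f.comp (io n)) * E k) := by
    rw [← LF_refl hc (fun k => TS (-(k : ℚ)) (f.comp (io n)) * E k)]
    refine LF_congr fun k hk => ?_
    have h2 : f = (f.comp (io n)).comp (io n) := by
      rw [Polynomial.comp_assoc, io_io, Polynomial.comp_X]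
    conv_lhs => rw [h2]
    rw [TS_io hk, map_mul]
  have h2 : LF h n c (fun k => TS (-(k : ℚ)) f * (E k + PowerSeries.rescale (-1 : ℚ) (E (n - 1 - k)))) =
      LF h n c (fun k => TS (-(k : ℚ)) f * E k) +
        LF h n c (fun k => TS (-(k : ℚ)) f * PowerSeries.rescale (-1 : ℚ) (E (n - 1 - k))) := by
    rw [← LF_add]
    refine LF_congr fun k _ => ?_
    rw [mul_add]
  rw [h2, h1, ← LF_add, ← h0]
  refine LF_congr fun k _ => ?_
  rw [← hg2, map_add, add_mul]

end

end Pool.Agent.N797.PW
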