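import Pool.Agent.N797.PW.Stm

/-!
# Project PW: the Taylor expansion of the multiplier, theorem `t_tay : S_TAY` (helper803)
-/

set_option autoImplicit false

open Polynomial Pool.Agent.H337R2 Pool.Agent.W165.OZ Pool.Agent.Y926.LZ Pool.Agent.Y926.TW Filter

namespace Pool.Agent.N797.PW

namespace JTay

lemma coeff_gx (β j : ℕ) (u : ℚ) :
    PowerSeries.coeff j (gx β u) = Cb β (j + 1) / u ^ (j + 1 + β) := by
  unfold gx
  rw [PowerSeries.coeff_mk]

lemma Cb_eq (β j : ℕ) : Cb β (j + 1) = ((j + β).choose j : ℚ) := by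
  unfold Cb
  rw [Nat.add_sub_cancel]

/-- multiplication by `u - X` lowers the order -/
lemma step (β : ℕ) {u : ℚ} (hu : u ≠ 0) :
    (PowerSeries.C u - PowerSeries.X) * gx (β + 1) u = gx β u := by
  ext j
  rw [sub_mul, map_sub, PowerSeries.coeff_C_mul, coeff_gx, coeff_gx, Cb_eq, Cb_eq]
  rcases j with _ | j
  · rw [PowerSeries.coeff_zero_X_mul]
    simp only [Nat.choose_zero_right, Nat.cast_one, sub_zero]
    field_simp
    rw [← pow_succ']
    congr 1
  · rw [PowerSeries.coeff_succ_X_mul, coeff_gx, Cb_eq]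
    have h1 : (j + 1 + (β + 1)).choose (j + 1) =
        (j + (β + 1)).choose j + (j + 1 + β).choose (j + 1) := by
      rw [show j + 1 + (β + 1) = (j + (β + 1)) + 1 by ring, Nat.choose_succ_succ,
        show j + (β + 1) = j + 1 + β by ring]
    have e1 : u ^ (j + 1 + 1 + (β + 1)) = u * u ^ (j + 1 + (β + 1)) := by
      rw [← pow_succ']
      congr 1
      ring
    have e2 : u ^ (j + 1 + 1 + β) = u ^ (j + 1 + (β + 1)) := by
      congr 1
      ring
    rw [h1, e1, e2]
    push_cast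
    have hp : u ^ (j + 1 + (β + 1)) ≠ 0 := pow_ne_zero _ hu
    field_simp
    ring

lemma step0 {u : ℚ} (hu : u ≠ 0) : (PowerSeries.C u - PowerSeries.X) * gx 0 u = 1 := by
  ext j
  rw [sub_mul, map_sub, PowerSeries.coeff_C_mul, coeff_gx, Cb_eq]
  rcases j with _ | j
  · rw [PowerSeries.coeff_zero_X_mul, PowerSeries.coeff_zero_one]
    simp [hu]
  · rw [PowerSeries.coeff_succ_X_mul, coeff_gx, Cb_eq, PowerSeries.coeff_one,
      if_neg (Nat.succ_ne_zero j)]
    simp only [add_zero, Nat.choose_self, Nat.cast_one]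
    rw [show j + 1 + 1 = (j + 1) + 1 from rfl, pow_succ u (j + 1)]
    have hp : u ^ (j + 1) ≠ 0 := pow_ne_zero _ hu
    field_simp
    ring

lemma pow_step (β l : ℕ) (hl : l ≤ β) {u : ℚ} (hu : u ≠ 0) :
    (PowerSeries.C u - PowerSeries.X) ^ l * gx β u = gx (β - l) u := by
  induction l with
  | zero => rw [pow_zero, one_mul, Nat.sub_zero]
  | succ l ih =>
    rw [pow_succ', mul_assoc, ih (by omega)]
    have e : β - l = (β - (l + 1)) + 1 := by omega
    rw [e, step _ hu]

lemma pow_last (β : ℕ) {u : ℚ} (hu : u ≠ 0) :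
    (PowerSeries.C u - PowerSeries.X) ^ (β + 1) * gx β u = 1 := by
  rw [pow_succ', mul_assoc, pow_step β β le_rfl hu, Nat.sub_self, step0 hu]

lemma TS_sub (c a : ℚ) : TS c (X - C a) = PowerSeries.X + PowerSeries.C (c - a) := by
  rw [map_sub, TS_X, TS_C, add_sub_assoc, ← map_sub]

lemma coeff_TS (c : ℚ) (g : ℚ[X]) (j : ℕ) :
    PowerSeries.coeff j (TS c g) = (taylor c g).coeff j := by
  show PowerSeries.coeff j ((taylor c g : ℚ[X]) : PowerSeries ℚ) = _
  rw [Polynomial.coeff_coe]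

/-- the Taylor expansion with remainder -/
lemma expand (g : ℚ[X]) (β : ℕ) (t : ℚ) :
    g = ∑ l ∈ Finset.range (β + 1), C (PowerSeries.coeff l (TS t g)) * (X - C t) ^ l +
      (X - C t) ^ (β + 1) * (g /ₘ (X - C t) ^ (β + 1)) := by
  set q : ℚ[X] := (X - C t) ^ (β + 1) with hq
  have hmon : q.Monic := (monic_X_sub_C t).pow _
  set r : ℚ[X] := g %ₘ q with hr
  have h1 : r + q * (g /ₘ q) = g := modByMonic_add_div g q
  have hdeg : q.natDegree = β + 1 := by
    rw [hq, natDegree_pow, natDegree_X_sub_C, mul_one]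
  have hq1 : q ≠ 1 := by
    intro h0
    rw [h0, natDegree_one] at hdeg
    omega
  have hrd : r.natDegree < β + 1 := by
    rw [← hdeg]
    exact natDegree_modByMonic_lt g hmon hq1
  have hTS : TS t g = TS t r + PowerSeries.X ^ (β + 1) * TS t (g /ₘ q) := by
    conv_lhs => rw [← h1]
    rw [map_add, map_mul, hq, map_pow, TS_sub, sub_self, map_zero, add_zero]
  have hco : ∀ l ∈ Finset.range (β + 1), C (PowerSeries.coeff l (TS t g)) * (X - C t) ^ l =
      C ((taylor t r).coeff l) * (X - C t) ^ l := by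
    intro l hl
    rw [Finset.mem_range] at hl
    rw [hTS, map_add, PowerSeries.coeff_X_pow_mul', if_neg (by omega), add_zero, coeff_TS]
  have hsum : ∑ l ∈ Finset.range (β + 1), C ((taylor t r).coeff l) * (X - C t) ^ l = r := by
    have h2 := sum_taylor_eq r t
    rw [sum_over_range' _ (fun n => by rw [C_0, zero_mul]) (β + 1)
      (by rw [natDegree_taylor]; exact hrd)] at h2
    exact h2
  rw [Finset.sum_congr rfl hco, hsum, h1]

/-- one node -/
lemma node (g : ℚ[X]) (β k : ℕ) (t : ℚ) (hu : t + k ≠ 0) :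
    TS (-(k : ℚ)) g * gx β (t + k) =
      ∑ l ∈ Finset.range (β + 1), PowerSeries.C ((-1) ^ l * PowerSeries.coeff l (TS t g)) *
        gx (β - l) (t + k) +
      PowerSeries.C ((-1) ^ (β + 1)) * TS (-(k : ℚ)) (g /ₘ (X - C t) ^ (β + 1)) := by
  have hY : TS (-(k : ℚ)) (X - C t) = -(PowerSeries.C (t + k) - PowerSeries.X) := by
    rw [TS_sub, show -(k : ℚ) - t = -(t + k) by ring, map_neg]
    ring
  conv_lhs => rw [expand g β t]
  rw [map_add, map_sum, add_mul, Finset.sum_mul]
  congr 1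
  · refine Finset.sum_congr rfl fun l hl => ?_
    rw [Finset.mem_range] at hl
    rw [map_mul, TS_C, map_pow, hY, neg_pow, map_mul, map_pow, map_neg, map_one,
      ← pow_step β l (by omega) hu]
    ring
  · rw [map_mul, map_pow, hY, neg_pow, map_pow, map_neg, map_one]
    linear_combination (-1) ^ (β + 1) * TS (-(k : ℚ)) (g /ₘ (X - C t) ^ (β + 1)) *
      pow_last β hu

end JTay

open JTay in
theorem t_tay : S_TAY := by
  intro h n c g β t
  unfold Tm ev
  have h1 : ∀ k ∈ nd n t, ∑ i ∈ Finset.Icc 1 (2 * h), (c i k : ℚ) *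
      PowerSeries.coeff (i - 1) (TS (-(k : ℚ)) g * gx β ((t : ℚ) + k)) =
      ∑ l ∈ Finset.range (β + 1), (-1) ^ l * PowerSeries.coeff l (TS (t : ℚ) g) *
        (∑ i ∈ Finset.Icc 1 (2 * h), (c i k : ℚ) * (Cb (β - l) i / ((t : ℚ) + k) ^ (i + (β - l)))) +
      (-1) ^ (β + 1) * ∑ i ∈ Finset.Icc 1 (2 * h), (c i k : ℚ) *
        PowerSeries.coeff (i - 1) (TS (-(k : ℚ)) (g /ₘ (X - C (t : ℚ)) ^ (β + 1))) := by
    intro k hk
    have hu : (t : ℚ) + k ≠ 0 := by
      have h2 := (Finset.mem_filter.1 hk).2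
      have h3 : (0 : ℚ) < (t : ℚ) + k := by exact_mod_cast h2
      exact h3.ne'
    simp only [Finset.mul_sum]
    rw [Finset.sum_comm, ← Finset.sum_add_distrib]
    refine Finset.sum_congr rfl fun i hi => ?_
    have hi1 : 1 ≤ i := (Finset.mem_Icc.1 hi).1
    rw [node g β k t hu, map_add, map_sum, PowerSeries.coeff_C_mul, mul_add, Finset.mul_sum]
    congr 1
    · refine Finset.sum_congr rfl fun l _ => ?_
      rw [PowerSeries.coeff_C_mul, coeff_gx, Nat.sub_add_cancel hi1]
      ring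
    · ring
  rw [Finset.sum_congr rfl h1, Finset.sum_add_distrib, Finset.sum_comm, ← Finset.mul_sum]
  congr 1
  refine Finset.sum_congr rfl fun l _ => ?_
  rw [Finset.mul_sum]

end Pool.Agent.N797.PW
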