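import Pool.Agent.N797.PW.Fin
import Pool.Agent.N797.PW.J_DET
import Pool.Agent.N797.PW.J_DIF
import Pool.Agent.N797.PW.J_DU
import Pool.Agent.N797.PW.J_GCD
import Pool.Agent.N797.PW.J_INT
import Pool.Agent.N797.PW.J_JB
import Pool.Agent.N797.PW.J_JZI
import Pool.Agent.N797.PW.J_NUM
import Pool.Agent.N797.PW.J_PIG
import Pool.Agent.N797.PW.J_POLE
import Pool.Agent.N797.PW.J_RCW
import Pool.Agent.N797.PW.J_REAL
import Pool.Agent.N797.PW.J_SEMI
import Pool.Agent.N797.PW.J_SG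
import Pool.Agent.N797.PW.J_SML
import Pool.Agent.N797.PW.J_SPL
import Pool.Agent.N797.PW.J_SY
import Pool.Agent.N797.PW.J_TAY

/-!
# The measure for windows of odd zeta values
-/

set_option autoImplicit false

open Pool.Agent.H337R2 Module

namespace Pool.Agent.N797.PW

/-- **The measure.** -/
theorem measure {b S s : ℕ} (hS : 1 ≤ S) (hs : Wn b S s) : Ms b S s :=
  meas_of_core (fun b S hb hb2 hS => pw_core (t_sg t_pig t_ji t_jb) (t_num t_gcd) t_gcd
    (t_int t_ji t_jz t_tay) (t_sml t_tay t_real t_jb t_sy) (t_dif t_jb)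
    (t_ze t_spl t_sy t_du t_pd t_det t_semi t_pole t_rcw) hb hb2 hS) hS hs

end Pool.Agent.N797.PW
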