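import Pool.Agent.Y926.TW.Stm

/-!
# Polynomial linear independence of odd zeta values in windows: definitions and statements of the parts

The forms are `∑_{t ≥ 1} (1/β!) (d/dt)^β [F(t) g(t)]` for a single unknown rational function
`F(t) = ∑_{k < n} ∑_{1 ≤ i ≤ 2h} c_{ik} / (t + k)^i` with integer coefficients, the orders `β = b, b + 2, …, b + 2(M-1)`
and the multipliers `g = Gb n l (y(t))`, `y(t) = t (t + n - 1)`. The coefficients come from the pigeonhole principle,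
with linear equations and with congruences.
-/

open Polynomial Pool.Agent.H337R2 Pool.Agent.W165.OZ Pool.Agent.Y926.LZ Pool.Agent.Y926.TW Filter

namespace Pool.Agent.N797.PW

noncomputable section

/-! ### Definitions -/

/-- the functional `∑_k ∑_i c_{ik} [X^(i-1)] E_k` on the families of germs at the points `-k` -/
def LF (h n : ℕ) (c : ℕ → ℕ → ℤ) (E : ℕ → PowerSeries ℚ) : ℚ :=
  ∑ k ∈ Finset.range n, ∑ i ∈ Finset.Icc 1 (2 * h), (c i k : ℚ) * PowerSeries.coeff (i - 1) (E k)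

/-- `(u - X)^(-β-1)` -/
def gx (β : ℕ) (u : ℚ) : PowerSeries ℚ := PowerSeries.mk fun j => Cb β (j + 1) / u ^ (j + 1 + β)

/-- the nodes `-k`, `k < n`, with `-k < t` -/
def nd (n : ℕ) (t : ℤ) : Finset ℕ := (Finset.range n).filter fun k => 0 < t + (k : ℤ)

/-- the value `(1/β!) F^(β)(t)` up to the sign, only the poles to the left of `t` -/
def ev (h n : ℕ) (c : ℕ → ℕ → ℤ) (β : ℕ) (t : ℤ) : ℚ :=
  ∑ k ∈ nd n t, ∑ i ∈ Finset.Icc 1 (2 * h), (c i k : ℚ) * (Cb β i / ((t : ℚ) + k) ^ (i + β))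

/-- the term of `t`: the residues of `F(x) g(x) (t - x)^(-β-1)` at the poles to the left of `t` -/
def Tm (h n : ℕ) (c : ℕ → ℕ → ℤ) (g : ℚ[X]) (β : ℕ) (t : ℤ) : ℚ :=
  ∑ k ∈ nd n t, ∑ i ∈ Finset.Icc 1 (2 * h), (c i k : ℚ) *
    PowerSeries.coeff (i - 1) (TS (-(k : ℚ)) g * gx β ((t : ℚ) + k))

/-- the coefficient of `ζ(i + β)` (up to the binomial coefficient) -/
def rh (h n : ℕ) (c : ℕ → ℕ → ℤ) (g : ℚ[X]) (i : ℕ) : ℚ :=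
  LF h n c fun k => PowerSeries.X ^ (i - 1) * TS (-(k : ℚ)) g

/-- the linear form with `z j` in the place of `ζ(j)` -/
def Lz (z : ℕ → ℚ) (h n : ℕ) (c : ℕ → ℕ → ℤ) (g : ℚ[X]) (β : ℕ) : ℚ :=
  ∑ i ∈ Finset.Icc 1 (2 * h), Cb β i * rh h n c g i * z (i + β) -
    ∑ v ∈ Finset.range n, Tm h n c g β (-(v : ℤ))

/-- the real linear form -/
def LR (h n : ℕ) (c : ℕ → ℕ → ℤ) (g : ℚ[X]) (β : ℕ) : ℝ :=
  ∑ i ∈ Finset.Icc 1 (2 * h), ((Cb β i * rh h n c g i : ℚ) : ℝ) * zr (i + β) -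
    ∑ v ∈ Finset.range n, ((Tm h n c g β (-(v : ℤ)) : ℚ) : ℝ)

/-- the multipliers as polynomials in `t` -/
def gq (n l : ℕ) : ℚ[X] := (Gb n l).comp (yp n)

/-- antisymmetry: `F(-(n-1)-t) = -F(t)` -/
def AS (h n : ℕ) (c : ℕ → ℕ → ℤ) : Prop :=
  ∀ k < n, ∀ i, 1 ≤ i → i ≤ 2 * h → c i (n - 1 - k) = (-1) ^ (i + 1) * c i k

/-- type A: `F` is small at infinity -/
def TA (h n : ℕ) (c : ℕ → ℕ → ℤ) (G : ℕ) : Prop :=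
  ∀ l ≤ G, LF h n c (fun k => TS (-(k : ℚ)) (gq n l)) = 0

/-- type B: zeros of order `B` at `1, …, r n` -/
def TB (h n : ℕ) (c : ℕ → ℕ → ℤ) (r B : ℕ) : Prop :=
  ∀ t : ℤ, 1 ≤ t → t ≤ r * n → ∀ β < B, ev h n c β t = 0

/-- type C: integrality at `0, -1, …, -(n-1)` -/
def TC (h n : ℕ) (c : ℕ → ℕ → ℤ) (B : ℕ) : Prop :=
  ∀ v < n, ∀ β < B, ∃ M : ℤ, ev h n c β (-(v : ℤ)) = M

/-- the coefficients are not all zero -/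
def NZ (h n : ℕ) (c : ℕ → ℕ → ℤ) : Prop := ∃ i k, 1 ≤ i ∧ i ≤ 2 * h ∧ k < n ∧ c i k ≠ 0

/-- the common denominator `gcd(d_n^e, n!^f)` -/
def DW (n e f : ℕ) : ℕ := Nat.gcd (Dl n 1 ^ e) (n.factorial ^ f)

/-- the polynomial `F(t) ∏_{k < n} (t + k)^(2h)` -/
def PF (h n : ℕ) (c : ℕ → ℕ → ℤ) : ℚ[X] :=
  ∑ k ∈ Finset.range n, ∑ i ∈ Finset.Icc 1 (2 * h),
    C ((c i k : ℤ) : ℚ) * (X + C (k : ℚ)) ^ (2 * h - i) * QQ ((Finset.range n).erase k) (mP h)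

/-- `(t - 1)^B (t + n - 1)^B` -/
def PjW (n B : ℕ) : ℚ[X] := (X - C 1) ^ B * (X + C ((n : ℚ) - 1)) ^ B

/-- `PjW · (1/(t-1)^(β+1) + 1/(t+n-1)^(β+1))` -/
def etW (n B β : ℕ) : ℚ[X] := (X - C 1) ^ (B - β - 1) * (X + C ((n : ℚ) - 1)) ^ B +
  (X - C 1) ^ B * (X + C ((n : ℚ) - 1)) ^ (B - β - 1)

/-! ### Pigeonhole, denominators -/

/-- PIG: the pigeonhole principle with equations and congruences -/
def S_PIG : Prop := ∀ (ι κ μ : Type) [Fintype ι] [Fintype κ] [Fintype μ] (f : κ → ι → ℤ)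
  (g : μ → ι → ℤ) (V : κ → ℕ) (m : μ → ℕ) (H : ℕ),
  (∀ j, ∑ i, |f j i| ≤ (V j : ℤ)) → (∀ j, 1 ≤ m j) →
  (∏ j, (H * V j + 1)) * ∏ j, m j < (H + 1) ^ Fintype.card ι →
  ∃ x : ι → ℤ, x ≠ 0 ∧ (∀ i, |x i| ≤ (H : ℤ)) ∧ (∀ j, ∑ i, f j i * x i = 0) ∧
    ∀ j, (m j : ℤ) ∣ ∑ i, g j i * x i

/-- GCD: the common denominator is small -/
def S_GCD : Prop := ∀ e f f' J : ℕ, e ≤ 2 ^ J * f' →
  ∀ᶠ n in atTop, (DW n e f : ℝ) ≤ 2 ^ ((2 * f' + 4 * J * f + 1) * n)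

/-- JI: `DW` is a common denominator of the jets of the multipliers at integers -/
def S_JI : Prop := ∀ (n l γ e i : ℕ) (x : ℤ), 1 ≤ n → l ≤ γ * n → i ≤ e →
  ∃ M : ℤ, (DW n e (2 * γ + 2) : ℚ) * PowerSeries.coeff i (TS (x : ℚ) (gq n l)) = M

/-- JZ: `n!^(2γ+2)` is a common denominator of the coefficients -/
def S_JZ : Prop := ∀ n l γ : ℕ, 1 ≤ n → l ≤ γ * n →
  ∃ G : ℤ[X], C ((n.factorial : ℚ) ^ (2 * γ + 2)) * gq n l = G.map (Int.castRingHom ℚ)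

/-- JB: the size of the jets at the nodes -/
def S_JB : Prop := ∀ n l k N : ℕ, 1 ≤ n → k < n →
  ∑ j ∈ Finset.range N, |PowerSeries.coeff j (TS (-(k : ℚ)) (gq n l))| ≤ 8 ^ (l + n)

/-- the numerical condition for Siegel's lemma -/
def SgNum (h ν r B w H : ℕ) : Prop :=
  (H * (2 * ((2 * ν + 1) * DW (2 * ν + 1) (2 * h) (2 * w + 2) * 8 ^ ((w + 1) * (2 * ν + 1)))) + 1) ^
      (w * (2 * ν + 1) + 1) *
    (H * (2 * ((2 * ν + 1) * (2 * h) * 2 ^ (2 * h + B) *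
      Dl ((r + 1) * (2 * ν + 1)) 1 ^ (2 * h + B))) + 1) ^ (r * (2 * ν + 1) * B) *
    (Dl (2 * ν + 1) 1 ^ (2 * h + B)) ^ ((2 * ν + 1) * B) < (H + 1) ^ (2 * h * ν)

/-- SG: Siegel's lemma for our conditions -/
def S_SG : Prop := ∀ h ν r B w H : ℕ, 1 ≤ h → 1 ≤ ν → SgNum h ν r B w H →
  ∃ c : ℕ → ℕ → ℤ, AS h (2 * ν + 1) c ∧ NZ h (2 * ν + 1) c ∧ (∀ i k, |c i k| ≤ (H : ℤ)) ∧
    TA h (2 * ν + 1) c (w * (2 * ν + 1)) ∧ TB h (2 * ν + 1) c r B ∧ TC h (2 * ν + 1) c B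

/-- NUM: the numerical condition holds for large `ν` -/
def S_NUM : Prop := ∀ h r B w x J : ℕ, 2 * h ≤ 2 ^ J * w →
  (w + 1) * (x + 5 * w + 8 * J * (w + 1) + 5) + r * B * (x + 4 * (r + 1) * (2 * h + B) + 1) +
    4 * B * (2 * h + B) < x * h →
  ∀ᶠ ν in atTop, SgNum h ν r B w (2 ^ (x * (2 * ν + 1)))

/-! ### The forms -/

/-- TAY: the Taylor expansion of the multiplier at `t` -/
def S_TAY : Prop := ∀ (h n : ℕ) (c : ℕ → ℕ → ℤ) (g : ℚ[X]) (β : ℕ) (t : ℤ),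
  Tm h n c g β t = ∑ l ∈ Finset.range (β + 1),
      (-1) ^ l * PowerSeries.coeff l (TS (t : ℚ) g) * ev h n c (β - l) t +
    (-1) ^ (β + 1) * ∑ k ∈ nd n t, ∑ i ∈ Finset.Icc 1 (2 * h), (c i k : ℚ) *
      PowerSeries.coeff (i - 1) (TS (-(k : ℚ)) (g /ₘ (X - C (t : ℚ)) ^ (β + 1)))

/-- INT: integrality of the forms -/
def S_INT : Prop := ∀ (z : ℕ → ℚ) (h ν β B γ l q : ℕ) (c : ℕ → ℕ → ℤ), Even β → β < B →
  l ≤ γ * (2 * ν + 1) → AS h (2 * ν + 1) c → TC h (2 * ν + 1) c B →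
  (∀ j, Odd j → β < j → j ≤ 2 * h + β → ∃ a : ℤ, (q : ℚ) * z j = a) →
  ∃ M : ℤ, (q : ℚ) * (DW (2 * ν + 1) (2 * h + 2 * B) (2 * γ + 2) : ℚ) *
    Lz z h (2 * ν + 1) c (gq (2 * ν + 1) l) β = M

/-- REAL: the real form is the sum of the terms -/
def S_REAL : Prop := ∀ (h n : ℕ) (c : ℕ → ℕ → ℤ) (g : ℚ[X]) (β : ℕ), 2 ≤ β →
  HasSum (fun t : ℕ => ((Tm h n c g β ((t : ℤ) + 1) : ℚ) : ℝ)) (LR h n c g β)

/-- SML: the forms are small -/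
def S_SML : Prop := ∀ (h ν β B w r l H : ℕ) (c : ℕ → ℕ → ℤ), 2 ≤ β → β < B → 4 ≤ r →
  l ≤ w * (2 * ν + 1) → AS h (2 * ν + 1) c → (∀ i k, |c i k| ≤ (H : ℤ)) →
  TA h (2 * ν + 1) c (w * (2 * ν + 1)) → TB h (2 * ν + 1) c r B →
  |LR h (2 * ν + 1) c (gq (2 * ν + 1) l) β| ≤
    2 ^ (β + 2) * (r : ℝ) ^ 2 * (2 * (ν : ℝ) + 1) ^ 3 * H * 8 ^ (l + (2 * ν + 1)) *
      (2 / (r : ℝ)) ^ (2 * (w * (2 * ν + 1)) + 2 - 2 * l)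

/-- DIF: the difference of the two forms -/
def S_DIF : Prop := ∀ (z : ℕ → ℚ) (h ν β l H : ℕ) (c : ℕ → ℕ → ℤ) (δ : ℝ), Even β → 0 ≤ δ →
  AS h (2 * ν + 1) c → (∀ i k, |c i k| ≤ (H : ℤ)) →
  (∀ j, Odd j → β < j → j ≤ 2 * h + β → |zr j - (z j : ℝ)| ≤ δ) →
  |LR h (2 * ν + 1) c (gq (2 * ν + 1) l) β - (Lz z h (2 * ν + 1) c (gq (2 * ν + 1) l) β : ℝ)| ≤
    2 * h * (2 ^ (2 * h + β) * (H * (2 * (ν : ℝ) + 1) * 8 ^ (l + (2 * ν + 1)))) * δ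

/-! ### The zero estimate -/

/-- SPL: the form as a functional of germs -/
def S_SPL : Prop := ∀ (z : ℕ → ℚ) (h n : ℕ) (c : ℕ → ℕ → ℤ) (g : ℚ[X]) (β : ℕ),
  Lz z h n c g β = LF h n c (fun k => TS (-(k : ℚ)) g * bt z h β 1 k)

/-- SY: symmetrisation -/
def S_SY : Prop := ∀ (h n G : ℕ) (c : ℕ → ℕ → ℤ) (E : ℕ → PowerSeries ℚ), 1 ≤ n → AS h n c →
  (∀ l ≤ G, LF h n c (fun k => TS (-(k : ℚ)) (gq n l) * E k) = 0) →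
  ∀ f : ℚ[X], f.natDegree ≤ 2 * G + 1 →
    LF h n c (fun k => TS (-(k : ℚ)) f * (E k + PowerSeries.rescale (-1 : ℚ) (E (n - 1 - k)))) = 0

/-- DU: duality -/
def S_DU : Prop := ∀ (h n G : ℕ) (c : ℕ → ℕ → ℤ) (E : ℕ → PowerSeries ℚ), 1 ≤ n → 1 ≤ h →
  G + 2 ≤ n * (2 * h) →
  (∀ f : ℚ[X], f.natDegree ≤ G → LF h n c (fun k => TS (-(k : ℚ)) f * E k) = 0) →
  ∃ A : ℚ[X], A.natDegree + G + 2 ≤ n * (2 * h) ∧
    ∀ k < n, (PowerSeries.X : PowerSeries ℚ) ^ (2 * h) ∣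
      TS (-(k : ℚ)) (PF h n c) * E k - TS (-(k : ℚ)) A

/-- PD: the polynomial `PF` -/
def S_PD : Prop := ∀ (h n : ℕ) (c : ℕ → ℕ → ℤ), 1 ≤ n → 1 ≤ h → NZ h n c → PF h n c ≠ 0 ∧
  ∀ G : ℕ, G + 2 ≤ n * (2 * h) →
    (∀ f : ℚ[X], f.natDegree ≤ G → LF h n c (fun k => TS (-(k : ℚ)) f) = 0) →
    (PF h n c).natDegree + G + 2 ≤ n * (2 * h)

/-- the rows of the matrix of the zero estimate -/
def rw1 {m : ℕ} (P Pj : ℚ[X]) (A η : Fin m → ℚ[X]) (i : ℕ) : Fin (m + 1) → ℚ[X] :=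
  Fin.cons ((∏ j ∈ Finset.range i, sh j Pj) * sh i P) fun l =>
    (∏ j ∈ Finset.range i, sh j Pj) * sh i (A l) -
      sh i P * ∑ j ∈ Finset.range i, (∏ j' ∈ (Finset.range i).erase j, sh j' Pj) * sh j (η l)

/-- DET: the determinant vanishes -/
def S_DET : Prop := ∀ (m n T d D : ℕ) (P Pj : ℚ[X]) (A η : Fin m → ℚ[X])
  (β : ℕ → Fin m → PowerSeries ℚ), m < n → P.natDegree ≤ D → (∀ l, (A l).natDegree ≤ D) →
  Pj.natDegree ≤ d → (∀ l, (η l).natDegree ≤ d) →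
  (∀ k < n, ∀ l, (PowerSeries.X : PowerSeries ℚ) ^ T ∣
    TS (-(k : ℚ)) P * β k l - TS (-(k : ℚ)) (A l)) →
  (∀ k, k + 1 < n → ∀ l, (PowerSeries.X : PowerSeries ℚ) ^ T ∣
    TS (-(k : ℚ)) Pj * (β (k + 1) l - β k l) - TS (-(k : ℚ)) (η l)) →
  (m + 1) * D + d * (m * (m + 1)) < T * m * (n - m) →
  Matrix.det (Matrix.of fun i : Fin (m + 1) => rw1 P Pj A η i) = 0

/-- SEMI: the semilinear argument -/
def S_SEMI : Prop := ∀ (m : ℕ) (P Pj : ℚ[X]) (A η : Fin m → ℚ[X]), P ≠ 0 → Pj ≠ 0 →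
  Matrix.det (Matrix.of fun i : Fin (m + 1) => rw1 P Pj A η i) = 0 →
  ∃ (κ : Fin m → ℚ) (u v : ℚ[X]), κ ≠ 0 ∧ v ≠ 0 ∧
    Pj * (u * sh 1 v - sh 1 u * v) + (∑ l, C (κ l) * η l) * v * sh 1 v = 0

/-- POLE: the functions `η` are not differences -/
def S_POLE : Prop := ∀ (n b M : ℕ) (κ : Fin M → ℚ) (u v : ℚ[X]), 1 ≤ n → v ≠ 0 →
  PjW n (b + 2 * M) * (u * sh 1 v - sh 1 u * v) +
    (∑ l : Fin M, C (κ l) * etW n (b + 2 * M) (b + 2 * l)) * v * sh 1 v = 0 → κ = 0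

/-- RCW: the recursion -/
def S_RCW : Prop := ∀ (z : ℕ → ℚ) (n h b M l k : ℕ), Even b → 1 ≤ h → l < M → k + 1 < n →
  (PowerSeries.X : PowerSeries ℚ) ^ (2 * h) ∣
    TS (-(k : ℚ)) (PjW n (b + 2 * M)) * (bs z n h (b + 2 * l) 1 (k + 1) - bs z n h (b + 2 * l) 1 k) -
      TS (-(k : ℚ)) (etW n (b + 2 * M) (b + 2 * l))

/-- ZE: the zero estimate -/
def S_ZE : Prop := ∀ (z : ℕ → ℚ) (h ν b M G : ℕ) (c : ℕ → ℕ → ℤ), Even b → 1 ≤ h → 1 ≤ M →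
  M < 2 * ν + 1 → AS h (2 * ν + 1) c → NZ h (2 * ν + 1) c → TA h (2 * ν + 1) c G →
  (∀ j < M, ∀ l ≤ G, Lz z h (2 * ν + 1) c (gq (2 * ν + 1) l) (b + 2 * j) = 0) →
  2 * G + 3 ≤ (2 * ν + 1) * (2 * h) →
  2 * h * (2 * ν + 1) + 2 * (b + 2 * M) * (M * (M + 1)) + 2 * h * M ^ 2 <
    (2 * G + 3) * (M + 1) → False

end

end Pool.Agent.N797.PW
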